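import Pool.Agent.D0H97.VV.Gd
import Pool.Agent.D0H97.FX.Cr0

/-!
One-parameter curves in the torus of a coherent set: the width of forms.
-/

set_option autoImplicit false
set_option linter.unusedSectionVars false

namespace Pool.Agent.D0H97.VV

open NumberField IsDedekindDomain Height Filter Topology
open Pool.Agent.K1H83.VN (Sc Sm)
open Pool.Agent.D0H85.SP (pw pw_add pw_neg pw_zero Th Th_C Th_X Th_monomial wgt exists_factor
  eval₂_smul poly_zero eval_eval₂)
open Pool.Agent.D0H97.FT (zz zz_inj exists_weights)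
open Pool.Agent.D0H97.FX
open Pool.Agent.D0H85.SQ (NoCentre)
open Pool.Agent.W602.GT (coords LogSec IsForm)

variable {Λ : ℕ → Type} [∀ t, Field (Λ t)] [∀ t, NumberField (Λ t)] [Bdd Λ] {σ : Sc} {s : ℕ}
  {K : Type} [Field K] [NumberField K] [∀ t, Algebra K (Λ t)]
  {e : Fin s → G Λ σ} {β : Fin s → ℝ} {n w : ℕ}

/-- the curve `t ↦ (e i t ^ l i)` -/
noncomputable def tau (e : Fin s → G Λ σ) (l : Fin s → ℕ) :
    MvPolynomial (Fin s) (FF Λ σ) →+* Polynomial (G Λ σ) :=
  (Polynomial.mapRingHom (evg e)).comp (Th l)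

theorem tau_eq (e : Fin s → G Λ σ) (l : Fin s → ℕ) (p : MvPolynomial (Fin s) (FF Λ σ)) :
    tau e l p = ∑ m ∈ p.support,
      Polynomial.C (evg e (MvPolynomial.monomial m (p.coeff m))) * Polynomial.X ^ wgt l m := by
  conv_lhs => rw [MvPolynomial.as_sum p]
  rw [map_sum]
  refine Finset.sum_congr rfl fun m _ => ?_
  show (Th l (MvPolynomial.monomial m (p.coeff m))).map (evg e) = _
  rw [Th_monomial, Polynomial.map_mul, Polynomial.map_C, Polynomial.map_pow, Polynomial.map_X]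

/-- the part of a given weight -/
noncomputable def part (l : Fin s → ℕ) (p : MvPolynomial (Fin s) (FF Λ σ)) (k : ℕ) :
    MvPolynomial (Fin s) (FF Λ σ) :=
  ∑ m ∈ p.support with wgt l m = k, MvPolynomial.monomial m (p.coeff m)

theorem tau_coeff (e : Fin s → G Λ σ) (l : Fin s → ℕ) (p : MvPolynomial (Fin s) (FF Λ σ)) (k : ℕ) :
    (tau e l p).coeff k = evg e (part l p k) := by
  classical
  rw [tau_eq, Polynomial.finsetSum_coeff]
  simp only [Polynomial.coeff_C_mul_X_pow]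
  unfold part
  rw [map_sum, Finset.sum_filter]
  refine Finset.sum_congr rfl fun m _ => ?_
  by_cases h : k = wgt l m
  · rw [if_pos h, if_pos h.symm]
  · rw [if_neg h, if_neg fun h' => h h'.symm]

theorem part_coeff (l : Fin s → ℕ) (p : MvPolynomial (Fin s) (FF Λ σ)) {m : Fin s →₀ ℕ}
    (hm : m ∈ p.support) : (part l p (wgt l m)).coeff m = p.coeff m := by
  classical
  unfold part
  rw [MvPolynomial.coeff_sum, Finset.sum_eq_single m]
  · rw [MvPolynomial.coeff_monomial, if_pos rfl]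
  · intro m' _ hne
    rw [MvPolynomial.coeff_monomial, if_neg hne]
  · intro h
    exact (h (Finset.mem_filter.2 ⟨hm, rfl⟩)).elim

theorem tau_coeff_ne (h : Bet e β) (l : Fin s → ℕ) (p : MvPolynomial (Fin s) (FF Λ σ))
    {m : Fin s →₀ ℕ} (hm : m ∈ p.support) : (tau e l p).coeff (wgt l m) ≠ 0 := by
  rw [tau_coeff]
  intro h0
  have h1 := h.evg_inj _ h0
  have h2 := part_coeff l p hm
  rw [h1, MvPolynomial.coeff_zero] at h2
  exact MvPolynomial.mem_support_iff.1 hm h2.symm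

theorem tau_ne (h : Bet e β) (l : Fin s → ℕ) {p : MvPolynomial (Fin s) (FF Λ σ)} (hp : p ≠ 0) :
    tau e l p ≠ 0 := by
  obtain ⟨m, hm⟩ := MvPolynomial.ne_zero_iff.1 hp
  intro h0
  have h1 := tau_coeff_ne h l p (MvPolynomial.mem_support_iff.2 hm)
  rw [h0, Polynomial.coeff_zero] at h1
  exact h1 rfl

theorem tau_coeff_zero (e : Fin s → G Λ σ) (l : Fin s → ℕ) (p : MvPolynomial (Fin s) (FF Λ σ))
    (k : ℕ) (hk : ∀ m ∈ p.support, wgt l m ≠ k) : (tau e l p).coeff k = 0 := by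
  rw [tau_coeff]
  unfold part
  rw [Finset.filter_false_of_mem hk, Finset.sum_empty, map_zero]

/-- the coefficients -/
noncomputable def kap (K : Type) [Field K] [NumberField K] (Λ : ℕ → Type) [∀ t, Field (Λ t)]
    [∀ t, NumberField (Λ t)] [Bdd Λ] (σ : Sc) [∀ t, Algebra K (Λ t)] (s : ℕ) :
    K →+* MvPolynomial (Fin s) (FF Λ σ) :=
  MvPolynomial.C.comp (algebraMap K (FF Λ σ))

theorem evg_kap (e' : Fin s → G Λ σ) : (evg e').comp (kap K Λ σ s) = algebraMap K (G Λ σ) := by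
  refine RingHom.ext fun z => ?_
  show evg e' (MvPolynomial.C (algebraMap K (FF Λ σ) z)) = _
  rw [evg_C]
  rfl

theorem tau_kap (l : Fin s → ℕ) :
    (tau e l).comp (kap K Λ σ s) = algebraMap K (Polynomial (G Λ σ)) := by
  refine RingHom.ext fun z => ?_
  show (Th l (MvPolynomial.C (algebraMap K (FF Λ σ) z))).map (evg e) = _
  rw [Th_C, Polynomial.map_C, evg_C]
  rfl

theorem aeval_tau (l : Fin s → ℕ) (φ : Fin (n + 1) → MvPolynomial (Fin s) (FF Λ σ))
    (g : MvPolynomial (Fin (n + 1)) K) :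
    (MvPolynomial.aeval (fun i => tau e l (φ i)) g : Polynomial (G Λ σ)) =
      tau e l (g.eval₂ (kap K Λ σ s) φ) := by
  rw [MvPolynomial.hom_eval₂, tau_kap]
  rfl

theorem aeval_root (l : Fin s → ℕ) (p : MvPolynomial (Fin s) (FF Λ σ))
    (t : AlgebraicClosure (G Λ σ)) : Polynomial.aeval t (tau e l p) =
      (Th l p).eval₂ ((algebraMap (G Λ σ) (AlgebraicClosure (G Λ σ))).comp (evg e)) t := by
  show Polynomial.aeval t ((Th l p).map (evg e)) = _
  rw [Polynomial.aeval_def, Polynomial.eval₂_map]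

/-- weights -/
theorem exists_wgt (h : Bet e β) (v0 : Fin s → ℤ) (hv0 : 0 < ∑ i, (v0 i : ℝ) * β i)
    (P : Finset ((Fin s →₀ ℕ) × (Fin s →₀ ℕ)))
    (hP : ∀ p ∈ P, ∑ i, (zz p.1 i : ℝ) * β i ≤ ∑ i, (zz p.2 i : ℝ) * β i) :
    ∃ l : Fin s → ℕ, 0 < ∑ i, v0 i * (l i : ℤ) ∧ ∀ p ∈ P, wgt l p.1 ≤ wgt l p.2 := by
  classical
  let nn : Option P → Fin s → ℤ := fun o => match o with
    | none => v0
    | some p => fun i => zz p.1.2 i - zz p.1.1 i
  obtain ⟨l, hl⟩ := exists_weights β h.pos nn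
  refine ⟨l, hl none hv0, fun p hp => ?_⟩
  have hw : ∀ m : Fin s →₀ ℕ, ((wgt l m : ℕ) : ℤ) = ∑ i, zz m i * (l i : ℤ) := by
    intro m
    unfold wgt zz
    push_cast
    rfl
  have h4 : ∑ i, ((zz p.2 i - zz p.1 i : ℤ) : ℝ) * β i =
      ∑ i, (zz p.2 i : ℝ) * β i - ∑ i, (zz p.1 i : ℝ) * β i := by
    rw [← Finset.sum_sub_distrib]
    refine Finset.sum_congr rfl fun i _ => ?_
    push_cast
    ring
  rcases (hP p hp).lt_or_eq with h3 | h3
  · have h5 := hl (some ⟨p, hp⟩) (by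
      show 0 < ∑ i, ((zz p.2 i - zz p.1 i : ℤ) : ℝ) * β i
      rw [h4]
      linarith)
    have h6 : ∑ i, nn (some ⟨p, hp⟩) i * (l i : ℤ) = (wgt l p.2 : ℤ) - wgt l p.1 := by
      rw [hw, hw, ← Finset.sum_sub_distrib]
      refine Finset.sum_congr rfl fun i _ => ?_
      show (zz p.2 i - zz p.1 i) * (l i : ℤ) = _
      ring
    rw [h6] at h5
    omega
  · have h5 : p.1 = p.2 := by
      apply zz_inj
      have h6 := h.inj (fun i => zz p.2 i - zz p.1 i) (by rw [h4]; linarith)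
      funext i
      have h7 := congrFun h6 i
      have h8 : zz p.2 i - zz p.1 i = 0 := h7
      linarith
    rw [h5]

/-- **The width of forms.** -/
theorem width {E : Type} [Field E] [Algebra K E] (h : Bet e β) {p : ℕ}
    (hdim : Algebra.trdeg K E = p) {y : Fin (n + 1) → E} (hy : y ≠ 0) (hgen : coords K y = ⊤)
    (F : Fin w → MvPolynomial (Fin (n + 1)) K) (d : Fin w → ℕ) (hF : ∀ j, (F j).IsHomogeneous (d j))
    {N : ℕ} (hN : 0 < N) (kk : ℕ) {u g0 : ℕ} (ω : Fin u → (Fin p → Derivation K E E) → E)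
    (hω : ∀ i, LogSecT K E p N kk (NoCentre F d y) y (ω i))
    (Gf : Fin u → MvPolynomial (Fin (n + 1)) K) (hG : ∀ i, (Gf i).IsHomogeneous g0)
    (hrat : ∀ i j D, MvPolynomial.aeval y (Gf i) * ω j D = MvPolynomial.aeval y (Gf j) * ω i D)
    (hne : ∃ i D, ω i D ≠ 0) (hGne : ∃ i, MvPolynomial.aeval y (Gf i) ≠ 0)
    (φ : Fin (n + 1) → MvPolynomial (Fin s) (FF Λ σ))
    (hrel : ∀ g : MvPolynomial (Fin (n + 1)) K, (∃ d, g.IsHomogeneous d) →
      (MvPolynomial.aeval y g = 0 ↔ g.eval₂ (kap K Λ σ s) φ = 0))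
    (hF0 : ∃ j, (F j).eval₂ (kap K Λ σ s) φ ≠ 0)
    (q : MvPolynomial (Fin s) (FF Λ σ)) (hq : q ≠ 0) (yj : Fin w → MvPolynomial (Fin s) (FF Λ σ))
    (hfq : ∀ j, (F j).eval₂ (kap K Λ σ s) φ = q * yj j)
    (hyc : ∀ p, (∀ j, p ∣ yj j) → ∃ m c, p = MvPolynomial.monomial m c)
    (c : MvPolynomial (Fin s) (FF Λ σ)) (hc : c ≠ 0)
    (rj : Fin u → MvPolynomial (Fin s) (FF Λ σ))
    (hgr : ∀ j, (Gf j).eval₂ (kap K Λ σ s) φ = c * rj j)
    (hrc : ∀ p, (∀ j, p ∣ rj j) → ∃ m c, p = MvPolynomial.monomial m c)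
    (i j : Fin u) (a1 a0 b1 b0 m1 m0 : Fin s →₀ ℕ) (ha1 : a1 ∈ (rj i).support)
    (ha0 : a0 ∈ (rj j).support)
    (hmax : ∀ b ∈ q.support, ∑ i, (zz b i : ℝ) * β i ≤ ∑ i, (zz b1 i : ℝ) * β i)
    (hmin : ∀ b ∈ q.support, ∑ i, (zz b0 i : ℝ) * β i ≤ ∑ i, (zz b i : ℝ) * β i)
    (hφmax : ∀ i', ∀ b ∈ (φ i').support, ∑ i, (zz b i : ℝ) * β i ≤ ∑ i, (zz m1 i : ℝ) * β i)
    (hφmin : ∀ i', ∀ b ∈ (φ i').support, ∑ i, (zz m0 i : ℝ) * β i ≤ ∑ i, (zz b i : ℝ) * β i) :
    ∑ i, (zz a1 i : ℝ) * β i + N * ∑ i, (zz b0 i : ℝ) * β i + kk * ∑ i, (zz m0 i : ℝ) * β i ≤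
      ∑ i, (zz a0 i : ℝ) * β i + N * ∑ i, (zz b1 i : ℝ) * β i +
        kk * ∑ i, (zz m1 i : ℝ) * β i := by
  classical
  by_contra hcon
  push Not at hcon
  let Sφ : Finset (Fin s →₀ ℕ) := Finset.univ.biUnion fun i => (φ i).support
  let PP : Finset ((Fin s →₀ ℕ) × (Fin s →₀ ℕ)) := (q.support.image fun b => (b, b1)) ∪
    (q.support.image fun b => (b0, b)) ∪ (Sφ.image fun m => (m, m1)) ∪ (Sφ.image fun m => (m0, m))
  have hSφ : ∀ m ∈ Sφ, ∃ i, m ∈ (φ i).support := by
    intro m hm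
    obtain ⟨i, -, hi⟩ := Finset.mem_biUnion.1 hm
    exact ⟨i, hi⟩
  obtain ⟨l, hl0, hl⟩ := exists_wgt h
    (fun i => (zz a1 i + N * zz b0 i + kk * zz m0 i) - (zz a0 i + N * zz b1 i + kk * zz m1 i)) (by
      have h3 : ∑ i, (((zz a1 i + N * zz b0 i + kk * zz m0 i) -
          (zz a0 i + N * zz b1 i + kk * zz m1 i) : ℤ) : ℝ) * β i =
          (∑ i, (zz a1 i : ℝ) * β i + N * ∑ i, (zz b0 i : ℝ) * β i +
            kk * ∑ i, (zz m0 i : ℝ) * β i) -
          (∑ i, (zz a0 i : ℝ) * β i + N * ∑ i, (zz b1 i : ℝ) * β i +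
            kk * ∑ i, (zz m1 i : ℝ) * β i) := by
        simp only [Finset.mul_sum]
        rw [← Finset.sum_add_distrib, ← Finset.sum_add_distrib, ← Finset.sum_add_distrib,
          ← Finset.sum_add_distrib, ← Finset.sum_sub_distrib]
        refine Finset.sum_congr rfl fun i _ => ?_
        push_cast
        ring
      rw [h3]
      linarith) PP (by
      intro p hp
      simp only [PP, Finset.mem_union, Finset.mem_image] at hp
      rcases hp with ((⟨b, hb, rfl⟩ | ⟨b, hb, rfl⟩) | ⟨b, hb, rfl⟩) | ⟨b, hb, rfl⟩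
      · exact hmax b hb
      · exact hmin b hb
      · obtain ⟨i, hi⟩ := hSφ b hb
        exact hφmax i b hi
      · obtain ⟨i, hi⟩ := hSφ b hb
        exact hφmin i b hi)
  have hw : ∀ m : Fin s →₀ ℕ, ((wgt l m : ℕ) : ℤ) = ∑ i, zz m i * (l i : ℤ) := by
    intro m
    unfold wgt zz
    push_cast
    rfl
  have h1 : (wgt l a0 : ℤ) + N * wgt l b1 + kk * wgt l m1 <
      wgt l a1 + N * wgt l b0 + kk * wgt l m0 := by
    have h3 : ∑ i, ((zz a1 i + N * zz b0 i + kk * zz m0 i) -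
        (zz a0 i + N * zz b1 i + kk * zz m1 i)) * (l i : ℤ) =
        (wgt l a1 + N * wgt l b0 + kk * wgt l m0 : ℤ) -
        (wgt l a0 + N * wgt l b1 + kk * wgt l m1) := by
      rw [hw, hw, hw, hw, hw, hw]
      simp only [Finset.mul_sum]
      rw [← Finset.sum_add_distrib, ← Finset.sum_add_distrib, ← Finset.sum_add_distrib,
        ← Finset.sum_add_distrib, ← Finset.sum_sub_distrib]
      refine Finset.sum_congr rfl fun i _ => ?_
      ring
    rw [h3] at hl0
    linarith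
  have h2 : ∀ b ∈ q.support, wgt l b ≤ wgt l b1 := fun b hb => hl (b, b1) (by
    simp only [PP, Finset.mem_union, Finset.mem_image]
    exact Or.inl (Or.inl (Or.inl ⟨b, hb, rfl⟩)))
  have h3 : ∀ b ∈ q.support, wgt l b0 ≤ wgt l b := fun b hb => hl (b0, b) (by
    simp only [PP, Finset.mem_union, Finset.mem_image]
    exact Or.inl (Or.inl (Or.inr ⟨b, hb, rfl⟩)))
  have h2' : ∀ i, ∀ m ∈ (φ i).support, wgt l m ≤ wgt l m1 := fun i m hm => hl (m, m1) (by
    simp only [PP, Finset.mem_union, Finset.mem_image]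
    exact Or.inl (Or.inr ⟨m, Finset.mem_biUnion.2 ⟨i, Finset.mem_univ _, hm⟩, rfl⟩))
  have h3' : ∀ i, ∀ m ∈ (φ i).support, wgt l m0 ≤ wgt l m := fun i m hm => hl (m0, m) (by
    simp only [PP, Finset.mem_union, Finset.mem_image]
    exact Or.inr ⟨m, Finset.mem_biUnion.2 ⟨i, Finset.mem_univ _, hm⟩, rfl⟩)
  -- the curve
  let B := AlgebraicClosure (G Λ σ)
  let ρ : MvPolynomial (Fin s) (FF Λ σ) →+* B := (algebraMap (G Λ σ) B).comp (evg e)
  have hρ : Function.Injective ρ := (algebraMap (G Λ σ) B).injective.comp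
    ((injective_iff_map_eq_zero _).2 fun p hp => h.evg_inj p hp)
  have hrel' : ∀ g : MvPolynomial (Fin (n + 1)) K, IsForm g →
      (Pool.Agent.W602.GT.val y g = 0 ↔
        (MvPolynomial.aeval (fun i => tau e l (φ i)) g : Polynomial (G Λ σ)) = 0) := by
    intro g hg
    rw [aeval_tau]
    constructor
    · intro h0
      rw [(hrel g hg).1 h0, map_zero]
    · intro h0
      refine (hrel g hg).2 ?_
      by_contra h5
      exact tau_ne h l h5 h0
  obtain ⟨jf, hjf⟩ := hF0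
  have hrj : ∃ j, rj j ≠ 0 := ⟨i, fun h0 => by
    rw [h0, MvPolynomial.support_zero] at ha1
    exact absurd ha1 (Finset.notMem_empty _)⟩
  obtain ⟨jr, hjr⟩ := hrj
  have hyj : yj jf ≠ 0 := by
    intro h0
    apply hjf
    rw [hfq, h0, mul_zero]
  have hmain := geo_deg (M := G Λ σ) hdim hy hgen F d hF (fun i => tau e l (φ i)) hrel'
    (wgt l m0) (fun i => by
      rw [Polynomial.X_pow_dvd_iff]
      intro k hk
      refine tau_coeff_zero e l (φ i) k fun m hm => ?_
      have := h3' i m hm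
      omega)
    ⟨jf, by
      rw [aeval_tau]
      exact tau_ne h l hjf⟩ (tau e l q) (tau_ne h l hq) (by
      intro t ht hall
      by_contra hno
      have hroot : ∀ j, (Th l (yj j)).eval₂ ρ t = 0 := by
        intro j
        have h5 := hall j
        rw [aeval_tau, hfq, map_mul, map_mul] at h5
        have h6 := (mul_eq_zero.1 h5).resolve_left hno
        rw [aeval_root] at h6
        exact h6
      obtain ⟨r, hr1, hr2⟩ := exists_factor l ρ hρ t ht yj jf hyj hroot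
      obtain ⟨m, c, hm⟩ := hyc r hr1
      exact hr2 m c hm) hN kk (wgt l m1) (fun i => by
      rw [Polynomial.natDegree_le_iff_coeff_eq_zero]
      intro k hk
      refine tau_coeff_zero e l (φ i) k fun m hm => ?_
      have := h2' i m hm
      omega) ω hω Gf hG hrat hne hGne (tau e l c) (tau_ne h l hc)
    (fun j => tau e l (rj j)) (fun j => by rw [aeval_tau, hgr, map_mul]) (by
      intro t ht
      by_contra hno
      push Not at hno
      have hroot : ∀ j, (Th l (rj j)).eval₂ ρ t = 0 := by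
        intro j
        have h6 := hno j
        rw [aeval_root] at h6
        exact h6
      obtain ⟨r, hr1, hr2⟩ := exists_factor l ρ hρ t ht rj jr hjr hroot
      obtain ⟨m, c, hm⟩ := hrc r hr1
      exact hr2 m c hm) i j (by
      intro h0
      have h5 := tau_coeff_ne h l (rj j) ha0
      have h6 : tau e l (rj j) = 0 := h0
      rw [h6, Polynomial.coeff_zero] at h5
      exact h5 rfl)
  have h4 : wgt l a1 ≤ (tau e l (rj i)).natDegree :=
    Polynomial.le_natDegree_of_ne_zero (tau_coeff_ne h l _ ha1)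
  have h5 : (tau e l (rj j)).natTrailingDegree ≤ wgt l a0 :=
    Polynomial.natTrailingDegree_le_of_ne_zero (tau_coeff_ne h l _ ha0)
  have h6 : (tau e l q).natDegree ≤ wgt l b1 := by
    rw [Polynomial.natDegree_le_iff_coeff_eq_zero]
    intro k hk
    refine tau_coeff_zero e l q k fun m hm => ?_
    have := h2 m hm
    omega
  have h7 : wgt l b0 ≤ (tau e l q).natTrailingDegree := by
    refine Polynomial.le_natTrailingDegree (tau_ne h l hq) fun k hk => ?_
    refine tau_coeff_zero e l q k fun m hm => ?_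
    have := h3 m hm
    omega
  have h8 : N * wgt l b0 ≤ N * (tau e l q).natTrailingDegree := Nat.mul_le_mul_left _ h7
  have h9 : N * (tau e l q).natDegree ≤ N * wgt l b1 := Nat.mul_le_mul_left _ h6
  have h10 : wgt l a1 + N * wgt l b0 + kk * wgt l m0 ≤
      wgt l a0 + N * wgt l b1 + kk * wgt l m1 := by
    have hm : (tau e l (rj i)).natDegree + N * (tau e l q).natTrailingDegree + kk * wgt l m0 ≤
      (tau e l (rj j)).natTrailingDegree + N * (tau e l q).natDegree + kk * wgt l m1 := hmain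
    omega
  have h11 : ((wgt l a1 : ℤ) + N * wgt l b0 + kk * wgt l m0) ≤
      wgt l a0 + N * wgt l b1 + kk * wgt l m1 := by exact_mod_cast h10
  linarith

end Pool.Agent.D0H97.VV
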