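import Pool.Agent.D0H97.FT.Coh

/-!
The products of the first terms of arithmetic progressions.
-/

set_option autoImplicit false

namespace Pool.Agent.D0H97.VV

open Pool.Agent.D0H97.FT (Coherent log_fact_le le_log_fact fact_pow_dvd)

/-- the product of the first `m` terms of the progression `b, a + b, 2 a + b, …` -/
def ap (a b m : ℕ) : ℕ := ∏ k ∈ Finset.range m, (a * k + b)

theorem ap_pos (a b m : ℕ) (hb : 1 ≤ b) : 0 < ap a b m :=
  Finset.prod_pos fun k _ => by omega

theorem fact_le_ap (a b m : ℕ) (ha : 1 ≤ a) (hb : 1 ≤ b) : m.factorial ≤ ap a b m := by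
  rw [← Finset.prod_range_add_one_eq_factorial]
  refine Finset.prod_le_prod' fun k _ => ?_
  nlinarith

theorem log_ap_le (a b m B : ℕ) (hb : 1 ≤ b) (haB : a ≤ B) (hbB : b ≤ B) :
    Real.log (ap a b m) ≤ m * Real.log m + Real.log B * m := by
  rcases Nat.eq_zero_or_pos m with rfl | hm
  · simp [ap]
  have hB : 1 ≤ B := hb.trans hbB
  have h1 : ap a b m ≤ (B * m) ^ m := by
    unfold ap
    calc ∏ k ∈ Finset.range m, (a * k + b) ≤ ∏ _k ∈ Finset.range m, B * m := by
          refine Finset.prod_le_prod' fun k hk => ?_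
          have hk' : k + 1 ≤ m := Finset.mem_range.1 hk
          calc a * k + b ≤ B * k + B := by
                exact Nat.add_le_add (Nat.mul_le_mul_right _ haB) hbB
            _ = B * (k + 1) := by ring
            _ ≤ B * m := Nat.mul_le_mul_left _ hk'
      _ = (B * m) ^ m := by rw [Finset.prod_const, Finset.card_range]
  have h2 : (0 : ℝ) < ap a b m := by exact_mod_cast ap_pos a b m hb
  have h3 : Real.log (ap a b m) ≤ Real.log (((B : ℝ) * m) ^ m) :=
    Real.log_le_log h2 (by exact_mod_cast h1)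
  have hB0 : (B : ℝ) ≠ 0 := by
    have : (1 : ℝ) ≤ B := by exact_mod_cast hB
    linarith
  have hm0 : (m : ℝ) ≠ 0 := by
    have : (1 : ℝ) ≤ m := by exact_mod_cast hm
    linarith
  rw [Real.log_pow, Real.log_mul hB0 hm0] at h3
  linarith

/-- primes which do not divide the difference -/
theorem fact_ap (a b m p : ℕ) (hp : p.Prime) (hpa : ¬ p ∣ a) (hb : 1 ≤ b) :
    m.factorial.factorization p ≤ (ap a b m).factorization p := by
  set v := m.factorial.factorization p with hv
  rcases Nat.eq_zero_or_pos v with h0 | h0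
  · rw [h0]
    exact Nat.zero_le _
  have hcop : Nat.Coprime a (p ^ v) := by
    refine Nat.Coprime.pow_right _ ?_
    exact ((Nat.Prime.coprime_iff_not_dvd hp).2 hpa).symm
  obtain ⟨u, hu⟩ := Nat.exists_mul_mod_eq_one_of_coprime hcop
    (Nat.one_lt_pow h0.ne' hp.one_lt)
  have hu' : a * u ≡ 1 [MOD p ^ v] := by
    unfold Nat.ModEq
    rw [hu.2]
    exact (Nat.mod_eq_of_lt (Nat.one_lt_pow h0.ne' hp.one_lt)).symm
  have h1 : u ^ m * ap a b m ≡ (u * b).ascFactorial m [MOD p ^ v] := by
    rw [Nat.ascFactorial_eq_prod_range]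
    unfold ap
    rw [← Finset.card_range m, ← Finset.prod_const, Finset.card_range, ← Finset.prod_mul_distrib]
    have h2 : ∀ A : Finset ℕ, ∏ k ∈ A, u * (a * k + b) ≡ ∏ k ∈ A, (u * b + k) [MOD p ^ v] := by
      intro A
      induction A using Finset.induction_on with
      | empty => exact Nat.ModEq.refl _
      | insert k A hk ih =>
        rw [Finset.prod_insert hk, Finset.prod_insert hk]
        refine Nat.ModEq.mul ?_ ih
        have h3 : u * (a * k + b) = (a * u) * k + u * b := by ring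
        rw [h3, add_comm (u * b)]
        refine Nat.ModEq.add_right _ ?_
        have h4 := hu'.mul_right k
        rwa [one_mul] at h4
    exact h2 _
  have h2 : p ^ v ∣ (u * b).ascFactorial m :=
    (Nat.ordProj_dvd _ _).trans (Nat.factorial_dvd_ascFactorial _ _)
  have h3 : p ^ v ∣ u ^ m * ap a b m := (h1.dvd_iff dvd_rfl).2 h2
  have hcu : Nat.Coprime (p ^ v) (u ^ m) := by
    refine Nat.Coprime.pow_left _ (Nat.Coprime.pow_right _ ?_)
    rw [Nat.Prime.coprime_iff_not_dvd hp]
    rintro hpu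
    have h4 : p ∣ p ^ v := dvd_pow_self _ h0.ne'
    have h5 : a * u ≡ 1 [MOD p] := hu'.of_dvd h4
    have h6 : p ∣ 1 := (h5.dvd_iff dvd_rfl).1 (hpu.mul_left a)
    exact hp.one_lt.ne' (Nat.dvd_one.1 h6)
  have h4 : p ^ v ∣ ap a b m := hcu.dvd_of_dvd_mul_left h3
  exact (hp.pow_dvd_iff_le_factorization (ap_pos a b m hb).ne').1 h4

/-- removing small primes -/
theorem rough (P : Finset ℕ) (hP : ∀ p ∈ P, p.Prime) (n : ℕ) (hn : n ≠ 0) :
    ∃ F : ℕ, F ∣ n ∧ (∀ p ∈ P, ¬ p ∣ F) ∧
      Real.log n ≤ Real.log F + ∑ p ∈ P, (n.factorization p : ℝ) * Real.log p := by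
  classical
  induction P using Finset.induction_on with
  | empty => exact ⟨n, dvd_rfl, by simp, by simp⟩
  | insert q P hq ih =>
    obtain ⟨F, h1, h2, h3⟩ := ih fun p hp => hP p (Finset.mem_insert_of_mem hp)
    have hqp : q.Prime := hP q (Finset.mem_insert_self _ _)
    have hF0 : F ≠ 0 := by
      rintro rfl
      exact hn (zero_dvd_iff.1 h1)
    refine ⟨F / q ^ F.factorization q, (Nat.ordCompl_dvd F q).trans h1, ?_, ?_⟩
    · intro p hp hdvd
      rcases Finset.mem_insert.1 hp with rfl | hp'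
      · exact Nat.not_dvd_ordCompl hqp hF0 hdvd
      · exact h2 p hp' (hdvd.trans (Nat.ordCompl_dvd F q))
    · rw [Finset.sum_insert hq]
      have h4 : q ^ F.factorization q * (F / q ^ F.factorization q) = F :=
        Nat.ordProj_mul_ordCompl_eq_self F q
      have h5 : (F / q ^ F.factorization q) ≠ 0 := (Nat.ordCompl_pos q hF0).ne'
      have h6 : Real.log F = F.factorization q * Real.log q +
          Real.log ((F / q ^ F.factorization q : ℕ) : ℝ) := by
        conv_lhs => rw [← h4]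
        push_cast
        rw [Real.log_mul (pow_ne_zero _ (by exact_mod_cast hqp.ne_zero)) (by exact_mod_cast h5),
          Real.log_pow]
      have h7 : (F.factorization q : ℝ) ≤ n.factorization q := by
        exact_mod_cast (Nat.factorization_le_iff_dvd hF0 hn).2 h1 q
      have h8 : (F.factorization q : ℝ) * Real.log q ≤ n.factorization q * Real.log q :=
        mul_le_mul_of_nonneg_right h7 (Real.log_natCast_nonneg _)
      linarith

theorem fact_val_le (k p : ℕ) (hp : p.Prime) : k.factorial.factorization p ≤ k := by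
  have h1 : p ^ k.factorial.factorization p ∣ k.factorial := Nat.ordProj_dvd _ _
  rcases Nat.eq_zero_or_pos k with rfl | hk
  · simp
  exact (Nat.factorization_factorial_le_div_pred hp k).trans (Nat.div_le_self _ _)

/-- the powers of a factorial in the factorials -/
theorem fact_est (ε κ : ℝ) (hε : 0 < ε) (hκ : 0 ≤ κ) : ∃ ℓ₀ : ℝ, ∀ ℓ : ℝ, ℓ₀ ≤ ℓ → ∃ k : ℕ,
    k ≠ 0 ∧ ∀ m : ℕ, Real.log (m.factorial : ℝ) ≤ ℓ →
      (m : ℝ) * Real.log m + κ * m - ((m / k : ℕ) : ℝ) * Real.log (k.factorial : ℝ) ≤ ε * ℓ := by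
  classical
  obtain ⟨c, hc⟩ := exists_nat_ge (2 / ε)
  set c' : ℕ := c + 1 with hc'
  have hc'0 : (0 : ℝ) < c' := by positivity
  have hcε : 1 / (c' : ℝ) ≤ ε / 2 := by
    rw [div_le_iff₀ hc'0]
    have h1 : 2 / ε ≤ c' := by
      rw [hc']
      push_cast
      linarith
    rw [div_le_iff₀ hε] at h1
    linarith
  -- the bound for `M`
  set Λ : ℝ := 2 / ε * (Real.log (2 * c') + 1 + ε + κ) with hΛ
  obtain ⟨M0, hM0⟩ := exists_nat_ge (Real.exp Λ + 2 * c' * (Real.exp 1 + 1) + 1)
  refine ⟨Real.log (M0.factorial : ℝ), fun ℓ hℓ => ?_⟩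
  set M : ℕ := Nat.findGreatest (fun n => Real.log (n.factorial : ℝ) ≤ ℓ) (max M0 ⌈Real.exp ℓ⌉₊)
    with hM
  have hML : Real.log (M.factorial : ℝ) ≤ ℓ :=
    Nat.findGreatest_spec (P := fun n => Real.log (n.factorial : ℝ) ≤ ℓ)
      (le_max_left M0 ⌈Real.exp ℓ⌉₊) hℓ
  have hM0M : M0 ≤ M := Nat.le_findGreatest (le_max_left _ _) hℓ
  have hmax : ∀ m : ℕ, Real.log (m.factorial : ℝ) ≤ ℓ → m ≤ M := by
    intro m hm
    refine Nat.le_findGreatest (le_trans ?_ (le_max_right _ _)) hm
    have h1 : (m : ℝ) ≤ m.factorial := by exact_mod_cast Nat.self_le_factorial m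
    have h2 : (0 : ℝ) < m.factorial := by exact_mod_cast m.factorial_pos
    rw [Real.log_le_iff_le_exp h2] at hm
    exact_mod_cast (h1.trans hm).trans (Nat.le_ceil _)
  have hMr : Real.exp Λ + 2 * c' * (Real.exp 1 + 1) + 1 ≤ (M : ℝ) :=
    hM0.trans (by exact_mod_cast hM0M)
  have he1 := Real.exp_pos 1
  have heΛ := Real.exp_pos Λ
  have hMpos : (0 : ℝ) < M := by
    have : 0 ≤ 2 * (c' : ℝ) * (Real.exp 1 + 1) := by positivity
    linarith
  have hM1 : M ≠ 0 := by
    intro h
    rw [h, Nat.cast_zero] at hMpos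
    exact lt_irrefl _ hMpos
  set k : ℕ := M / c' with hk
  -- the size of `k`
  have hk1 : (M : ℝ) / (2 * c') ≤ k := by
    have h1 : M < (M / c' + 1) * c' := by
      have := Nat.lt_div_mul_add (a := M) (b := c') (Nat.succ_pos c)
      rw [add_mul, one_mul]
      exact this
    have h2 : (M : ℝ) < (k + 1) * c' := by exact_mod_cast h1
    have h3 : 2 * (c' : ℝ) ≤ M := by
      have : 2 * (c' : ℝ) * 1 ≤ 2 * c' * (Real.exp 1 + 1) := by
        refine mul_le_mul_of_nonneg_left ?_ (by positivity)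
        linarith
      linarith
    rw [div_le_iff₀ (by positivity)]
    nlinarith
  have hk2 : (k : ℝ) ≤ M / c' := Nat.cast_div_le
  have hkE : Real.exp 1 ≤ k := by
    refine le_trans ?_ hk1
    rw [le_div_iff₀ (by positivity)]
    have : (0 : ℝ) < 2 * c' := by positivity
    nlinarith
  have hkpos : (0 : ℝ) < k := he1.trans_le hkE
  have hk0 : k ≠ 0 := by
    intro h
    rw [h, Nat.cast_zero] at hkpos
    exact lt_irrefl _ hkpos
  have hlogk : 1 ≤ Real.log k := by
    rw [Real.le_log_iff_exp_le hkpos]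
    exact hkE
  have hlogMk : Real.log M - Real.log k ≤ Real.log (2 * c') := by
    have h1 : Real.log ((M : ℝ) / (2 * c')) ≤ Real.log k := Real.log_le_log (by positivity) hk1
    rw [Real.log_div hMpos.ne' (by positivity)] at h1
    linarith
  have hlogM : Λ ≤ Real.log M := by
    rw [Real.le_log_iff_exp_le hMpos]
    have : 0 ≤ 2 * (c' : ℝ) * (Real.exp 1 + 1) := by positivity
    linarith
  have hkM : (k : ℝ) ≤ M := by exact_mod_cast Nat.div_le_self M c'
  refine ⟨k, hk0, ?_⟩
  intro m hm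
  have hmM : m ≤ M := hmax m hm
  have hmMr : (m : ℝ) ≤ M := by exact_mod_cast hmM
  -- upper bound
  have h1 : (m : ℝ) * Real.log m ≤ m * Real.log M := by
    rcases Nat.eq_zero_or_pos m with h0 | h0
    · rw [h0]
      simp
    · refine mul_le_mul_of_nonneg_left ?_ (Nat.cast_nonneg _)
      exact Real.log_le_log (by exact_mod_cast h0) hmMr
  -- lower bound for the power
  have h2 : ((m : ℝ) - k) * (Real.log k - 1) ≤
      ((m / k : ℕ) : ℝ) * Real.log (k.factorial : ℝ) := by
    have h3 := le_log_fact k hk0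
    have h4 : (m : ℝ) < (((m / k : ℕ) : ℝ) + 1) * k := by
      have := Nat.lt_div_mul_add (a := m) (b := k) (Nat.pos_of_ne_zero hk0)
      have h5 : m < (m / k + 1) * k := by
        rw [add_mul, one_mul]
        exact this
      exact_mod_cast h5
    have h6 : (m : ℝ) - k ≤ ((m / k : ℕ) : ℝ) * k := by linarith
    have h7 : 0 ≤ ((m / k : ℕ) : ℝ) := Nat.cast_nonneg _
    calc ((m : ℝ) - k) * (Real.log k - 1) ≤ ((m / k : ℕ) : ℝ) * k * (Real.log k - 1) :=
          mul_le_mul_of_nonneg_right h6 (by linarith)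
      _ = ((m / k : ℕ) : ℝ) * (k * Real.log k - k) := by ring
      _ ≤ _ := mul_le_mul_of_nonneg_left h3 h7
  have h8 := le_log_fact M hM1
  have hm0 : (0 : ℝ) ≤ m := Nat.cast_nonneg _
  have hlc : 0 ≤ Real.log (2 * c') := by
    refine Real.log_nonneg ?_
    have : (1 : ℝ) ≤ c' := by
      rw [hc']
      push_cast
      linarith [Nat.cast_nonneg (α := ℝ) c]
    linarith
  have hlogM0 : 0 ≤ Real.log M := by linarith [Real.log_le_log hkpos hkM]
  -- the estimate
  have h9 : (m : ℝ) * Real.log m + κ * m - ((m / k : ℕ) : ℝ) * Real.log (k.factorial : ℝ) ≤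
      M * (Real.log (2 * c') + 1) + κ * M + M / c' * Real.log M := by
    have e1 : (m : ℝ) * Real.log M - ((m : ℝ) - k) * (Real.log k - 1) =
        m * (Real.log M - Real.log k) + m + k * (Real.log k - 1) := by ring
    have e2 : (m : ℝ) * (Real.log M - Real.log k) ≤ M * Real.log (2 * c') := by
      calc (m : ℝ) * (Real.log M - Real.log k) ≤ m * Real.log (2 * c') :=
            mul_le_mul_of_nonneg_left hlogMk hm0
        _ ≤ _ := mul_le_mul_of_nonneg_right hmMr hlc
    have e3 : (k : ℝ) * (Real.log k - 1) ≤ M / c' * Real.log M := by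
      refine mul_le_mul hk2 ?_ (by linarith) (by positivity)
      have := Real.log_le_log hkpos hkM
      linarith
    have e4 : κ * m ≤ κ * M := mul_le_mul_of_nonneg_left hmMr hκ
    linarith
  refine h9.trans ?_
  have h10 : ε * ((M : ℝ) * Real.log M - M) ≤ ε * ℓ :=
    mul_le_mul_of_nonneg_left (h8.trans hML) hε.le
  refine le_trans ?_ h10
  have h11 : (M : ℝ) / c' * Real.log M ≤ M * (ε / 2 * Real.log M) := by
    have : (M : ℝ) / c' * Real.log M = M * (1 / c' * Real.log M) := by ring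
    rw [this]
    exact mul_le_mul_of_nonneg_left (mul_le_mul_of_nonneg_right hcε hlogM0) hMpos.le
  have h12 : Real.log (2 * c') + 1 + ε + κ ≤ ε / 2 * Real.log M := by
    have h13 : ε / 2 * Λ = Real.log (2 * c') + 1 + ε + κ := by
      rw [hΛ]
      field_simp
    rw [← h13]
    exact mul_le_mul_of_nonneg_left hlogM (by positivity)
  have h14 := mul_le_mul_of_nonneg_left h12 hMpos.le
  calc (M : ℝ) * (Real.log (2 * c') + 1) + κ * M + M / c' * Real.log M
      ≤ M * (Real.log (2 * c') + 1) + κ * M + M * (ε / 2 * Real.log M) := by linarith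
    _ = M * (Real.log (2 * c') + 1 + ε + κ) - ε * M + M * (ε / 2 * Real.log M) := by ring
    _ ≤ M * (ε / 2 * Real.log M) - ε * M + M * (ε / 2 * Real.log M) := by linarith
    _ = ε * ((M : ℝ) * Real.log M - M) := by ring

/-- **The products of the first terms of all arithmetic progressions with bounded first term and
difference.** -/
theorem coherent_ap (B : ℕ) : Coherent {x | ∃ a b m : ℕ, 1 ≤ a ∧ a ≤ B ∧ 1 ≤ b ∧ b ≤ B ∧
    x = ap a b m} := by
  classical
  intro ε hε
  set P : Finset ℕ := (Finset.range (B + 1)).filter Nat.Prime with hPdef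
  have hP : ∀ p ∈ P, p.Prime := fun p hp => (Finset.mem_filter.1 hp).2
  set CB : ℝ := ∑ p ∈ P, Real.log p with hCB
  have hCB0 : 0 ≤ CB := Finset.sum_nonneg fun p _ => Real.log_natCast_nonneg _
  obtain ⟨ℓ₀, h⟩ := fact_est ε (Real.log B + CB) hε (add_nonneg (Real.log_natCast_nonneg _) hCB0)
  refine ⟨ℓ₀, fun ℓ hℓ => ?_⟩
  obtain ⟨k, hk0, hk⟩ := h ℓ hℓ
  obtain ⟨F, hF1, hF2, hF3⟩ := rough P hP k.factorial k.factorial_ne_zero
  have hF0 : F ≠ 0 := by
    rintro rfl
    exact k.factorial_ne_zero (zero_dvd_iff.1 hF1)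
  refine ⟨F, ?_⟩
  rintro _ ⟨a, b, m, ha, haB, hb, hbB, rfl⟩ hlog
  have hap0 := (ap_pos a b m hb).ne'
  have hdvd : F ^ (m / k) ∣ ap a b m := by
    rw [← Nat.factorization_le_iff_dvd (pow_ne_zero _ hF0) hap0]
    intro p
    rw [Nat.factorization_pow, Finsupp.smul_apply, smul_eq_mul]
    by_cases hp : p.Prime
    swap
    · rw [Nat.factorization_eq_zero_of_not_prime _ hp, mul_zero]
      exact Nat.zero_le _
    by_cases hpB : p ≤ B
    · have h1 : p ∈ P := Finset.mem_filter.2 ⟨Finset.mem_range.2 (by omega), hp⟩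
      rw [Nat.factorization_eq_zero_of_not_dvd (hF2 p h1), mul_zero]
      exact Nat.zero_le _
    · have hpa : ¬ p ∣ a := fun h1 => by
        have := Nat.le_of_dvd (by omega) h1
        omega
      refine le_trans ?_ (fact_ap a b m p hp hpa hb)
      have h1 : F.factorization p ≤ k.factorial.factorization p :=
        (Nat.factorization_le_iff_dvd hF0 k.factorial_ne_zero).2 hF1 p
      have h2 : (k.factorial ^ (m / k)).factorization p ≤ m.factorial.factorization p :=
        (Nat.factorization_le_iff_dvd (pow_ne_zero _ k.factorial_ne_zero)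
          m.factorial_ne_zero).2 (fact_pow_dvd k m) p
      rw [Nat.factorization_pow, Finsupp.smul_apply, smul_eq_mul] at h2
      exact (Nat.mul_le_mul_left _ h1).trans h2
  obtain ⟨r, hr⟩ := hdvd
  refine ⟨m / k, r, hr, ?_⟩
  have hr0 : r ≠ 0 := by
    rintro rfl
    rw [mul_zero] at hr
    exact hap0 hr
  have hlogr : Real.log r = Real.log (ap a b m) - ((m / k : ℕ) : ℝ) * Real.log F := by
    have h1 := congrArg (fun x : ℕ => Real.log (x : ℝ)) hr
    push_cast at h1
    rw [Real.log_mul (pow_ne_zero _ (Nat.cast_ne_zero.2 hF0)) (Nat.cast_ne_zero.2 hr0),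
      Real.log_pow] at h1
    linarith
  rw [hlogr]
  have hm : Real.log (m.factorial : ℝ) ≤ ℓ := by
    refine (Real.log_le_log (by exact_mod_cast m.factorial_pos) ?_).trans hlog
    exact_mod_cast fact_le_ap a b m ha hb
  have h1 := hk m hm
  have h2 := log_ap_le a b m B hb haB hbB
  have h3 : Real.log (k.factorial : ℝ) ≤ Real.log F + CB * k := by
    refine hF3.trans (add_le_add le_rfl ?_)
    rw [hCB, Finset.sum_mul]
    refine Finset.sum_le_sum fun p hp => ?_
    rw [mul_comm]
    refine mul_le_mul_of_nonneg_left ?_ (Real.log_natCast_nonneg _)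
    exact_mod_cast fact_val_le k p (hP p hp)
  have h4 : ((m / k : ℕ) : ℝ) * Real.log (k.factorial : ℝ) ≤
      ((m / k : ℕ) : ℝ) * Real.log F + CB * m := by
    have h5 : ((m / k : ℕ) : ℝ) * k ≤ m := by exact_mod_cast Nat.div_mul_le_self m k
    calc ((m / k : ℕ) : ℝ) * Real.log (k.factorial : ℝ)
        ≤ ((m / k : ℕ) : ℝ) * (Real.log F + CB * k) :=
          mul_le_mul_of_nonneg_left h3 (Nat.cast_nonneg _)
      _ = ((m / k : ℕ) : ℝ) * Real.log F + CB * (((m / k : ℕ) : ℝ) * k) := by ring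
      _ ≤ _ := add_le_add le_rfl (mul_le_mul_of_nonneg_left h5 hCB0)
  linarith

end Pool.Agent.D0H97.VV
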