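import Pool.Agent.D0H97.FX.Cr0

/-!
Heights of near integral points and common divisors.
-/

set_option autoImplicit false
set_option linter.unusedSectionVars false

namespace Pool.Agent.D0H97.VV

open NumberField IsDedekindDomain Height Filter Topology
open Pool.Agent.W180.OP (Pl av wt fv fv_support_finite wt_nonneg)
open Pool.Agent.K1H83.VN (Sc Sm L_pos two_le_exp const_of_finite abs_log_le' nm le_nm nm_le
  nm_nonneg nm_unit nm_pos ho c1 ne_of_coord ne_of_one ho_mul_le ho_le prod_formula logHeight_split)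
open Pool.Agent.D0H97.FT (Si hSi inr_Si mem_Si v10 dn nm_pair dn_nonneg dn_le_height dn_mul dn_add
  dn_neg ho_c1_le dg one_le_dg)
open Pool.Agent.D0H97.FX

section one

variable {k : Type} [Field k] [NumberField k]

theorem ho_c1 {ι : Type} [Fintype ι] (z : ι → k) (hz : z ≠ 0) :
    ho (Si k) z ≤ ∑ i, dn (z i) := by
  refine (ho_le (Si k) z hz (c1 z) (ne_of_one _ none rfl) fun v _ => ?_).trans (ho_c1_le z)
  exact nm_le _ (nm_nonneg _ _) fun i => le_nm (fv v) (c1 z) (some i)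

/-- the inequality at one point -/
theorem ineq_one {u w : ℕ} (z : Fin u → k) (hz : z ≠ 0) (c : k) (hc : c ≠ 0) (Q : k) (hQ : Q ≠ 0)
    (R : Fin w → k) (hQR : (fun j => Q * R j) ≠ 0) (N : ℕ) {m : ℕ} (x : Fin m → k) (i1 : Fin m)
    (hi1 : x i1 ≠ 0) (kk : ℕ) (δ : ℝ)
    (hδ : ∀ (v : InfinitePlace k) (i : Fin u), av (Sum.inl v : Pl k) (z i) ≤
      av (Sum.inl v : Pl k) Q ^ N * av (Sum.inl v : Pl k) (x i1) ^ kk * Real.exp δ) :
    logHeight (fun i => c * z i) + N * ho (Si k) (fun j => Q * R j) -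
      kk * (logHeight x - ho (Si k) x) ≤
      ∑ i, dn (z i) + N * ∑ j, dn (R j) + dg k * δ := by
  have h1 : logHeight (fun i => c * z i) = logHeight z := logHeight_smul_eq_logHeight z hc
  have h2 := logHeight_split (Si k) hSi z hz
  have h3 := ho_c1 z hz
  have h4 := prod_formula (Si k) hSi Q hQ
  have hx0 : x ≠ 0 := ne_of_coord (i := i1) hi1
  have h22 := logHeight_split (Si k) hSi x hx0
  have hQu : (fun _ : Unit => Q) ≠ 0 := ne_of_coord (i := ()) hQ
  have h5 : ho (Si k) (fun j => Q * R j) ≤ ho (Si k) (fun _ : Unit => Q) + ∑ j, dn (R j) := by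
    refine (ho_mul_le (Si k) _ hQR _ hQu (c1 R) (ne_of_one _ none rfl) fun v _ => ?_).trans
      (add_le_add le_rfl (ho_c1_le R))
    refine nm_le _ (mul_nonneg (nm_nonneg _ _) (nm_nonneg _ _)) fun j => ?_
    rw [map_mul, nm_unit]
    exact mul_le_mul_of_nonneg_left (le_nm (fv v) (c1 R) (some j)) ((fv v).nonneg _)
  have h6 : ∑ v ∈ Si k, wt v * Real.log (nm (av v) z) ≤
      N * ∑ v ∈ Si k, wt v * Real.log (av v Q) +
        kk * ∑ v ∈ Si k, wt v * Real.log (nm (av v) x) + dg k * δ := by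
    unfold dg
    rw [Finset.mul_sum, Finset.mul_sum, Finset.sum_mul, ← Finset.sum_add_distrib,
      ← Finset.sum_add_distrib]
    refine Finset.sum_le_sum fun v hv => ?_
    obtain ⟨v', rfl⟩ := mem_Si hv
    have h7 : nm (av (Sum.inl v' : Pl k)) z ≤ av (Sum.inl v' : Pl k) Q ^ N *
        nm (av (Sum.inl v' : Pl k)) x ^ kk * Real.exp δ :=
      nm_le _ (mul_nonneg (mul_nonneg (by positivity) (pow_nonneg (nm_nonneg _ _) _))
        (Real.exp_pos _).le) fun i => (hδ v' i).trans (by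
          refine mul_le_mul_of_nonneg_right ?_ (Real.exp_pos _).le
          refine mul_le_mul_of_nonneg_left ?_ (by positivity)
          exact pow_le_pow_left₀ ((av _).nonneg _) (le_nm _ x i1) _)
    have h8 : 0 < av (Sum.inl v' : Pl k) Q := (av _).pos hQ
    have h88 : 0 < nm (av (Sum.inl v' : Pl k)) x := nm_pos _ hx0
    have h9 : Real.log (nm (av (Sum.inl v' : Pl k)) z) ≤
        N * Real.log (av (Sum.inl v' : Pl k) Q) + kk * Real.log (nm (av (Sum.inl v' : Pl k)) x) +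
          δ := by
      refine (Real.log_le_log (nm_pos _ hz) h7).trans (le_of_eq ?_)
      rw [Real.log_mul (mul_ne_zero (pow_ne_zero _ h8.ne') (pow_ne_zero _ h88.ne'))
        (Real.exp_pos _).ne', Real.log_mul (pow_ne_zero _ h8.ne') (pow_ne_zero _ h88.ne'),
        Real.log_pow, Real.log_pow, Real.log_exp]
    calc _ ≤ wt (Sum.inl v' : Pl k) * (N * Real.log (av (Sum.inl v' : Pl k) Q) +
          kk * Real.log (nm (av (Sum.inl v' : Pl k)) x) + δ) :=
          mul_le_mul_of_nonneg_left h9 (wt_nonneg _)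
      _ = _ := by ring
  have h10 : (N : ℝ) * ho (Si k) (fun j => Q * R j) ≤
      N * (ho (Si k) (fun _ : Unit => Q) + ∑ j, dn (R j)) :=
    mul_le_mul_of_nonneg_left h5 (Nat.cast_nonneg _)
  have h11 : logHeight x - ho (Si k) x = ∑ v ∈ Si k, wt v * Real.log (nm (av v) x) := by
    rw [h22]
    ring
  rw [h1, h2, h11]
  rw [h4] at h6
  linarith

end one

variable {Λ : ℕ → Type} [∀ t, Field (Λ t)] [∀ t, NumberField (Λ t)] {σ : Sc}

/-- uniformity in the infinite places -/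
theorem unif (x : G Λ σ) (h : ∀ w : ∀ t, InfinitePlace (Λ t), vw σ w x ≤ 1) (ε : ℝ)
    (hε : 0 < ε) : ∀ᶠ t in (σ.𝒰 : Filter ℕ), ∀ w : InfinitePlace (Λ t),
      av (Sum.inl w : Pl (Λ t)) (rep x t) ≤ Real.exp (ε * σ.L t) := by
  have hmax : ∀ t, ∃ w : InfinitePlace (Λ t), ∀ w' : InfinitePlace (Λ t),
      av (Sum.inl w' : Pl (Λ t)) (rep x t) ≤ av (Sum.inl w : Pl (Λ t)) (rep x t) := fun t =>
    Finite.exists_max fun w : InfinitePlace (Λ t) => av (Sum.inl w : Pl (Λ t)) (rep x t)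
  choose w hw using hmax
  have h2 : x ∈ OO σ (aw w) := ((OO σ _).valuation_le_one_iff x).1 (h w)
  rw [mem_OO] at h2
  filter_upwards [h2 ε hε] with t h3 w'
  exact (hw t w').trans h3

variable [Bdd Λ]

/-- **The main inequality.** -/
theorem main_ineq {u w : ℕ} (z : Fin u → G Λ σ) (hz : ∀ i, z i ∈ NI Λ σ) (hz0 : ∃ i, z i ≠ 0)
    (c : G Λ σ) (hc : c ≠ 0) (gx : Fin u → ∀ t, Λ t) (hgx : ∀ i, gm σ (gx i) = c * z i)
    (Q : G Λ σ) (hQ : Q ≠ 0) (R : Fin w → G Λ σ) (hR : ∀ j, R j ∈ NI Λ σ)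
    (fx : Fin w → ∀ t, Λ t) (hfx : ∀ j, gm σ (fx j) = Q * R j) (hf0 : ∃ j, gm σ (fx j) ≠ 0)
    (N : ℕ) {m : ℕ} (x : Fin m → ∀ t, Λ t) (i1 : Fin m) (hi1 : gm σ (x i1) ≠ 0) (kk : ℕ)
    (hle : ∀ (v : ∀ t, InfinitePlace (Λ t)) i,
      vw σ v (z i) ≤ vw σ v Q ^ N * vw σ v (gm σ (x i1)) ^ kk) :
    Sm σ fun t => logHeight (fun i => gx i t) + N * ho (Si (Λ t)) (fun j => fx j t) -
      kk * (logHeight (fun i => x i t) - ho (Si (Λ t)) fun i => x i t) := by
  obtain ⟨i0, hi0⟩ := hz0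
  obtain ⟨j0, hj0⟩ := hf0
  obtain ⟨r, hr0, hr⟩ := exists_dg (Λ := Λ)
  have h1 : Sm σ fun t => ∑ i, dn (rep (z i) t) := Sm.sum _ fun i _ => hz i
  have h2 : Sm σ fun t => ∑ j, dn (rep (R j) t) := Sm.sum _ fun j _ => hR j
  have h3 : ∀ᶠ t in (σ.𝒰 : Filter ℕ), ∀ j, fx j t = rep Q t * rep (R j) t := by
    rw [Filter.eventually_all]
    intro j
    have h4 : gm σ (fx j) = gm σ (fun t => rep Q t * rep (R j) t) := by
      rw [hfx]
      show _ = gm σ (rep Q * rep (R j))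
      rw [map_mul, gm_rep, gm_rep]
    exact (gm_eq _ _).1 h4
  have h4 : ∀ᶠ t in (σ.𝒰 : Filter ℕ), ∀ i, gx i t = rep c t * rep (z i) t := by
    rw [Filter.eventually_all]
    intro i
    have h4 : gm σ (gx i) = gm σ (fun t => rep c t * rep (z i) t) := by
      rw [hgx]
      show _ = gm σ (rep c * rep (z i))
      rw [map_mul, gm_rep, gm_rep]
    exact (gm_eq _ _).1 h4
  intro ε hε
  set δ : ℝ := ε / (4 * (r + N + 1)) with hδ
  have hN0 : (0 : ℝ) ≤ N := Nat.cast_nonneg _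
  have hδ0 : 0 < δ := by positivity
  have hQN : Q ^ N * gm σ (x i1) ^ kk ≠ 0 := mul_ne_zero (pow_ne_zero _ hQ) (pow_ne_zero _ hi1)
  have h5 : ∀ᶠ t in (σ.𝒰 : Filter ℕ), ∀ i, ∀ v : InfinitePlace (Λ t),
      av (Sum.inl v : Pl (Λ t)) (rep (z i / (Q ^ N * gm σ (x i1) ^ kk)) t) ≤
        Real.exp (δ * σ.L t) := by
    rw [Filter.eventually_all]
    intro i
    refine unif _ (fun v => ?_) δ hδ0
    rw [map_div₀, map_mul, map_pow, map_pow]
    exact div_le_one_of_le₀ (hle v i) zero_le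
  have h6 : ∀ᶠ t in (σ.𝒰 : Filter ℕ), ∀ i, rep (z i / (Q ^ N * gm σ (x i1) ^ kk)) t =
      rep (z i) t / (rep Q t ^ N * x i1 t ^ kk) := by
    rw [Filter.eventually_all]
    intro i
    filter_upwards [rep_div (z i) (Q ^ N * gm σ (x i1) ^ kk), rep_pow Q N,
      rep_mul (Q ^ N) (gm σ (x i1) ^ kk), rep_pow (gm σ (x i1)) kk, rep_gm (σ := σ) (x i1)]
      with t e1 e2 e3 e4 e5
    rw [e1, e3, e2, e4, e5]
  have hj0' : ∀ᶠ t in (σ.𝒰 : Filter ℕ), fx j0 t ≠ 0 := (gm_ne _).1 hj0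
  have hi1' : ∀ᶠ t in (σ.𝒰 : Filter ℕ), x i1 t ≠ 0 := (gm_ne _).1 hi1
  filter_upwards [h1 δ hδ0, h2 δ hδ0, h3, h4, h5, h6, rep_ne Q hQ, rep_ne c hc, rep_ne _ hi0,
    hj0', L_pos (σ := σ), hi1'] with t e1 e2 e3 e4 e5 e6 e7 e8 e9 e10 e11 e12
  have h7 : (fun i => gx i t) = fun i => rep c t * rep (z i) t := funext e4
  have h8 : (fun j => fx j t) = fun j => rep Q t * rep (R j) t := funext e3
  have h9 := ineq_one (fun i => rep (z i) t) (ne_of_coord (i := i0) e9) (rep c t) e8 (rep Q t) e7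
    (fun j => rep (R j) t) (ne_of_coord (i := j0) (by rw [← e3 j0]; exact e10)) N
    (fun i => x i t) i1 e12 kk (δ * σ.L t)
    (by
      intro v i
      have h10 := e5 i v
      have h11 : 0 < av (Sum.inl v : Pl (Λ t)) (rep Q t) ^ N *
          av (Sum.inl v : Pl (Λ t)) (x i1 t) ^ kk :=
        mul_pos (pow_pos ((av _).pos e7) _) (pow_pos ((av _).pos e12) _)
      rw [e6 i, map_div₀, map_mul, map_pow, map_pow, div_le_iff₀ h11] at h10
      rw [mul_comm]
      exact h10)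
  rw [h7, h8]
  refine h9.trans ?_
  have h10 : (N : ℝ) * ∑ j, dn (rep (R j) t) ≤ N * (δ * σ.L t) :=
    mul_le_mul_of_nonneg_left e2 hN0
  have h11 : dg (Λ t) * (δ * σ.L t) ≤ r * (δ * σ.L t) :=
    mul_le_mul_of_nonneg_right (hr t) (by positivity)
  have h12 : (r + N + 1) * (δ * σ.L t) = ε / 4 * σ.L t := by
    rw [hδ]
    field_simp
  have h13 : 0 < ε * σ.L t := by positivity
  linarith

end Pool.Agent.D0H97.VV
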