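import Pool.Agent.D0H97.VV.Al
import Pool.Agent.D0H97.VV.Mn

/-!
The inequality for sequences of points.
-/

set_option autoImplicit false
set_option linter.unusedSectionVars false

namespace Pool.Agent.D0H97.VV

open NumberField IsDedekindDomain Height Filter Topology
open Pool.Agent.W180.OP (Pl av wt fv fv_support_finite wt_nonneg)
open Pool.Agent.K1H83.VN (Sc Sm L_pos two_le_exp const_of_finite abs_log_le' nm le_nm nm_le
  nm_nonneg nm_unit ho c1 ne_of_coord ne_of_one ho_mul_le prod_formula logHeight_split)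
open Pool.Agent.D0H85.SP (pw pw_add pw_neg pw_zero Th Th_C Th_X Th_monomial wgt exists_factor
  eval₂_smul poly_zero eval_eval₂)
open Pool.Agent.D0H97.FT (Si hSi inr_Si mem_Si v10 dn nm_pair dn_nonneg dn_le_height dn_mul dn_add
  dn_neg ho_c1_le dg one_le_dg zz zz_inj cM cM_apply zero_form exists_weights)
open Pool.Agent.D0H97.FX
open Pool.Agent.D0H85.SQ (NoCentre)
open Pool.Agent.W602.GT (coords LogSec IsForm)

/-- common factors -/
theorem gcd_split {F : Type} [Field F] {s w : ℕ} (f : Fin w → MvPolynomial (Fin s) F)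
    (hf : ∃ j, f j ≠ 0) : ∃ (q : MvPolynomial (Fin s) F) (y : Fin w → MvPolynomial (Fin s) F),
      q ≠ 0 ∧ (∀ j, f j = q * y j) ∧
      ∀ p, (∀ j, p ∣ y j) → ∃ m c, p = MvPolynomial.monomial m c := by
  classical
  obtain ⟨j1, hj1⟩ := hf
  have hne : ∀ q, (∀ j, q ∣ f j) → q ≠ 0 := by
    rintro q hq rfl
    exact hj1 (zero_dvd_iff.1 (hq j1))
  let P : ℕ → Prop := fun n => ∃ q : MvPolynomial (Fin s) F, (∀ j, q ∣ f j) ∧ q.totalDegree = n
  have hbound : ∀ n, P n → n ≤ (f j1).totalDegree := by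
    rintro n ⟨q, hq, rfl⟩
    obtain ⟨y, hy⟩ := hq j1
    have hy0 : y ≠ 0 := by
      rintro rfl
      rw [mul_zero] at hy
      exact hj1 hy
    rw [hy, MvPolynomial.totalDegree_mul_of_isDomain (hne q hq) hy0]
    omega
  have h0 : P 0 := ⟨1, fun j => one_dvd _, MvPolynomial.totalDegree_one⟩
  obtain ⟨q, hq, hqn⟩ := Nat.findGreatest_spec (P := P) (Nat.zero_le (f j1).totalDegree) h0
  choose y hy using hq
  refine ⟨q, y, hne q fun j => ⟨y j, hy j⟩, hy, fun p hp => ?_⟩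
  have hqp : ∀ j, q * p ∣ f j := by
    intro j
    rw [hy j]
    exact mul_dvd_mul_left _ (hp j)
  have hq0 : q ≠ 0 := hne q fun j => ⟨y j, hy j⟩
  have hp0 : p ≠ 0 := by
    rintro rfl
    exact hne _ hqp (mul_zero _)
  have h1 : P (q * p).totalDegree := ⟨q * p, hqp, rfl⟩
  have h2 := Nat.le_findGreatest (hbound _ h1) h1
  rw [MvPolynomial.totalDegree_mul_of_isDomain hq0 hp0, ← hqn] at h2
  have h3 : p.totalDegree = 0 := by omega
  exact ⟨0, _, (MvPolynomial.totalDegree_eq_zero_iff_eq_C.1 h3)⟩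

variable {Λ : ℕ → Type} [∀ t, Field (Λ t)] [∀ t, NumberField (Λ t)] [Bdd Λ] {σ : Sc} {s : ℕ}
  {K : Type} [Field K] [NumberField K] [∀ t, Algebra K (Λ t)]
  {e : Fin s → G Λ σ} {β : Fin s → ℝ} {n w : ℕ}

theorem vw_pos (h : Bet e β) (v : ∀ t, InfinitePlace (Λ t)) (a : Fin s → ℤ) :
    vw σ v (pw e a) ≠ 0 := (Valuation.ne_zero_iff _).2 (h.pw_ne a)

theorem le_iff (h : Bet e β) (v : ∀ t, InfinitePlace (Λ t)) (a b : Fin s → ℤ) :
    vw σ v (pw e a) ≤ vw σ v (pw e b) ↔ ∑ i, (a i : ℝ) * β i ≤ ∑ i, (b i : ℝ) * β i := by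
  have h1 := h.le_one_iff v (a + -b)
  rw [pw_add e h.ne, pw_neg e h.ne, map_mul, map_inv₀, sum_add, sum_neg, ← div_eq_mul_inv,
    div_le_one₀ (zero_lt_iff.2 (vw_pos h v b))] at h1
  rw [h1]
  constructor <;> intro h2 <;> linarith

theorem dom_beta (h : Bet e β) (p : MvPolynomial (Fin s) (FF Λ σ)) (hp : p ≠ 0) :
    ∃ m1 ∈ p.support, (∀ m ∈ p.support, ∑ i, (zz m i : ℝ) * β i ≤ ∑ i, (zz m1 i : ℝ) * β i) ∧
      ∀ v : ∀ t, InfinitePlace (Λ t), vw σ v (evg e p) = vw σ v (pw e (zz m1)) := by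
  obtain ⟨v0⟩ : Nonempty (∀ t, InfinitePlace (Λ t)) := inferInstance
  obtain ⟨m1, hm1, -, h2⟩ := h.dom_e v0 p hp
  have h3 : ∀ m ∈ p.support, ∑ i, (zz m i : ℝ) * β i ≤ ∑ i, (zz m1 i : ℝ) * β i :=
    fun m hm => (le_iff h v0 _ _).1 (h2 m hm)
  refine ⟨m1, hm1, h3, fun v => ?_⟩
  obtain ⟨m2, hm2, h4, h5⟩ := h.dom_e v p hp
  rw [h4]
  exact le_antisymm ((le_iff h v _ _).2 (h3 m2 hm2)) (h5 m1 hm1)

theorem dom_beta_inv (h : Bet e β) (p : MvPolynomial (Fin s) (FF Λ σ)) (hp : p ≠ 0) :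
    ∃ m0 ∈ p.support, (∀ m ∈ p.support, ∑ i, (zz m0 i : ℝ) * β i ≤ ∑ i, (zz m i : ℝ) * β i) ∧
      ∀ v : ∀ t, InfinitePlace (Λ t),
        vw σ v (evg (fun i => (e i)⁻¹) p) = vw σ v (pw e (-zz m0)) := by
  obtain ⟨v0⟩ : Nonempty (∀ t, InfinitePlace (Λ t)) := inferInstance
  obtain ⟨m1, hm1, -, h2⟩ := h.dom_inv v0 p hp
  have h3 : ∀ m ∈ p.support, ∑ i, (zz m1 i : ℝ) * β i ≤ ∑ i, (zz m i : ℝ) * β i := by
    intro m hm
    have h4 := (le_iff h v0 _ _).1 (h2 m hm)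
    rw [sum_neg, sum_neg] at h4
    linarith
  refine ⟨m1, hm1, h3, fun v => ?_⟩
  obtain ⟨m2, hm2, h4, h5⟩ := h.dom_inv v p hp
  rw [h4]
  refine le_antisymm ((le_iff h v _ _).2 ?_) (h5 m1 hm1)
  rw [sum_neg, sum_neg]
  have := h3 m2 hm2
  linarith

section poly

variable {κ : Type} [Fintype κ]

/-- exponents -/
theorem exists_shift (nn : κ → Fin s → ℤ) : ∃ (M : ℕ) (m' : κ → Fin s →₀ ℕ),
    ∀ q, zz (m' q) = nn q + fun _ => (M : ℤ) := by
  obtain ⟨M, hM⟩ : ∃ M : ℕ, ∀ q i, 0 ≤ nn q i + M := by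
    refine ⟨∑ q, ∑ i, (nn q i).natAbs, fun q i => ?_⟩
    have h1 : (nn q i).natAbs ≤ ∑ i, (nn q i).natAbs :=
      Finset.single_le_sum (f := fun i => (nn q i).natAbs) (fun _ _ => Nat.zero_le _)
        (Finset.mem_univ i)
    have h2 : ∑ i, (nn q i).natAbs ≤ ∑ q, ∑ i, (nn q i).natAbs :=
      Finset.single_le_sum (f := fun q => ∑ i, (nn q i).natAbs) (fun _ _ => Nat.zero_le _)
        (Finset.mem_univ q)
    have h3 : -(nn q i) ≤ ((nn q i).natAbs : ℤ) := by omega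
    have h4 : ((nn q i).natAbs : ℤ) ≤ ((∑ q, ∑ i, (nn q i).natAbs : ℕ) : ℤ) := by
      exact_mod_cast h1.trans h2
    omega
  refine ⟨M, fun q => Finsupp.equivFunOnFinite.symm fun i => (nn q i + M).toNat, fun q => ?_⟩
  funext i
  show (((nn q i + M).toNat : ℕ) : ℤ) = nn q i + M
  exact Int.toNat_of_nonneg (hM q i)

/-- one coordinate -/
theorem coord (h : Bet e β) (A : κ → FF Λ σ) (nn : κ → Fin s → ℤ)
    (hnn : ∀ q, 0 ≤ ∑ i, (nn q i : ℝ) * β i) (X : G Λ σ)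
    (hX : X = ∑ q, (A q : G Λ σ) * pw e (nn q)) :
    X ∈ NI Λ σ ∧ (X ∈ FF Λ σ → X = ∑ q with nn q = 0, (A q : G Λ σ)) ∧
      (X ∉ FF Λ σ → ∀ v : ∀ t, InfinitePlace (Λ t), 1 < vw σ v X) := by
  classical
  obtain ⟨M, m', hm'⟩ := exists_shift nn
  set E0 : G Λ σ := pw e (fun _ => (M : ℤ)) with hE0
  have hE00 : E0 ≠ 0 := h.pw_ne _
  let φ : MvPolynomial (Fin s) (FF Λ σ) := ∑ q, MvPolynomial.monomial (m' q) (A q)
  have hφ : evg e φ = E0 * X := by
    show evg e (∑ q, MvPolynomial.monomial (m' q) (A q)) = _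
    rw [map_sum, hX, Finset.mul_sum]
    refine Finset.sum_congr rfl fun q _ => ?_
    rw [evg_monomial, prod_zz, hm', pw_add e h.ne]
    ring
  have hNI : X ∈ NI Λ σ := by
    rw [hX]
    exact Subring.sum_mem _ fun q _ => (NI Λ σ).mul_mem (FF_NI (A q).2) (h.near _ (hnn q))
  refine ⟨hNI, fun hXF => ?_, fun hXF v => ?_⟩
  · have h1 : φ = MvPolynomial.monomial (cM s M) ⟨X, hXF⟩ := by
      rw [← sub_eq_zero]
      apply h.evg_inj
      rw [map_sub, hφ, evg_monomial, prod_zz]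
      have h3 : zz (cM s M) = fun _ => (M : ℤ) := rfl
      rw [h3, mul_comm]
      exact sub_self _
    have h2 := congrArg (fun p => (MvPolynomial.coeff (cM s M) p : FF Λ σ)) h1
    simp only [MvPolynomial.coeff_monomial, if_pos] at h2
    have h3 : MvPolynomial.coeff (cM s M) φ = ∑ q with nn q = 0, A q := by
      show MvPolynomial.coeff (cM s M) (∑ q, MvPolynomial.monomial (m' q) (A q)) = _
      rw [MvPolynomial.coeff_sum, Finset.sum_filter]
      refine Finset.sum_congr rfl fun q _ => ?_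
      rw [MvPolynomial.coeff_monomial]
      have h4 : m' q = cM s M ↔ nn q = 0 := by
        constructor
        · intro h5
          have h6 := hm' q
          rw [h5] at h6
          have h7 : (fun _ => (M : ℤ)) = nn q + fun _ => (M : ℤ) := h6
          funext i
          have h8 := congrFun h7 i
          simp only [Pi.add_apply] at h8
          show nn q i = 0
          linarith
        · intro h5
          apply zz_inj
          rw [hm', h5, zero_add]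
          rfl
      by_cases h5 : nn q = 0
      · rw [if_pos h5, if_pos (h4.2 h5)]
      · rw [if_neg h5, if_neg fun h6 => h5 (h4.1 h6)]
    rw [h3] at h2
    have h4 := congrArg (fun z : FF Λ σ => (z : G Λ σ)) h2
    simp only [AddSubmonoidClass.coe_finsetSum] at h4
    exact h4.symm
  · have hX0 : X ≠ 0 := by
      rintro rfl
      exact hXF (FF Λ σ).zero_mem
    have hφ0 : φ ≠ 0 := by
      intro h0
      rw [h0, map_zero] at hφ
      exact mul_ne_zero hE00 hX0 hφ.symm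
    obtain ⟨m1, hm1, -, hv⟩ := dom_beta h φ hφ0
    have h1 : ∀ v, vw σ v X = vw σ v (pw e (zz m1 + -(fun _ => (M : ℤ)))) := by
      intro v
      have h2 := hv v
      rw [hφ, map_mul] at h2
      rw [pw_add e h.ne, pw_neg e h.ne, map_mul, map_inv₀, ← h2, mul_comm, ← mul_assoc,
        inv_mul_cancel₀ (vw_pos h v _), one_mul]
    obtain ⟨q, hq⟩ : ∃ q, m' q = m1 := by
      by_contra hno
      push Not at hno
      apply MvPolynomial.mem_support_iff.1 hm1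
      show MvPolynomial.coeff m1 (∑ q, MvPolynomial.monomial (m' q) (A q)) = 0
      rw [MvPolynomial.coeff_sum]
      refine Finset.sum_eq_zero fun q _ => ?_
      rw [MvPolynomial.coeff_monomial, if_neg (hno q)]
    have h2 : (zz m1 + -(fun _ => (M : ℤ))) = nn q := by
      rw [← hq, hm']
      funext i
      simp
    rw [h1, h2]
    rcases (hnn q).lt_or_eq with h3 | h3
    · exact h.lt v _ h3
    · exfalso
      apply hXF
      refine FF_of_NI hNI fun v => ?_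
      rw [h1, h2]
      exact (h.le_one_iff v _).2 h3.ge

end poly

/-- the cofactors are near integers -/
theorem cof_near (h : Bet e β) (φ : Fin (n + 1) → MvPolynomial (Fin s) (FF Λ σ))
    (Xm : Fin (n + 1) → G Λ σ) (M : ℕ)
    (hφm : ∀ i, evg (fun i => (e i)⁻¹) (φ i) = (pw e (fun _ => (M : ℤ)))⁻¹ * Xm i)
    (hXm : ∀ v : ∀ t, InfinitePlace (Λ t), ∀ i, vw σ v (Xm i) ≤ 1)
    (g : MvPolynomial (Fin (n + 1)) K) (d : ℕ) (hg : g.IsHomogeneous d)
    (q y : MvPolynomial (Fin s) (FF Λ σ)) (hqy : g.eval₂ (kap K Λ σ s) φ = q * y) (μ : Fin s →₀ ℕ)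
    (hμ : ∀ v : ∀ t, InfinitePlace (Λ t),
        vw σ v (evg (fun i => (e i)⁻¹) q) = vw σ v (pw e (-zz μ))) :
    evg e y * pw e (-fun i => ((d : ℤ) * (M : ℤ)) - zz μ i) ∈ NI Λ σ := by
  obtain ⟨w0⟩ : Nonempty (∀ t, InfinitePlace (Λ t)) := inferInstance
  set E0 : G Λ σ := pw e (fun _ => (M : ℤ)) with hE0
  have hE00 : E0 ≠ 0 := h.pw_ne _
  have hfm : evg (fun i => (e i)⁻¹) (g.eval₂ (kap K Λ σ s) φ) * E0 ^ d =
      g.eval₂ (algebraMap K (G Λ σ)) Xm := by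
    rw [MvPolynomial.hom_eval₂, evg_kap]
    have h2 : (fun i => (evg (fun i => (e i)⁻¹)) (φ i)) = fun i => E0⁻¹ * Xm i := by
      funext i
      exact hφm i
    rw [h2, eval₂_smul _ g d hg, inv_pow]
    field_simp
  refine h.near_value w0 y _ ?_
  have h1 : (fun i => ((d : ℤ) * (M : ℤ)) - zz μ i : Fin s → ℤ) =
      (fun _ => (d : ℤ) * (M : ℤ)) + -zz μ := by
    funext i
    simp only [Pi.neg_apply, Pi.add_apply]
    ring
  rw [h1, pw_add e h.ne, pw_nsmul h.ne (fun _ => (M : ℤ)) d, ← hE0]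
  have h2 : vw σ w0 (evg (fun i => (e i)⁻¹) y * (E0 ^ d * pw e (-zz μ))) =
      vw σ w0 (g.eval₂ (algebraMap K (G Λ σ)) Xm) := by
    rw [← hfm, hqy, map_mul (evg _)]
    simp only [map_mul]
    rw [hμ w0]
    ac_rfl
  rw [h2]
  exact form_le_one w0 g Xm (hXm w0)

/-- **The inequality.** -/
theorem coreV {E : Type} [Field E] [Algebra K E] (h : Bet e β) {p : ℕ}
    (hdim : Algebra.trdeg K E = p) {y : Fin (n + 1) → E} (hy : y ≠ 0) (hgen : coords K y = ⊤)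
    (F : Fin w → MvPolynomial (Fin (n + 1)) K) (d : Fin w → ℕ) (hF : ∀ j, (F j).IsHomogeneous (d j))
    {N : ℕ} (hN : 0 < N) (kk : ℕ) {u g0 : ℕ} (ω : Fin u → (Fin p → Derivation K E E) → E)
    (hω : ∀ i, LogSecT K E p N kk (NoCentre F d y) y (ω i))
    (Gf : Fin u → MvPolynomial (Fin (n + 1)) K) (hG : ∀ i, (Gf i).IsHomogeneous g0)
    (hrat : ∀ i j D, MvPolynomial.aeval y (Gf i) * ω j D = MvPolynomial.aeval y (Gf j) * ω i D)
    (hne : ∃ i D, ω i D ≠ 0) (hGne : ∃ i, MvPolynomial.aeval y (Gf i) ≠ 0)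
    (x : Fin (n + 1) → ∀ t, Λ t) {κ : Type} [Fintype κ] (A : Fin (n + 1) → κ → FF Λ σ)
    (nn : κ → Fin s → ℤ) (hnn : ∀ q, 0 ≤ ∑ i, (nn q i : ℝ) * β i)
    (hx : ∀ i, gm σ (x i) = ∑ q, (A i q : G Λ σ) * pw e (nn q))
    (hdens : ∀ g : MvPolynomial (Fin (n + 1)) K, (∃ d, g.IsHomogeneous d) →
      (MvPolynomial.aeval y g = 0 ↔
        ∀ᶠ t in (σ.𝒰 : Filter ℕ), MvPolynomial.aeval (fun i => x i t) g = 0))
    (hFx : ∃ j, gm σ (fun t => MvPolynomial.aeval (fun i => x i t) (F j)) ≠ 0) :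
    Sm σ fun t => logHeight (fun i => MvPolynomial.aeval (fun i => x i t) (Gf i)) +
      N * ho (Si (Λ t)) (fun j => MvPolynomial.aeval (fun i => x i t) (F j)) -
      kk * (logHeight (fun i => x i t) - ho (Si (Λ t)) fun i => x i t) := by
  classical
  obtain ⟨M, m', hm'⟩ := exists_shift nn
  set E0 : G Λ σ := pw e (fun _ => (M : ℤ)) with hE0
  have hE00 : E0 ≠ 0 := h.pw_ne _
  let φ : Fin (n + 1) → MvPolynomial (Fin s) (FF Λ σ) :=
    fun i => ∑ q, MvPolynomial.monomial (m' q) (A i q)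
  let Xm : Fin (n + 1) → G Λ σ := fun i => ∑ q, (A i q : G Λ σ) * pw e (-nn q)
  have hφ : ∀ i, evg e (φ i) = E0 * gm σ (x i) := by
    intro i
    show evg e (∑ q, MvPolynomial.monomial (m' q) (A i q)) = _
    rw [map_sum, hx, Finset.mul_sum]
    refine Finset.sum_congr rfl fun q _ => ?_
    rw [evg_monomial, prod_zz, hm', pw_add e h.ne]
    ring
  have hφm : ∀ i, evg (fun i => (e i)⁻¹) (φ i) = E0⁻¹ * Xm i := by
    intro i
    show evg (fun i => (e i)⁻¹) (∑ q, MvPolynomial.monomial (m' q) (A i q)) =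
      E0⁻¹ * ∑ q, (A i q : G Λ σ) * pw e (-nn q)
    rw [map_sum, Finset.mul_sum]
    refine Finset.sum_congr rfl fun q _ => ?_
    rw [evg_monomial, prod_inv_zz, hm', neg_add, pw_add e h.ne, pw_neg e h.ne fun _ => (M : ℤ)]
    ring
  have hXm : ∀ v : ∀ t, InfinitePlace (Λ t), ∀ i, vw σ v (Xm i) ≤ 1 := by
    intro w0 i
    refine Valuation.map_sum_le _ fun q _ => ?_
    rw [map_mul]
    refine mul_le_one' (val_FF_le _ (A i q).2) ?_
    rw [h.le_one_iff, sum_neg]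
    linarith [hnn q]
  have hev : ∀ (g : MvPolynomial (Fin (n + 1)) K) (d : ℕ), g.IsHomogeneous d →
      evg e (g.eval₂ (kap K Λ σ s) φ) =
        E0 ^ d * gm σ (fun t => MvPolynomial.aeval (fun i => x i t) g) := by
    intro g d hg
    rw [MvPolynomial.hom_eval₂, evg_kap]
    have h2 : (fun i => (evg e) (φ i)) = fun i => E0 * gm σ (x i) := by
      funext i
      exact hφ i
    rw [h2, eval₂_smul _ g d hg, ← MvPolynomial.aeval_def, eval_gm]
  have hrel : ∀ g : MvPolynomial (Fin (n + 1)) K, (∃ d, g.IsHomogeneous d) →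
      (MvPolynomial.aeval y g = 0 ↔ g.eval₂ (kap K Λ σ s) φ = 0) := by
    rintro g ⟨d, hg⟩
    rw [hdens g ⟨d, hg⟩]
    have h1 : (g.eval₂ (kap K Λ σ s) φ = 0) ↔ evg e (g.eval₂ (kap K Λ σ s) φ) = 0 :=
      ⟨fun h0 => by rw [h0, map_zero], fun h0 => h.evg_inj _ h0⟩
    rw [h1, hev g d hg, mul_eq_zero, or_iff_right (pow_ne_zero _ hE00)]
    rw [← map_zero (gm σ), gm_eq]
    rfl
  have hF0 : ∃ j, (F j).eval₂ (kap K Λ σ s) φ ≠ 0 := by
    obtain ⟨j, hj⟩ := hFx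
    refine ⟨j, fun h0 => ?_⟩
    have h1 := hev (F j) (d j) (hF j)
    rw [h0, map_zero] at h1
    exact mul_ne_zero (pow_ne_zero _ hE00) hj h1.symm
  have hG0 : ∃ i, (Gf i).eval₂ (kap K Λ σ s) φ ≠ 0 := by
    obtain ⟨i, hi⟩ := hGne
    exact ⟨i, fun h0 => hi ((hrel (Gf i) ⟨g0, hG i⟩).2 h0)⟩
  obtain ⟨q, yj, hq, hfq, hyc⟩ := gcd_split _ hF0
  obtain ⟨c, rj, hc, hgr, hrc⟩ := gcd_split _ hG0
  obtain ⟨b1, hb1, hmax, hb1v⟩ := dom_beta h q hq
  obtain ⟨b0, hb0, hmin, hb0v⟩ := dom_beta_inv h q hq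
  -- the smallest exponent
  obtain ⟨ir, hir⟩ : ∃ i, rj i ≠ 0 := by
    obtain ⟨i, hi⟩ := hG0
    refine ⟨i, fun h0 => hi ?_⟩
    rw [hgr i, h0, mul_zero]
  obtain ⟨⟨j0, a0⟩, hja, hamin⟩ : ∃ ja ∈ (Finset.univ : Finset (Fin u)).sigma
      (fun j => (rj j).support), ∀ ja' ∈ (Finset.univ : Finset (Fin u)).sigma
      (fun j => (rj j).support), ∑ i, (zz ja.2 i : ℝ) * β i ≤ ∑ i, (zz ja'.2 i : ℝ) * β i := by
    apply Finset.exists_min_image _ (fun ja : (_ : Fin u) × (Fin s →₀ ℕ) =>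
      ∑ i, (zz ja.2 i : ℝ) * β i)
    obtain ⟨m, hm⟩ := MvPolynomial.ne_zero_iff.1 hir
    exact ⟨⟨ir, m⟩, Finset.mem_sigma.2 ⟨Finset.mem_univ _, MvPolynomial.mem_support_iff.2 hm⟩⟩
  have ha0 : a0 ∈ (rj j0).support := (Finset.mem_sigma.1 hja).2
  have hamin' : ∀ j, ∀ m ∈ (rj j).support, ∑ i, (zz a0 i : ℝ) * β i ≤ ∑ i, (zz m i : ℝ) * β i :=
    fun j m hm => hamin ⟨j, m⟩ (Finset.mem_sigma.2 ⟨Finset.mem_univ _, hm⟩)
  -- the largest exponent of the coordinates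
  have hsupp : ∀ i, ∀ b ∈ (φ i).support, ∃ q, m' q = b := by
    intro i b hb
    by_contra hno
    push Not at hno
    apply MvPolynomial.mem_support_iff.1 hb
    show MvPolynomial.coeff b (∑ q, MvPolynomial.monomial (m' q) (A i q)) = 0
    rw [MvPolynomial.coeff_sum]
    refine Finset.sum_eq_zero fun q _ => ?_
    rw [MvPolynomial.coeff_monomial, if_neg (hno q)]
  obtain ⟨iy, hiy⟩ := Function.ne_iff.1 hy
  have hφiy : φ iy ≠ 0 := by
    intro h0
    have h1 := (hrel (MvPolynomial.X iy) ⟨1, MvPolynomial.isHomogeneous_X _ _⟩).2 (by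
      rw [MvPolynomial.eval₂_X]
      exact h0)
    rw [MvPolynomial.aeval_X] at h1
    exact hiy h1
  obtain ⟨⟨i1, mx⟩, himx, hmx⟩ : ∃ ja ∈ (Finset.univ : Finset (Fin (n + 1))).sigma
      (fun j => (φ j).support), ∀ ja' ∈ (Finset.univ : Finset (Fin (n + 1))).sigma
      (fun j => (φ j).support), ∑ i, (zz ja'.2 i : ℝ) * β i ≤ ∑ i, (zz ja.2 i : ℝ) * β i := by
    apply Finset.exists_max_image _ (fun ja : (_ : Fin (n + 1)) × (Fin s →₀ ℕ) =>
      ∑ i, (zz ja.2 i : ℝ) * β i)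
    obtain ⟨m, hm⟩ := MvPolynomial.ne_zero_iff.1 hφiy
    exact ⟨⟨iy, m⟩, Finset.mem_sigma.2 ⟨Finset.mem_univ _, MvPolynomial.mem_support_iff.2 hm⟩⟩
  have hmxs : mx ∈ (φ i1).support := (Finset.mem_sigma.1 himx).2
  have hφi1 : φ i1 ≠ 0 := by
    intro h0
    rw [h0, MvPolynomial.support_zero] at hmxs
    exact absurd hmxs (Finset.notMem_empty _)
  obtain ⟨m1, hm1, hm1max, hm1v⟩ := dom_beta h (φ i1) hφi1
  have hφmax : ∀ i', ∀ b ∈ (φ i').support, ∑ i, (zz b i : ℝ) * β i ≤ ∑ i, (zz m1 i : ℝ) * β i :=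
    fun i' b hb => (hmx ⟨i', b⟩ (Finset.mem_sigma.2 ⟨Finset.mem_univ _, hb⟩)).trans (hm1max _ hmxs)
  have hφmin : ∀ i', ∀ b ∈ (φ i').support,
      ∑ i, (zz (cM s M) i : ℝ) * β i ≤ ∑ i, (zz b i : ℝ) * β i := by
    intro i' b hb
    obtain ⟨q, rfl⟩ := hsupp i' b hb
    have h1 : zz (m' q) = nn q + zz (cM s M) := hm' q
    rw [h1, sum_add]
    linarith [hnn q]
  have hX0 : gm σ (x i1) ≠ 0 := by
    intro h0
    have h1 := hφ i1
    rw [h0, mul_zero] at h1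
    exact hφi1 (h.evg_inj _ h1)
  have hXv : ∀ v : ∀ t, InfinitePlace (Λ t),
      vw σ v (gm σ (x i1)) = vw σ v (pw e (zz m1 + -zz (cM s M))) := by
    intro v
    have h2 := hm1v v
    rw [hφ, map_mul] at h2
    have h3 : zz (cM s M) = fun _ => (M : ℤ) := rfl
    rw [pw_add e h.ne, pw_neg e h.ne, map_mul, map_inv₀, ← h2, h3, mul_comm, ← mul_assoc,
      inv_mul_cancel₀ (vw_pos h v _), one_mul]
  let Q : G Λ σ := evg e q * pw e (-zz b0)
  let z : Fin u → G Λ σ := fun j => evg e (rj j) * pw e (-zz a0)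
  have hQ0 : Q ≠ 0 := mul_ne_zero (fun h0 => hq (h.evg_inj _ h0)) (h.pw_ne _)
  have hcne : evg e c ≠ 0 := fun h0 => hc (h.evg_inj _ h0)
  refine main_ineq z ?_ ⟨ir, mul_ne_zero (fun h0 => hir (h.evg_inj _ h0)) (h.pw_ne _)⟩
    ((E0 ^ g0)⁻¹ * evg e c * pw e (zz a0)) (mul_ne_zero (mul_ne_zero
      (inv_ne_zero (pow_ne_zero _ hE00)) hcne) (h.pw_ne _))
    (fun i t => MvPolynomial.aeval (fun i => x i t) (Gf i)) ?_ Q hQ0
    (fun j => evg e (yj j) * pw e (-fun i => ((d j : ℤ) * (M : ℤ)) - zz b0 i)) ?_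
    (fun j t => MvPolynomial.aeval (fun i => x i t) (F j)) ?_ hFx N x i1 hX0 kk ?_
  · intro j
    show evg e (rj j) * pw e (-zz a0) ∈ NI Λ σ
    rw [evg_eq, Finset.sum_mul]
    refine Subring.sum_mem _ fun m _ => ?_
    rw [mul_assoc]
    refine (NI Λ σ).mul_mem (FF_NI ((rj j).coeff m.1).2) ?_
    rw [prod_zz, ← pw_add e h.ne]
    apply h.near
    rw [sum_add, sum_neg]
    linarith [hamin' j m.1 m.2]
  · intro i
    have h1 := hev (Gf i) g0 (hG i)
    rw [hgr i, map_mul] at h1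
    show gm σ (fun t => MvPolynomial.aeval (fun i => x i t) (Gf i)) =
      (E0 ^ g0)⁻¹ * evg e c * pw e (zz a0) * (evg e (rj i) * pw e (-zz a0))
    have h2 : pw e (zz a0) * pw e (-zz a0) = 1 := by
      rw [← pw_add e h.ne, add_neg_cancel, pw_zero e h.ne]
    calc _ = (E0 ^ g0)⁻¹ * (E0 ^ g0 *
          gm σ (fun t => MvPolynomial.aeval (fun i => x i t) (Gf i))) := by
          rw [← mul_assoc, inv_mul_cancel₀ (pow_ne_zero _ hE00), one_mul]
      _ = (E0 ^ g0)⁻¹ * (evg e c * evg e (rj i)) := by rw [h1]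
      _ = (E0 ^ g0)⁻¹ * (evg e c * evg e (rj i)) * (pw e (zz a0) * pw e (-zz a0)) := by
          rw [h2, mul_one]
      _ = _ := by ring
  · intro j
    exact cof_near h φ Xm M hφm hXm (F j) (d j) (hF j) q (yj j) (hfq j) b0 hb0v
  · intro j
    show gm σ (fun t => MvPolynomial.aeval (fun i => x i t) (F j)) = (evg e q * pw e (-zz b0)) *
      (evg e (yj j) * pw e (-fun i => ((d j : ℤ) * (M : ℤ)) - zz b0 i))
    have hsplit : pw e (-fun i => ((d j : ℤ) * (M : ℤ)) - zz b0 i) =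
        (E0 ^ d j)⁻¹ * pw e (zz b0) := by
      have h1 : (-fun i => ((d j : ℤ) * (M : ℤ)) - zz b0 i : Fin s → ℤ) =
          -(fun _ => (d j : ℤ) * (M : ℤ)) + zz b0 := by
        funext i
        simp only [Pi.neg_apply, Pi.add_apply]
        ring
      rw [h1, pw_add e h.ne, pw_neg e h.ne, pw_nsmul h.ne (fun _ => (M : ℤ)) (d j)]
    have h1 := hev (F j) (d j) (hF j)
    rw [hfq j, map_mul] at h1
    have hp : pw e (zz b0) ≠ 0 := h.pw_ne _
    rw [hsplit, pw_neg e h.ne]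
    have h3 : (evg e q * (pw e (zz b0))⁻¹) * (evg e (yj j) * ((E0 ^ d j)⁻¹ * pw e (zz b0))) =
        (evg e q * evg e (yj j)) * (E0 ^ d j)⁻¹ := by
      field_simp
    rw [h3, h1]
    field_simp
  · intro v j
    show vw σ v (evg e (rj j) * pw e (-zz a0)) ≤ vw σ v (evg e q * pw e (-zz b0)) ^ N *
      vw σ v (gm σ (x i1)) ^ kk
    by_cases hj : rj j = 0
    · rw [hj, map_zero, zero_mul, map_zero]
      exact zero_le
    obtain ⟨a1, ha1, -, ha1v⟩ := dom_beta h (rj j) hj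
    rw [hXv v, map_mul, ha1v v, map_mul (vw σ v) (evg e q), hb1v v, ← map_mul, ← map_mul,
      ← pw_add e h.ne, ← pw_add e h.ne, ← map_pow, ← map_pow, ← map_mul, ← pw_nsmul h.ne,
      ← pw_nsmul h.ne, ← pw_add e h.ne, le_iff h]
    have hw := width h hdim hy hgen F d hF hN kk ω hω Gf hG hrat hne hGne φ hrel hF0 q hq yj hfq
      hyc c hc rj hgr hrc j j0 a1 a0 b1 b0 m1 (cM s M) ha1 ha0 hmax hmin hφmax hφmin
    have h1 : ∀ (C : ℕ) (a : Fin s → ℤ), ∑ i, (((C : ℤ) * a i : ℤ) : ℝ) * β i =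
        C * ∑ i, ((a i : ℤ) : ℝ) * β i := by
      intro C a
      rw [Finset.mul_sum]
      refine Finset.sum_congr rfl fun i _ => ?_
      push_cast
      ring
    rw [sum_add β (fun i => (N : ℤ) * (zz b1 + -zz b0) i)
      (fun i => (kk : ℤ) * (zz m1 + -zz (cM s M)) i), h1, h1, sum_add, sum_add, sum_add, sum_neg,
      sum_neg, sum_neg]
    linarith

end Pool.Agent.D0H97.VV
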