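import Pool.Agent.D0H97.FX.Bt
import Pool.Agent.D0H97.VV.Cv

/-!
The step: the inequality, or the elimination of one variable.
-/

set_option autoImplicit false
set_option linter.unusedSectionVars false

namespace Pool.Agent.D0H97.VV

open NumberField IsDedekindDomain Height Filter Topology
open Pool.Agent.W180.OP (Pl av wt fv fv_support_finite wt_nonneg)
open Pool.Agent.K1H83.VN (Sc Sm L_pos two_le_exp const_of_finite abs_log_le' nm le_nm nm_le
  nm_nonneg nm_unit ho c1 ne_of_coord ne_of_one ho_mul_le prod_formula logHeight_split)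
open Pool.Agent.D0H85.SP (pw pw_ne pw_add pw_neg pw_zero pw_zsmul pw_sum exists_basis)
open Pool.Agent.D0H97.FT (Si hSi inr_Si mem_Si v10 dn nm_pair dn_nonneg dn_le_height dn_mul dn_add
  dn_neg ho_c1_le dg one_le_dg zz zz_inj lam inf_rat inf_nat dn_rat Coherent den_bound exists_lim)
open Pool.Agent.D0H97.FX
open Pool.Agent.D0H85.SQ (NoCentre)
open Pool.Agent.W602.GT (coords LogSec IsForm)

variable {Λ : ℕ → Type} [∀ t, Field (Λ t)] [∀ t, NumberField (Λ t)] [Bdd Λ] {σ : Sc}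
  {K : Type} [Field K] [NumberField K] [∀ t, Algebra K (Λ t)] {N n w : ℕ} {A : Set ℕ}

/-- **The step.** -/
theorem stepV (hA : Coherent A) {E : Type} [Field E] [Algebra K E] {p : ℕ}
    (hdim : Algebra.trdeg K E = p) {y : Fin (n + 1) → E} (hy : y ≠ 0) (hgen : coords K y = ⊤)
    (F : Fin w → MvPolynomial (Fin (n + 1)) K) (d : Fin w → ℕ) (hF : ∀ j, (F j).IsHomogeneous (d j))
    {N0 : ℕ} (hN0 : 0 < N0) (kk : ℕ) {u g0 : ℕ} (ω : Fin u → (Fin p → Derivation K E E) → E)
    (hω : ∀ i, LogSecT K E p N0 kk (NoCentre F d y) y (ω i))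
    (Gf : Fin u → MvPolynomial (Fin (n + 1)) K) (hG : ∀ i, (Gf i).IsHomogeneous g0)
    (hrat : ∀ i j D, MvPolynomial.aeval y (Gf i) * ω j D = MvPolynomial.aeval y (Gf j) * ω i D)
    (hne : ∃ i D, ω i D ≠ 0) (hGne : ∃ i, MvPolynomial.aeval y (Gf i) ≠ 0)
    (x : Fin (n + 1) → ∀ t, Λ t) {κ : Type} [Fintype κ] (a : Fin (n + 1) → κ → ∀ t, Λ t)
    (α : κ → Fin N → ℕ) (s : Fin N → ℕ → ℕ) (hs : ∀ j t, s j t ≠ 0) (hsA : ∀ j t, s j t ∈ A)
    (hL : ∀ᶠ t in (σ.𝒰 : Filter ℕ), ∀ j, Real.log (s j t) ≤ σ.L t)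
    (ha : ∀ i q, Sm σ fun t => logHeight₁ (a i q t))
    (hx : ∀ i, ∀ᶠ t in (σ.𝒰 : Filter ℕ), x i t = ∑ q, a i q t * ∏ j, (s j t : Λ t) ^ α q j)
    (hdens : ∀ g : MvPolynomial (Fin (n + 1)) K, (∃ d, g.IsHomogeneous d) →
      (MvPolynomial.aeval y g = 0 ↔
        ∀ᶠ t in (σ.𝒰 : Filter ℕ), MvPolynomial.aeval (fun i => x i t) g = 0))
    (hFx : ∃ j, gm σ (fun t => MvPolynomial.aeval (fun i => x i t) (F j)) ≠ 0)
    (j0 : Fin N) (hj0 : ¬ Sm σ fun t => Real.log (s j0 t)) :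
    (Sm σ fun t => logHeight (fun i => MvPolynomial.aeval (fun i => x i t) (Gf i)) +
      N0 * ho (Si (Λ t)) (fun j => MvPolynomial.aeval (fun i => x i t) (F j)) -
      kk * (logHeight (fun i => x i t) - ho (Si (Λ t)) fun i => x i t)) ∧
    (∀ i, gm σ (x i) ∈ NI Λ σ ∧
      (gm σ (x i) ∉ FF Λ σ → ∀ v : ∀ t, InfinitePlace (Λ t), 1 < vw σ v (gm σ (x i)))) ∧
    ((∀ i, gm σ (x i) ∈ FF Λ σ) →
        ∃ J : Finset (Fin N), j0 ∈ J ∧ ∀ᶠ t in (σ.𝒰 : Filter ℕ), ∀ i,
          x i t = ∑ q, a i q t * ∏ j, ((if j ∈ J then 0 else s j t : ℕ) : Λ t) ^ α q j) := by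
  classical
  obtain ⟨ρ, e, β, m, hbet, hm, hmβ, hm0⟩ := exists_bet (Λ := Λ) (σ := σ) hA s hs hsA hL
  set U : Fin N → G Λ σ := gs Λ σ s with hU
  have hU0 : ∀ j, U j ≠ 0 := gs_ne s hs
  let c : Fin N → FF Λ σ := fun j => ⟨U j / pw e (m j), hm j⟩
  have hUc : ∀ j, U j = (c j : G Λ σ) * pw e (m j) := by
    intro j
    show U j = U j / pw e (m j) * pw e (m j)
    rw [div_mul_cancel₀ _ (hbet.pw_ne _)]
  let cc : κ → FF Λ σ := fun q => ∏ j, c j ^ α q j
  let nn : κ → Fin ρ → ℤ := fun q => ∑ j, (α q j : ℤ) • m j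
  have hmon : ∀ q, ∏ j, U j ^ α q j = (cc q : G Λ σ) * pw e (nn q) := by
    intro q
    have h1 : ((cc q : FF Λ σ) : G Λ σ) = ∏ j, (c j : G Λ σ) ^ α q j := by
      show ((∏ j, c j ^ α q j : FF Λ σ) : G Λ σ) = _
      push_cast
      rfl
    have h2 : pw e (nn q) = ∏ j, pw e (m j) ^ α q j := by
      show pw e (∑ j, (α q j : ℤ) • m j) = _
      rw [pw_sum e hbet.ne]
      refine Finset.prod_congr rfl fun j _ => ?_
      rw [pw_zsmul e hbet.ne, zpow_natCast]
    rw [h1, h2, ← Finset.prod_mul_distrib]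
    refine Finset.prod_congr rfl fun j _ => ?_
    rw [hUc j, mul_pow]
  have hnnβ : ∀ q, ∑ i, (nn q i : ℝ) * β i = ∑ j, (α q j : ℝ) * ∑ i, (m j i : ℝ) * β i := by
    intro q
    have h1 : ∀ i, ((nn q i : ℤ) : ℝ) = ∑ j, (α q j : ℝ) * (m j i : ℝ) := by
      intro i
      show (((∑ j, (α q j : ℤ) • m j) i : ℤ) : ℝ) = _
      rw [Finset.sum_apply]
      push_cast
      refine Finset.sum_congr rfl fun j _ => ?_
      rw [Pi.smul_apply, smul_eq_mul]
      push_cast
      ring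
    simp only [h1, Finset.sum_mul, Finset.mul_sum]
    rw [Finset.sum_comm]
    refine Finset.sum_congr rfl fun j _ => Finset.sum_congr rfl fun i _ => ?_
    ring
  have hnn : ∀ q, 0 ≤ ∑ i, (nn q i : ℝ) * β i := by
    intro q
    rw [hnnβ]
    exact Finset.sum_nonneg fun j _ => mul_nonneg (Nat.cast_nonneg _) (hmβ j)
  let Aq : Fin (n + 1) → κ → FF Λ σ := fun i q => ⟨gm σ (a i q), (gm_mem_FF _).2 (ha i q)⟩ * cc q
  have hgs : ∀ j, U j = gm σ fun t => (s j t : Λ t) := fun j => rfl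
  have hgmx : ∀ i, gm σ (x i) = ∑ q, gm σ (a i q) * ∏ j, U j ^ α q j := by
    intro i
    have h1 : gm σ (x i) = gm σ (fun t => ∑ q, a i q t * ∏ j, (s j t : Λ t) ^ α q j) :=
      (gm_eq _ _).2 (hx i)
    have h2 : (fun t => ∑ q, a i q t * ∏ j, (s j t : Λ t) ^ α q j) =
        ∑ q, a i q * ∏ j, (fun t => (s j t : Λ t)) ^ α q j := by
      funext t
      rw [Finset.sum_apply]
      refine Finset.sum_congr rfl fun q _ => ?_
      rw [Pi.mul_apply, Finset.prod_apply]
      simp only [Pi.pow_apply]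
    rw [h1, h2, map_sum]
    refine Finset.sum_congr rfl fun q _ => ?_
    rw [map_mul, map_prod]
    refine congrArg _ (Finset.prod_congr rfl fun j _ => ?_)
    rw [map_pow, hgs j]
  have hxA : ∀ i, gm σ (x i) = ∑ q, (Aq i q : G Λ σ) * pw e (nn q) := by
    intro i
    rw [hgmx i]
    refine Finset.sum_congr rfl fun q _ => ?_
    rw [hmon q]
    show gm σ (a i q) * ((cc q : G Λ σ) * pw e (nn q)) = (gm σ (a i q) * (cc q : G Λ σ)) *
      pw e (nn q)
    rw [mul_assoc]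
  have hcoord := fun i => coord hbet (Aq i) nn hnn (gm σ (x i)) (hxA i)
  refine ⟨coreV hbet hdim hy hgen F d hF hN0 kk ω hω Gf hG hrat hne hGne x Aq nn hnn hxA hdens hFx,
    fun i => ⟨(hcoord i).1, (hcoord i).2.2⟩, fun hall => ?_⟩
  have h : ∀ i, gm σ (x i) = ∑ q with nn q = 0, (Aq i q : G Λ σ) := fun i =>
    (hcoord i).2.1 (hall i)
  let J : Finset (Fin N) := Finset.univ.filter fun j => m j ≠ 0
  have hJ : ∀ j, j ∈ J ↔ m j ≠ 0 := fun j => by
    show j ∈ Finset.univ.filter (fun j => m j ≠ 0) ↔ m j ≠ 0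
    rw [Finset.mem_filter]
    exact ⟨fun h => h.2, fun h => ⟨Finset.mem_univ _, h⟩⟩
  refine ⟨J, ?_, ?_⟩
  · rw [hJ]
    intro hm00
    apply hj0
    have h1 := hm0 j0 hm00
    have h2 := (gm_mem_FF (σ := σ) fun t => (s j0 t : Λ t)).1 h1
    refine h2.mono (Eventually.of_forall fun t => ?_)
    obtain ⟨w0⟩ : Nonempty (InfinitePlace (Λ t)) := inferInstance
    have h3 : ((s j0 t : ℕ) : Λ t) ≠ 0 := Nat.cast_ne_zero.2 (hs j0 t)
    have h4 := abs_log_le' (Sum.inl w0 : Pl (Λ t)) _ h3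
    rw [inf_nat] at h4
    exact (le_abs_self _).trans h4
  · have hiff : ∀ q, nn q = 0 ↔ ∀ j ∈ J, α q j = 0 := by
      intro q
      constructor
      · intro h0 j hj
        by_contra hα
        have h1 := hnnβ q
        rw [h0] at h1
        have h2 : ∑ j, (α q j : ℝ) * ∑ i, (m j i : ℝ) * β i = 0 := by
          rw [← h1]
          simp
        have h3 := (Finset.sum_eq_zero_iff_of_nonneg fun j _ =>
          mul_nonneg (Nat.cast_nonneg (α := ℝ) (α q j)) (hmβ j)).1 h2 j (Finset.mem_univ j)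
        have h4 := (mul_eq_zero.1 h3).resolve_left (Nat.cast_ne_zero.2 hα)
        exact (hJ j).1 hj (hbet.inj _ h4)
      · intro h0
        show ∑ j, (α q j : ℤ) • m j = 0
        refine Finset.sum_eq_zero fun j _ => ?_
        by_cases hmj : m j = 0
        · rw [hmj, smul_zero]
        · rw [h0 j ((hJ j).2 hmj), Nat.cast_zero, zero_smul]
    rw [Filter.eventually_all]
    intro i
    have h1 := h i
    have h2 : ∑ q with nn q = 0, (Aq i q : G Λ σ) =
        gm σ fun t => ∑ q, a i q t * ∏ j, ((if j ∈ J then 0 else s j t : ℕ) : Λ t) ^ α q j := by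
      have h3 : (fun t => ∑ q, a i q t * ∏ j, ((if j ∈ J then 0 else s j t : ℕ) : Λ t) ^ α q j) =
          ∑ q, if nn q = 0 then a i q * ∏ j, (fun t => (s j t : Λ t)) ^ α q j else 0 := by
        funext t
        rw [Finset.sum_apply]
        refine Finset.sum_congr rfl fun q _ => ?_
        by_cases hq : nn q = 0
        · rw [if_pos hq, Pi.mul_apply, Finset.prod_apply]
          congr 1
          refine Finset.prod_congr rfl fun j _ => ?_
          by_cases hj : j ∈ J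
          · rw [(hiff q).1 hq j hj, pow_zero, pow_zero]
            rfl
          · rw [if_neg hj]
            rfl
        · rw [if_neg hq]
          have h4 : ∃ j ∈ J, α q j ≠ 0 := by
            by_contra hno
            push Not at hno
            exact hq ((hiff q).2 hno)
          obtain ⟨j, hj, hαj⟩ := h4
          show _ = (0 : Λ t)
          rw [Finset.prod_eq_zero (Finset.mem_univ j), mul_zero]
          rw [if_pos hj, Nat.cast_zero, zero_pow hαj]
      rw [h3, map_sum, Finset.sum_filter]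
      refine Finset.sum_congr rfl fun q _ => ?_
      by_cases hq : nn q = 0
      · rw [if_pos hq, if_pos hq, map_mul, map_prod]
        have h4 : ∏ j, gm σ ((fun t => (s j t : Λ t)) ^ α q j) = ∏ j, U j ^ α q j := by
          refine Finset.prod_congr rfl fun j _ => ?_
          rw [map_pow, hgs j]
        rw [h4, hmon q, hq, pw_zero e hbet.ne, mul_one]
        rfl
      · rw [if_neg hq, if_neg hq, map_zero]
    rw [h2] at h1
    exact (gm_eq _ _).1 h1


end Pool.Agent.D0H97.VV
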