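import Pool.Agent.D0H97.FX.Bd
import Pool.Agent.D0H97.VV.Mn

/-!
Bounds for the values of forms, uniform in the number field.
-/

set_option autoImplicit false
set_option linter.unusedSectionVars false

namespace Pool.Agent.D0H97.VV

open NumberField IsDedekindDomain Height Filter Topology
open Pool.Agent.W180.OP (Pl av wt fv fv_support_finite wt_nonneg)
open Pool.Agent.K1H83.VN (Sc Sm L_pos nm le_nm nm_le nm_nonneg nm_unit ho c1 ne_of_coord
  ne_of_one logHeight_le_sum logHeight₁_div_le)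
open Pool.Agent.D0H97.FT (Si dn dn_nonneg dn_le_height dn_mul dn_add dn_rat dg ho_c1_le Rp)
open Pool.Agent.D0H97.FX
open Pool.Agent.D0H85.SP (eval₂_smul)

section dn

variable {k : Type} [Field k] [NumberField k]

theorem dn_zero : dn (0 : k) ≤ 0 := (dn_le_height 0).trans (le_of_eq logHeight₁_zero)

theorem dn_one : dn (1 : k) ≤ 0 := (dn_le_height 1).trans (le_of_eq logHeight₁_one)

theorem dn_sum {ι : Type} (s : Finset ι) (x : ι → k) : dn (∑ i ∈ s, x i) ≤ ∑ i ∈ s, dn (x i) := by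
  classical
  induction s using Finset.induction_on with
  | empty =>
    rw [Finset.sum_empty, Finset.sum_empty]
    exact dn_zero
  | insert i s hi ih =>
    rw [Finset.sum_insert hi, Finset.sum_insert hi]
    exact (dn_add _ _).trans (add_le_add le_rfl ih)

theorem dn_prod {ι : Type} (s : Finset ι) (x : ι → k) : dn (∏ i ∈ s, x i) ≤ ∑ i ∈ s, dn (x i) := by
  classical
  induction s using Finset.induction_on with
  | empty =>
    rw [Finset.prod_empty, Finset.sum_empty]
    exact dn_one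
  | insert i s hi ih =>
    rw [Finset.prod_insert hi, Finset.sum_insert hi]
    exact (dn_mul _ _).trans (add_le_add le_rfl ih)

theorem dn_pow (x : k) (n : ℕ) : dn (x ^ n) ≤ n * dn x := by
  have h := dn_prod (Finset.univ : Finset (Fin n)) (fun _ => x)
  rw [Finset.prod_const, Finset.sum_const, Finset.card_univ, Fintype.card_fin, nsmul_eq_mul] at h
  exact h

theorem dn_nat (m : ℕ) : dn (m : k) ≤ 0 := by
  have h := dn_rat (k := k) (m : ℚ)
  rw [map_natCast, Rat.den_natCast, Nat.cast_one, Real.log_one, mul_zero] at h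
  exact h

theorem dn_Rp {A : Set ℕ} {N n : ℕ} {E : Finset (Fin N →₀ ℕ)} {c : ℕ} {T : ℝ}
    {x : Fin (n + 1) → k} (hx : Rp A E c T x) (i : Fin (n + 1)) : dn (x i) ≤ E.card * T := by
  obtain ⟨a, s, h1, -, -, h4⟩ := hx
  rw [h4 i]
  refine (dn_sum _ _).trans ?_
  have h5 : ∀ q ∈ E, dn (a i q * ∏ j, (s j : k) ^ q j) ≤ T := by
    intro q _
    refine (dn_mul _ _).trans ?_
    have h6 : dn (∏ j, (s j : k) ^ q j) ≤ 0 := by
      refine (dn_prod _ _).trans (Finset.sum_nonpos fun j _ => (dn_pow _ _).trans ?_)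
      exact mul_nonpos_of_nonneg_of_nonpos (Nat.cast_nonneg _) (dn_nat _)
    have h7 := (dn_le_height (a i q)).trans (h1 i q)
    linarith
  refine (Finset.sum_le_sum h5).trans (le_of_eq ?_)
  rw [Finset.sum_const, nsmul_eq_mul]

end dn

variable {K : Type} [Field K] [NumberField K] {n : ℕ}

theorem ht_coeff (r : ℕ) {L : Type} [Field L] [NumberField L] [Algebra K L]
    (hr : Module.finrank ℚ L ≤ r) (c : K) : logHeight₁ (algebraMap K L c) ≤ r * logHeight₁ c := by
  rw [ht_alg]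
  refine mul_le_mul_of_nonneg_right ?_ (zero_le_logHeight₁ _)
  have h1 : Module.finrank K L ≤ Module.finrank ℚ L := by
    rw [← Module.finrank_mul_finrank ℚ K L]
    exact Nat.le_mul_of_pos_left _ Module.finrank_pos
  exact_mod_cast h1.trans hr

/-- denominators of values of forms -/
theorem dn_form (g : MvPolynomial (Fin (n + 1)) K) (r : ℕ) : ∃ C : ℝ, 0 ≤ C ∧
    ∀ (L : Type) [Field L] [NumberField L] [Algebra K L], Module.finrank ℚ L ≤ r →
      ∀ (x : Fin (n + 1) → L) (T : ℝ), 0 ≤ T → (∀ i, dn (x i) ≤ T) →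
        dn (MvPolynomial.aeval x g) ≤ C * (1 + T) := by
  classical
  set C1 : ℝ := ∑ m ∈ g.support, r * logHeight₁ (g.coeff m) with hC1
  set C2 : ℝ := ∑ m ∈ g.support, ∑ i, (m i : ℝ) with hC2
  have h1 : 0 ≤ C1 := Finset.sum_nonneg fun m _ =>
    mul_nonneg (Nat.cast_nonneg _) (zero_le_logHeight₁ _)
  have h2 : 0 ≤ C2 := Finset.sum_nonneg fun m _ => Finset.sum_nonneg fun i _ => Nat.cast_nonneg _
  refine ⟨C1 + C2, by positivity, ?_⟩
  intro L _ _ _ hr x T hT hx
  rw [MvPolynomial.aeval_def, MvPolynomial.eval₂_eq']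
  refine (dn_sum _ _).trans ?_
  have h3 : ∀ m ∈ g.support, dn (algebraMap K L (g.coeff m) * ∏ i, x i ^ m i) ≤
      r * logHeight₁ (g.coeff m) + (∑ i, (m i : ℝ)) * T := by
    intro m _
    refine (dn_mul _ _).trans (add_le_add ((dn_le_height _).trans (ht_coeff r hr _)) ?_)
    refine (dn_prod _ _).trans ?_
    rw [Finset.sum_mul]
    exact Finset.sum_le_sum fun i _ => (dn_pow _ _).trans
      (mul_le_mul_of_nonneg_left (hx i) (Nat.cast_nonneg _))
  refine (Finset.sum_le_sum h3).trans ?_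
  rw [Finset.sum_add_distrib, ← Finset.sum_mul, ← hC1, ← hC2]
  have h4 : 0 ≤ C1 * T := mul_nonneg h1 hT
  nlinarith

/-- heights of values of forms -/
theorem ht_form1 (g : MvPolynomial (Fin (n + 1)) K) (r : ℕ) : ∃ C : ℝ, 0 ≤ C ∧
    ∀ (L : Type) [Field L] [NumberField L] [Algebra K L], Module.finrank ℚ L ≤ r →
      ∀ (x : Fin (n + 1) → L) (T : ℝ), 0 ≤ T → (∀ i, logHeight₁ (x i) ≤ T) →
        logHeight₁ (MvPolynomial.aeval x g) ≤ C * (1 + T) := by
  classical
  set C0 : ℝ := r * Real.log (g.support.card : ℝ) with hC0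
  set C1 : ℝ := ∑ m ∈ g.support, r * logHeight₁ (g.coeff m) with hC1
  set C2 : ℝ := ∑ m ∈ g.support, ∑ i, (m i : ℝ) with hC2
  have h0 : 0 ≤ C0 := mul_nonneg (Nat.cast_nonneg _) (Real.log_natCast_nonneg _)
  have h1 : 0 ≤ C1 := Finset.sum_nonneg fun m _ =>
    mul_nonneg (Nat.cast_nonneg _) (zero_le_logHeight₁ _)
  have h2 : 0 ≤ C2 := Finset.sum_nonneg fun m _ => Finset.sum_nonneg fun i _ => Nat.cast_nonneg _
  refine ⟨C0 + C1 + C2, by positivity, ?_⟩
  intro L _ _ _ hr x T hT hx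
  rw [MvPolynomial.aeval_def, MvPolynomial.eval₂_eq']
  refine (logHeight₁_sum_le _ _).trans ?_
  have h3 : ∀ m ∈ g.support, logHeight₁ (algebraMap K L (g.coeff m) * ∏ i, x i ^ m i) ≤
      r * logHeight₁ (g.coeff m) + (∑ i, (m i : ℝ)) * T := by
    intro m _
    refine (logHeight₁_mul_le _ _).trans (add_le_add (ht_coeff r hr _) ?_)
    refine (logHeight₁_prod_le _ _).trans ?_
    rw [Finset.sum_mul]
    refine Finset.sum_le_sum fun i _ => ?_
    rw [logHeight₁_pow]
    exact mul_le_mul_of_nonneg_left (hx i) (Nat.cast_nonneg _)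
  have h5 : (totalWeight L : ℝ) * Real.log (g.support.card : ℝ) ≤ C0 := by
    rw [totalWeight_eq_finrank]
    exact mul_le_mul_of_nonneg_right (by exact_mod_cast hr) (Real.log_natCast_nonneg _)
  refine (add_le_add h5 (Finset.sum_le_sum h3)).trans ?_
  rw [Finset.sum_add_distrib, ← Finset.sum_mul, ← hC1, ← hC2]
  have h4 : 0 ≤ C1 * T := mul_nonneg h1 hT
  have h6 : 0 ≤ C0 * T := mul_nonneg h0 hT
  nlinarith

/-- heights of the values of forms of the same degree -/
theorem ht_forms {u g0 : ℕ} (Gf : Fin u → MvPolynomial (Fin (n + 1)) K)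
    (hG : ∀ i, (Gf i).IsHomogeneous g0) (r : ℕ) : ∃ C : ℝ, 0 ≤ C ∧
    ∀ (L : Type) [Field L] [NumberField L] [Algebra K L], Module.finrank ℚ L ≤ r →
      ∀ x : Fin (n + 1) → L,
        logHeight (fun i => MvPolynomial.aeval x (Gf i)) ≤ C * (1 + logHeight x) := by
  classical
  choose C hC0 hC using fun i => ht_form1 (Gf i) r
  refine ⟨∑ i, C i, Finset.sum_nonneg fun i _ => hC0 i, ?_⟩
  intro L _ _ _ hr x
  obtain ⟨c, x', hc, hx, hx'⟩ : ∃ (c : L) (x' : Fin (n + 1) → L), c ≠ 0 ∧ (∀ i, x i = c * x' i) ∧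
      ∀ i, logHeight₁ (x' i) ≤ logHeight x := by
    by_cases h0 : x = 0
    · refine ⟨1, 0, one_ne_zero, fun i => ?_, fun i => ?_⟩
      · rw [h0]
        simp
      · rw [Pi.zero_apply, logHeight₁_zero]
        exact logHeight_nonneg _
    · obtain ⟨i0, hi0⟩ := Function.ne_iff.1 h0
      have hi0' : x i0 ≠ 0 := hi0
      exact ⟨x i0, fun i => x i / x i0, hi0', fun i => by field_simp,
        fun i => logHeight₁_div_le x i i0⟩
  have h1 : (fun i => MvPolynomial.aeval x (Gf i)) =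
      fun i => c ^ g0 * MvPolynomial.aeval x' (Gf i) := by
    funext i
    have h2 : x = fun i => c * x' i := funext hx
    rw [h2, MvPolynomial.aeval_def, eval₂_smul _ _ g0 (hG i), ← MvPolynomial.aeval_def]
  rw [h1]
  have h2 : logHeight (fun i => c ^ g0 * MvPolynomial.aeval x' (Gf i)) =
      logHeight (fun i => MvPolynomial.aeval x' (Gf i)) :=
    logHeight_smul_eq_logHeight _ (pow_ne_zero _ hc)
  rw [h2]
  refine (logHeight_le_sum _).trans ?_
  rw [Finset.sum_mul]
  exact Finset.sum_le_sum fun i _ => hC i L hr x' _ (logHeight_nonneg _) hx'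

/-- the sum over the finite places -/
theorem ho_forms {w : ℕ} (F : Fin w → MvPolynomial (Fin (n + 1)) K) (r : ℕ) : ∃ C : ℝ, 0 ≤ C ∧
    ∀ (L : Type) [Field L] [NumberField L] [Algebra K L], Module.finrank ℚ L ≤ r →
      ∀ (x : Fin (n + 1) → L) (T : ℝ), 0 ≤ T → (∀ i, dn (x i) ≤ T) →
        (∃ j, MvPolynomial.aeval x (F j) ≠ 0) →
        ho (Si L) (fun j => MvPolynomial.aeval x (F j)) ≤ C * (1 + T) := by
  classical
  choose C hC0 hC using fun i => dn_form (F i) r
  refine ⟨∑ i, C i, Finset.sum_nonneg fun i _ => hC0 i, ?_⟩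
  rintro L _ _ _ hr x T hT hx ⟨j, hj⟩
  refine (ho_c1 _ (ne_of_coord (i := j) hj)).trans ?_
  rw [Finset.sum_mul]
  exact Finset.sum_le_sum fun i _ => hC i L hr x T hT hx

end Pool.Agent.D0H97.VV
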