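import Pool.Agent.D0H97.VV.Bw
import Pool.Agent.D0H97.VV.Sw

/-!
The inequality outside of a closed set.
-/

set_option autoImplicit false
set_option linter.unusedSectionVars false

namespace Pool.Agent.D0H97.VV

open NumberField IsDedekindDomain Height Filter Topology
open Pool.Agent.W180.OP (Pl av wt fv fv_support_finite wt_nonneg)
open Pool.Agent.K1H83.VN (Sc Sm L_pos two_le_exp const_of_finite abs_log_le' nm le_nm nm_le
  nm_nonneg nm_unit ho c1 ne_of_coord ne_of_one ho_mul_le prod_formula logHeight_split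
  logHeight_le_sum logHeight₁_div_le)
open Pool.Agent.D0H85.SP (pw pw_ne pw_add pw_neg pw_zero pw_zsmul pw_sum exists_basis eval₂_smul)
open Pool.Agent.D0H97.FT (Si hSi inr_Si mem_Si v10 dn nm_pair dn_nonneg dn_le_height dn_mul dn_add
  dn_neg ho_c1_le dg one_le_dg zz zz_inj lam inf_rat inf_nat dn_rat Coherent den_bound exists_lim
  Rp ht_nat)
open Pool.Agent.D0H97.FX
open Pool.Agent.D0H85.SQ (NoCentre)
open Pool.Agent.W602.GT (coords LogSec IsForm)

/-- coherent families of vectors -/
def CohF {N : ℕ} (𝒮 : Set (Fin N → ℕ)) : Prop :=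
  ∀ ε : ℝ, 0 < ε → ∃ ℓ₀ : ℝ, ∀ ℓ : ℝ, ℓ₀ ≤ ℓ → ∀ s ∈ 𝒮, ∃ d : ℕ, ∀ j, Real.log (s j) ≤ ℓ →
    ∃ e r : ℕ, s j = d ^ e * r ∧ Real.log r ≤ ε * ℓ

/-- points with coordinates which are polynomials in at most `c` coordinates of a vector -/
def Rq {k : Type} [Field k] [NumberField k] {n N : ℕ} (𝒮 : Set (Fin N → ℕ))
    (E : Finset (Fin N →₀ ℕ)) (c : ℕ) (T : ℝ) (x : Fin (n + 1) → k) : Prop :=
  ∃ (a : Fin (n + 1) → (Fin N →₀ ℕ) → k) (s : Fin N → ℕ), (∀ i q, logHeight₁ (a i q) ≤ T) ∧
    (∃ s0 ∈ 𝒮, ∀ j, s j ≠ 0 → s j = s0 j) ∧ (Finset.univ.filter fun j => s j ≠ 0).card ≤ c ∧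
    ∀ i, x i = ∑ q ∈ E, a i q * ∏ j, (s j : k) ^ q j

theorem Rq.rp {k : Type} [Field k] [NumberField k] {n N : ℕ} {𝒮 : Set (Fin N → ℕ)}
    {E : Finset (Fin N →₀ ℕ)} {c : ℕ} {T : ℝ} {x : Fin (n + 1) → k} (h : Rq 𝒮 E c T x) :
    Rp Set.univ E c T x := by
  obtain ⟨a, s, h1, -, h3, h4⟩ := h
  exact ⟨a, s, h1, fun _ _ => Set.mem_univ _, h3, h4⟩

/-- points of small height with coordinates of large size have large common divisors -/
theorem small_contra' {K : Type} [Field K] [NumberField K] {n w : ℕ} {Λ : ℕ → Type}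
    [∀ t, Field (Λ t)] [∀ t, NumberField (Λ t)] [Bdd Λ] {σ : Sc} [∀ t, Algebra K (Λ t)]
    (F : Fin w → MvPolynomial (Fin (n + 1)) K) (d : Fin w → ℕ) (hd : ∀ j, 0 < d j)
    (hF : ∀ j, (F j).IsHomogeneous (d j)) (x : Fin (n + 1) → ∀ t, Λ t)
    (hNI : ∀ i, gm σ (x i) ∈ NI Λ σ ∧
      (gm σ (x i) ∉ FF Λ σ → ∀ v : ∀ t, InfinitePlace (Λ t), 1 < vw σ v (gm σ (x i))))
    (hFx : ∃ j, gm σ (fun t => MvPolynomial.aeval (fun i => x i t) (F j)) ≠ 0)
    (hsm : Sm σ fun t => logHeight fun i => x i t)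
    (hho : Sm σ fun t => -ho (Si (Λ t)) (fun j => MvPolynomial.aeval (fun i => x i t) (F j)))
    (i1 : Fin (n + 1)) (hi1 : gm σ (x i1) ∉ FF Λ σ) : False := by
  have h10 : gm σ (x i1) ≠ 0 := by
    intro h0
    exact hi1 (by rw [h0]; exact (FF Λ σ).zero_mem)
  -- the ratios
  let z : Fin (n + 1) → G Λ σ := fun i => gm σ (x i) / gm σ (x i1)
  have hz : ∀ i, z i ∈ FF Λ σ := by
    intro i
    show gm σ (x i) / gm σ (x i1) ∈ FF Λ σ
    have h1 : gm σ (x i) / gm σ (x i1) = gm σ (fun t => x i t / x i1 t) := by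
      rw [div_eq_iff h10, ← map_mul]
      rw [gm_eq]
      filter_upwards [(gm_ne _).1 h10] with t ht
      show x i t = x i t / x i1 t * x i1 t
      rw [div_mul_cancel₀ _ ht]
    rw [h1, gm_mem_FF]
    exact hsm.mono (Eventually.of_forall fun t => logHeight₁_div_le (fun i => x i t) i i1)
  have hxz : ∀ i, gm σ (x i) = gm σ (x i1) * z i := by
    intro i
    show _ = gm σ (x i1) * (gm σ (x i) / gm σ (x i1))
    rw [mul_div_cancel₀ _ h10]
  have hval : ∀ j, gm σ (fun t => MvPolynomial.aeval (fun i => x i t) (F j)) =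
      gm σ (x i1) ^ d j * (F j).eval₂ (algebraMap K (G Λ σ)) z := by
    intro j
    rw [← eval_gm, MvPolynomial.aeval_def, ← eval₂_smul _ _ _ (hF j)]
    congr 1
    funext i
    exact hxz i
  have hzF : ∀ j, (F j).eval₂ (algebraMap K (G Λ σ)) z ∈ FF Λ σ := by
    intro j
    rw [MvPolynomial.eval₂_eq']
    exact Subring.sum_mem _ fun m _ => Subfield.mul_mem _ (alg_mem _)
      (Subfield.prod_mem _ fun i _ => Subfield.pow_mem _ (hz i) _)
  refine gcd_contra' (fun j => gm σ (fun t => MvPolynomial.aeval (fun i => x i t) (F j)))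
    (fun j => gm σ (x i1) ^ (d j - 1) * (F j).eval₂ (algebraMap K (G Λ σ)) z) (gm σ (x i1))
    (fun j => (NI Λ σ).mul_mem ((NI Λ σ).pow_mem (hNI i1).1 _) (FF_NI (hzF j))) ?_ hFx
    ((hNI i1).2 hi1) ?_
  · intro j
    show gm σ (fun t => MvPolynomial.aeval (fun i => x i t) (F j)) = gm σ (x i1) *
      (gm σ (x i1) ^ (d j - 1) * (F j).eval₂ (algebraMap K (G Λ σ)) z)
    rw [hval j, ← mul_assoc, ← pow_succ', Nat.sub_add_cancel (hd j)]
  · refine hho.mono ?_
    have h2 : ∀ᶠ t in (σ.𝒰 : Filter ℕ), ∀ j,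
        rep (gm σ (fun t => MvPolynomial.aeval (fun i => x i t) (F j))) t =
        MvPolynomial.aeval (fun i => x i t) (F j) := by
      rw [Filter.eventually_all]
      exact fun j => rep_gm _
    filter_upwards [h2] with t ht
    have h3 : (fun j => rep (gm σ (fun t => MvPolynomial.aeval (fun i => x i t) (F j))) t) =
        fun j => MvPolynomial.aeval (fun i => x i t) (F j) := funext ht
    rw [h3]

/-- **The bound.** -/
theorem boundW {K : Type} [Field K] [NumberField K] {N n w : ℕ} {𝒮 : Set (Fin N → ℕ)}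
    (hA : CohF 𝒮)
    {E : Type} [Field E] [Algebra K E] {p : ℕ}
    (hdim : Algebra.trdeg K E = p) {y : Fin (n + 1) → E} (hy : y ≠ 0) (hgen : coords K y = ⊤)
    (F : Fin w → MvPolynomial (Fin (n + 1)) K) (d : Fin w → ℕ) (hd : ∀ j, 0 < d j)
    (hF : ∀ j, (F j).IsHomogeneous (d j))
    {N0 : ℕ} (hN0 : 0 < N0) (kk : ℕ) {u g0 : ℕ} (ω : Fin u → (Fin p → Derivation K E E) → E)
    (hω : ∀ i, LogSecT K E p N0 kk (NoCentre F d y) y (ω i))
    (Gf : Fin u → MvPolynomial (Fin (n + 1)) K) (hG : ∀ i, (Gf i).IsHomogeneous g0)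
    (hrat : ∀ i j D, MvPolynomial.aeval y (Gf i) * ω j D = MvPolynomial.aeval y (Gf j) * ω i D)
    (hωne : ∃ i D, ω i D ≠ 0) (hGne : ∃ i, MvPolynomial.aeval y (Gf i) ≠ 0)
    (ε : ℝ) (hε : 0 < ε) (r : ℕ) (Ex : Finset (Fin N →₀ ℕ)) (c : ℕ) :
    ∃ (H : MvPolynomial (Fin (n + 1)) K) (e : ℕ), H.IsHomogeneous e ∧ MvPolynomial.aeval y H ≠ 0 ∧
      ∃ C : ℝ, ∀ (L : Type) [Field L] [NumberField L] [Algebra K L], Module.finrank ℚ L ≤ r →
        ∀ T : ℝ, 0 ≤ T → ∀ x : Fin (n + 1) → L, Rq 𝒮 Ex c T x →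
        (∃ j, MvPolynomial.aeval x (F j) ≠ 0) →
        (∀ g : MvPolynomial (Fin (n + 1)) K, (∃ e, g.IsHomogeneous e) →
          MvPolynomial.aeval y g = 0 → MvPolynomial.aeval x g = 0) →
        MvPolynomial.aeval x H ≠ 0 →
          logHeight (fun i => MvPolynomial.aeval x (Gf i)) +
            N0 * ho (Si L) (fun j => MvPolynomial.aeval x (F j)) -
            kk * (logHeight x - ho (Si L) x) ≤ ε * logHeight x + C * (1 + T) := by
  classical
  obtain ⟨C1, hC1, hht⟩ := ht_le n Ex r
  obtain ⟨CG, hCG, hGht⟩ := ht_forms Gf hG r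
  obtain ⟨CF, hCF, hFho⟩ := ho_forms F r
  set C3 : ℝ := CG * (1 + C1) + N0 * (CF * (1 + Ex.card)) + kk * ((n + 1) * Ex.card) + 1 with hC3
  have hC30 : 0 < C3 := by positivity
  have hox : ∀ (c : ℕ) (L : Type) [Field L] [NumberField L] [Algebra K L] (T : ℝ)
      (x : Fin (n + 1) → L), Rq 𝒮 Ex c T x → (∃ j, MvPolynomial.aeval x (F j) ≠ 0) →
      ho (Si L) x ≤ (n + 1) * Ex.card * T := by
    intro c L _ _ _ T x hx hFx
    have hx0 : x ≠ 0 := by
      rintro rfl
      obtain ⟨j, hj⟩ := hFx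
      apply hj
      rw [MvPolynomial.aeval_def]
      exact Pool.Agent.D0H97.FT.zero_form _ (F j) (d j) (hd j) (hF j) _ fun i => rfl
    refine (ho_c1 x hx0).trans ((Finset.sum_le_sum fun i _ => dn_Rp hx.rp i).trans (le_of_eq ?_))
    rw [Finset.sum_const, Finset.card_univ, Fintype.card_fin, nsmul_eq_mul]
    push_cast
    ring
  have hbase : ∀ (c : ℕ) (L : Type) [Field L] [NumberField L] [Algebra K L],
      Module.finrank ℚ L ≤ r → ∀ (T ℓ : ℝ), 0 ≤ T → 0 ≤ ℓ → ∀ x : Fin (n + 1) → L,
      Rq 𝒮 Ex c T x → (∃ j, MvPolynomial.aeval x (F j) ≠ 0) → logHeight x ≤ C1 * (1 + T + ℓ) →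
      logHeight (fun i => MvPolynomial.aeval x (Gf i)) +
        N0 * ho (Si L) (fun j => MvPolynomial.aeval x (F j)) -
        kk * (logHeight x - ho (Si L) x) ≤ C3 * (1 + T + ℓ) := by
    intro c L _ _ _ hr T ℓ hT hℓ x hx hFx hxl
    have h0 : (kk : ℝ) * -(logHeight x - ho (Si L) x) ≤
        kk * ((n + 1) * Ex.card * (1 + T + ℓ)) := by
      refine mul_le_mul_of_nonneg_left ?_ (Nat.cast_nonneg _)
      have e1 := hox c L T x hx hFx
      have e2 := logHeight_nonneg x
      have e3 : (0 : ℝ) ≤ (n + 1) * Ex.card := by positivity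
      nlinarith [mul_nonneg e3 hℓ]
    have h1 := hGht L hr x
    have h2 := hFho L hr x (Ex.card * T) (by positivity) (fun i => dn_Rp hx.rp i) hFx
    have h3 : CG * (1 + logHeight x) ≤ CG * (1 + C1) * (1 + T + ℓ) := by
      rw [mul_assoc]
      refine mul_le_mul_of_nonneg_left ?_ hCG
      nlinarith
    have h4 : CF * (1 + Ex.card * T) ≤ CF * (1 + Ex.card) * (1 + T + ℓ) := by
      rw [mul_assoc]
      refine mul_le_mul_of_nonneg_left ?_ hCF
      have h5 : (0 : ℝ) ≤ Ex.card := Nat.cast_nonneg _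
      nlinarith [mul_nonneg h5 hℓ]
    have h5 : (N0 : ℝ) * ho (Si L) (fun j => MvPolynomial.aeval x (F j)) ≤
        N0 * (CF * (1 + Ex.card) * (1 + T + ℓ)) :=
      mul_le_mul_of_nonneg_left (h2.trans h4) (Nat.cast_nonneg _)
    have h6 : C3 * (1 + T + ℓ) = CG * (1 + C1) * (1 + T + ℓ) +
        N0 * (CF * (1 + Ex.card) * (1 + T + ℓ)) + kk * ((n + 1) * Ex.card * (1 + T + ℓ)) +
          (1 + T + ℓ) := by
      rw [hC3]
      ring
    linarith
  induction c with
  | zero =>
    refine ⟨1, 0, MvPolynomial.isHomogeneous_one _ _, by rw [map_one]; exact one_ne_zero, C3, ?_⟩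
    intro L _ _ _ hr T hT x hx hFx _ _
    have hx' := hx
    obtain ⟨a, s, ha, -, hc, hxs⟩ := hx
    have h1 : ∀ j, s j = 0 := by
      intro j
      by_contra h
      have h2 : j ∈ Finset.univ.filter fun j => s j ≠ 0 :=
        Finset.mem_filter.2 ⟨Finset.mem_univ _, h⟩
      have h3 := Finset.card_pos.2 ⟨j, h2⟩
      omega
    have h2 := hht L hr T 0 hT le_rfl x a s ha (fun j => by rw [h1 j]; simp) hxs
    have h3 := hbase 0 L hr T 0 hT le_rfl x hx' hFx h2
    rw [add_zero] at h3
    have h4 : 0 ≤ ε * logHeight x := mul_nonneg hε.le (logHeight_nonneg _)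
    linarith
  | succ c ih =>
    obtain ⟨H', e', hH', hHy', C', hC'⟩ := ih
    by_contra hcon
    push Not at hcon
    -- the forms which do not vanish on the variety
    let Fm := {H : MvPolynomial (Fin (n + 1)) K // (∃ e, H.IsHomogeneous e) ∧
      MvPolynomial.aeval y H ≠ 0}
    have hcK : Countable K := by
      rw [← Cardinal.mk_le_aleph0_iff]
      have h := Algebra.IsAlgebraic.cardinalMk_le_max ℚ K
      simpa using h
    have hcF : Countable (MvPolynomial (Fin (n + 1)) K) := by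
      rw [← Cardinal.mk_le_aleph0_iff]
      refine (MvPolynomial.cardinalMk_le_max (σ := Fin (n + 1)) (R := K)).trans ?_
      simp
    have hne : Nonempty Fm := ⟨⟨1, ⟨0, MvPolynomial.isHomogeneous_one _ _⟩, by
      rw [map_one]; exact one_ne_zero⟩⟩
    obtain ⟨f, hf⟩ := exists_surjective_nat Fm
    choose ef hef using fun m => (f m).2.1
    let Hm : ℕ → MvPolynomial (Fin (n + 1)) K := fun m =>
      (∏ i ∈ Finset.range (m + 1), (f i).1) * H'
    have hHm : ∀ m, (Hm m).IsHomogeneous (∑ i ∈ Finset.range (m + 1), ef i + e') := fun m =>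
      (MvPolynomial.IsHomogeneous.prod _ _ _ fun i _ => hef i).mul hH'
    have hHy : ∀ m, MvPolynomial.aeval y (Hm m) ≠ 0 := by
      intro m
      show MvPolynomial.aeval y ((∏ i ∈ Finset.range (m + 1), (f i).1) * H') ≠ 0
      rw [map_mul, map_prod]
      exact mul_ne_zero (Finset.prod_ne_zero_iff.2 fun i _ => (f i).2.2) hHy'
    choose Λ i1 i2 i3 hr T hT x hR hFx hV hHx hlt using fun t : ℕ =>
      hcon (Hm t) _ (hHm t) (hHy t) (t : ℝ)
    have hR' := hR
    have hbdd : Bdd Λ := ⟨⟨r, hr⟩⟩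
    choose a s ha hsA hcard hx using hR
    let ℓ : ℕ → ℝ := fun t => Real.log ((Finset.univ.sup (s t) : ℕ) : ℝ)
    have hsl : ∀ t j, s t j ≤ Finset.univ.sup (s t) := fun t j => Finset.le_sup (Finset.mem_univ j)
    have hℓ0 : ∀ t, 0 ≤ ℓ t := fun t => Real.log_natCast_nonneg _
    have hlogs : ∀ t j, Real.log (s t j) ≤ ℓ t := by
      intro t j
      rcases Nat.eq_zero_or_pos (s t j) with h | h
      · rw [h, Nat.cast_zero, Real.log_zero]
        exact hℓ0 t
      · exact Real.log_le_log (by exact_mod_cast h) (by exact_mod_cast hsl t j)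
    have hkey : ∀ t : ℕ, ((t : ℝ) - C3) * (1 + T t) < C3 * ℓ t := by
      intro t
      have h1 := hbase _ (Λ t) (hr t) (T t) (ℓ t) (hT t) (hℓ0 t) (x t) (hR' t) (hFx t)
        (hht (Λ t) (hr t) (T t) (ℓ t) (hT t) (hℓ0 t) (x t) (a t) (s t) (ha t) (hlogs t) (hx t))
      have h2 := hlt t
      have h0 : 0 ≤ ε * logHeight (x t) := mul_nonneg hε.le (logHeight_nonneg _)
      have h3 : (t : ℝ) * (1 + T t) < C3 * (1 + T t + ℓ t) := by linarith
      have h4 : ((t : ℝ) - C3) * (1 + T t) = (t : ℝ) * (1 + T t) - C3 * (1 + T t) := by ring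
      have h5 : C3 * (1 + T t + ℓ t) = C3 * (1 + T t) + C3 * ℓ t := by ring
      linarith
    have hlim : Tendsto ℓ (hyperfilter ℕ : Filter ℕ) atTop := by
      refine Tendsto.mono_left ?_ Nat.hyperfilter_le_atTop
      have h1 : Tendsto (fun t : ℕ => ((t : ℝ) - C3) / C3) atTop atTop :=
        (tendsto_atTop_add_const_right _ (-C3) tendsto_natCast_atTop_atTop).atTop_div_const hC30
      refine tendsto_atTop_mono (fun t => ?_) h1
      rw [div_le_iff₀ hC30, mul_comm]
      rcases le_total (t : ℝ) C3 with h2 | h2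
      · have := mul_nonneg hC30.le (hℓ0 t)
        linarith
      · have h3 : ((t : ℝ) - C3) * 1 ≤ ((t : ℝ) - C3) * (1 + T t) :=
          mul_le_mul_of_nonneg_left (by linarith [hT t]) (by linarith)
        linarith [hkey t]
    let σ : Sc := ⟨hyperfilter ℕ, ℓ, hlim⟩
    have hT' : Sm σ T := by
      intro ε hε
      have h1 : ∀ᶠ t : ℕ in (hyperfilter ℕ : Filter ℕ), C3 / ε + C3 ≤ (t : ℝ) :=
        Nat.hyperfilter_le_atTop (tendsto_natCast_atTop_atTop.eventually_ge_atTop _)
      have h2 : ∀ᶠ t : ℕ in (hyperfilter ℕ : Filter ℕ), T t ≤ ε * ℓ t := by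
        filter_upwards [h1] with t ht
        have h3 : C3 / ε * T t ≤ ((t : ℝ) - C3) * (1 + T t) := by
          have h4 : C3 / ε ≤ (t : ℝ) - C3 := by linarith
          have h5 : 0 ≤ C3 / ε := by positivity
          exact mul_le_mul h4 (by linarith [hT t]) (hT t) (by linarith)
        have h4 : C3 / ε * T t ≤ C3 * ℓ t := h3.trans (hkey t).le
        have h5 : T t / ε ≤ ℓ t := by
          have h6 : C3 / ε * T t = C3 * (T t / ε) := by ring
          rw [h6] at h4
          exact le_of_mul_le_mul_left h4 hC30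
        rw [div_le_iff₀ hε] at h5
        linarith
      exact h2
    have hpos : ∀ᶠ t in (σ.𝒰 : Filter ℕ), 0 < ℓ t := L_pos (σ := σ)
    -- the zero pattern
    obtain ⟨Z, -, hZ⟩ := const_of_finite (σ := σ)
      (fun t => Finset.univ.filter fun j => s t j = 0) Set.univ Set.finite_univ
      (Eventually.of_forall fun _ => Set.mem_univ _)
    have hZj : ∀ᶠ t in (σ.𝒰 : Filter ℕ), ∀ j, s t j = 0 ↔ j ∈ Z := by
      filter_upwards [hZ] with t ht j
      rw [← ht, Finset.mem_filter]
      exact ⟨fun h => ⟨Finset.mem_univ _, h⟩, fun h => h.2⟩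
    let s' : Fin N → ℕ → ℕ := fun j t => if s t j = 0 then 1 else s t j
    have hs'0 : ∀ j t, s' j t ≠ 0 := by
      intro j t
      show (if s t j = 0 then 1 else s t j) ≠ 0
      split_ifs with h
      · exact one_ne_zero
      · exact h
    have hs'C : Co σ s' := by
      intro ε' hε'
      obtain ⟨ℓ₀, h⟩ := hA ε' hε'
      filter_upwards [σ.lim.eventually_ge_atTop ℓ₀, hpos] with t h1 h2
      obtain ⟨s0, hs0, h3⟩ := hsA t
      obtain ⟨d', hd'⟩ := h (σ.L t) h1 s0 hs0
      refine ⟨d', fun j => ?_⟩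
      by_cases hj : s t j = 0
      · refine ⟨0, 1, ?_, ?_⟩
        · show (if s t j = 0 then 1 else s t j) = _
          rw [if_pos hj]
          simp
        · rw [Nat.cast_one, Real.log_one]
          have h4 : 0 < σ.L t := h2
          positivity
      · have h4 : s' j t = s0 j := by
          show (if s t j = 0 then 1 else s t j) = _
          rw [if_neg hj]
          exact h3 j hj
        rw [h4]
        apply hd' j
        rw [← h3 j hj]
        exact hlogs t j
    have hs'L : ∀ᶠ t in (σ.𝒰 : Filter ℕ), ∀ j, Real.log (s' j t) ≤ σ.L t := by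
      refine Eventually.of_forall fun t j => ?_
      show Real.log (((if s t j = 0 then 1 else s t j : ℕ)) : ℝ) ≤ ℓ t
      split_ifs with h
      · rw [Nat.cast_one, Real.log_one]
        exact hℓ0 t
      · exact hlogs t j
    have hN : Nonempty (Fin N) := by
      by_contra hne
      rw [not_nonempty_iff] at hne
      obtain ⟨t, ht⟩ := hpos.exists
      have h1 : ℓ t = 0 := by
        show Real.log ((Finset.univ.sup (s t) : ℕ) : ℝ) = 0
        rw [Finset.univ_eq_empty, Finset.sup_empty]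
        simp
      rw [h1] at ht
      exact lt_irrefl _ ht
    obtain ⟨j0, hj0⟩ := exists_max (σ := σ) fun (j : Fin N) t => (s t j : ℝ)
    have hj0l : ∀ᶠ t in (σ.𝒰 : Filter ℕ), s t j0 ≠ 0 ∧ Real.log (s t j0) = ℓ t := by
      filter_upwards [hj0, hpos] with t h1 h2
      have h3 : Finset.univ.sup (s t) = s t j0 :=
        le_antisymm (Finset.sup_le fun j _ => by exact_mod_cast h1 j) (hsl t j0)
      have h4 : Real.log (s t j0) = ℓ t := by
        show _ = Real.log ((Finset.univ.sup (s t) : ℕ) : ℝ)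
        rw [h3]
      refine ⟨fun h5 => ?_, h4⟩
      rw [h5, Nat.cast_zero, Real.log_zero] at h4
      linarith
    have hj0s : ¬ Sm σ fun t => Real.log (s' j0 t) := by
      intro h
      obtain ⟨t, h1, ⟨h2, h3⟩, h4⟩ := ((h (1 / 2) (by norm_num)).and (hj0l.and hpos)).exists
      have h5 : s' j0 t = s t j0 := if_neg h2
      have h6 : Real.log (s' j0 t) ≤ 1 / 2 * ℓ t := h1
      rw [h5, h3] at h6
      linarith
    let E' : Finset (Fin N →₀ ℕ) := Ex.filter fun q => ∀ j ∈ Z, q j = 0
    have hE' : ∀ (t : ℕ) (b : (Fin N →₀ ℕ) → Λ t) (s1 s2 : Fin N → ℕ), (∀ j ∈ Z, s1 j = 0) →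
        (∀ j, j ∉ Z → s1 j = s2 j) → ∑ q ∈ Ex, b q * ∏ j, (s1 j : Λ t) ^ q j =
          ∑ q : E', b q.1 * ∏ j, (s2 j : Λ t) ^ q.1 j := by
      intro t b s1 s2 h1 h2
      rw [Finset.sum_coe_sort E' fun q => b q * ∏ j, (s2 j : Λ t) ^ q j, Finset.sum_filter]
      refine Finset.sum_congr rfl fun q _ => ?_
      split_ifs with h3
      · congr 1
        refine Finset.prod_congr rfl fun j _ => ?_
        by_cases hj : j ∈ Z
        · rw [h3 j hj, pow_zero, pow_zero]
        · rw [h2 j hj]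
      · push Not at h3
        obtain ⟨j, hj, hqj⟩ := h3
        rw [Finset.prod_eq_zero (Finset.mem_univ j), mul_zero]
        rw [h1 j hj, Nat.cast_zero, zero_pow hqj]
    have hFx' : ∃ j, gm σ (fun t => MvPolynomial.aeval (fun i => x t i) (F j)) ≠ 0 := by
      choose jt hjt using hFx
      obtain ⟨j1, -, hj1⟩ := const_of_finite (σ := σ) jt Set.univ Set.finite_univ
        (Eventually.of_forall fun _ => Set.mem_univ _)
      refine ⟨j1, ?_⟩
      rw [gm_ne]
      filter_upwards [hj1] with t ht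
      rw [← ht]
      exact hjt t
    have hdens : ∀ g : MvPolynomial (Fin (n + 1)) K, (∃ d, g.IsHomogeneous d) →
        (MvPolynomial.aeval y g = 0 ↔
          ∀ᶠ t in (σ.𝒰 : Filter ℕ), MvPolynomial.aeval (fun i => x t i) g = 0) := by
      rintro g ⟨d, hd⟩
      constructor
      · intro h0
        exact Eventually.of_forall fun t => hV t g ⟨d, hd⟩ h0
      · intro h0
        by_contra hg0
        obtain ⟨m0, hm0⟩ := hf ⟨g, ⟨d, hd⟩, hg0⟩
        have h5 : ∀ᶠ t : ℕ in (σ.𝒰 : Filter ℕ), m0 ≤ t :=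
          Nat.hyperfilter_le_atTop (eventually_ge_atTop m0)
        obtain ⟨t, h6, h7⟩ := (h0.and h5).exists
        apply hHx t
        show MvPolynomial.aeval (x t) ((∏ i ∈ Finset.range (t + 1), (f i).1) * H') = 0
        rw [map_mul, map_prod]
        refine mul_eq_zero_of_left ?_ _
        refine Finset.prod_eq_zero (Finset.mem_range.2 (Nat.lt_succ_of_le h7)) ?_
        rw [hm0]
        exact h6
    obtain ⟨hineq, hNI, helim⟩ := stepW (σ := σ) (Λ := Λ) hdim hy hgen F d hF hN0 kk ω
      hω Gf hG hrat hωne hGne (fun i t => x t i)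
      (fun i (q : E') t => a t i q.1) (fun q j => q.1 j) s' hs'0 hs'C hs'L
      (fun i q => hT'.mono (Eventually.of_forall fun t => ha t i q.1))
      (fun i => by
        filter_upwards [hZj] with t ht
        rw [hx t i]
        refine hE' t (a t i) (s t) (fun j => s' j t) (fun j hj => (ht j).2 hj) fun j hj => ?_
        show s t j = if s t j = 0 then 1 else s t j
        rw [if_neg fun h => hj ((ht j).1 h)])
      hdens hFx' j0 hj0s
    by_cases hall : ∀ i, gm σ (fun t => x t i) ∈ FF Λ σ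
    swap
    · push Not at hall
      obtain ⟨i1, hi1⟩ := hall
      have hlt' : ∀ t, ε * logHeight (x t) <
          logHeight (fun i => MvPolynomial.aeval (x t) (Gf i)) +
            N0 * ho (Si (Λ t)) (fun j => MvPolynomial.aeval (x t) (F j)) -
            kk * (logHeight (x t) - ho (Si (Λ t)) (x t)) := by
        intro t
        have h1 := hlt t
        have h2 : 0 ≤ (t : ℝ) * (1 + T t) :=
          mul_nonneg (Nat.cast_nonneg _) (by linarith [hT t])
        linarith
      by_cases hsm : Sm σ fun t => logHeight fun i => x t i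
      · refine small_contra' F d hd hF (fun i t => x t i) hNI hFx' hsm ?_ i1 hi1
        have h1 : Sm σ fun t => CG * (1 + logHeight fun i => x t i) := by
          intro ε' hε'
          have h2 := (Sm.const (σ := σ) CG) (ε' / 2) (by positivity)
          filter_upwards [h2, hsm (ε' / (2 * (CG + 1))) (by positivity), L_pos (σ := σ)]
            with t e1 e2 e3
          have e4 : CG * logHeight (fun i => x t i) ≤ (CG + 1) * (ε' / (2 * (CG + 1)) * σ.L t) :=
            mul_le_mul (by linarith) e2 (logHeight_nonneg _) (by linarith)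
          have e5 : (CG + 1) * (ε' / (2 * (CG + 1)) * σ.L t) = ε' / 2 * σ.L t := by
            field_simp
          have e6 : CG * (1 + logHeight fun i => x t i) = CG + CG * logHeight (fun i => x t i) := by
            ring
          rw [e6]
          linarith
        have h11 : Sm σ fun t => kk * ((n + 1) * Ex.card) * T t := by
          intro ε' hε'
          set B : ℝ := kk * ((n + 1) * Ex.card) with hB
          have hB0 : 0 ≤ B := by positivity
          filter_upwards [hT' (ε' / (B + 1)) (by positivity), L_pos (σ := σ)] with t e1 e2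
          have e3 : B * T t ≤ (B + 1) * (ε' / (B + 1) * σ.L t) :=
            mul_le_mul (by linarith) e1 (hT t) (by linarith)
          have e4 : (B + 1) * (ε' / (B + 1) * σ.L t) = ε' * σ.L t := by
            field_simp
          linarith
        refine (h1.add h11).mono (Eventually.of_forall fun t => ?_)
        have h2 := hlt' t
        have h3 := hGht (Λ t) (hr t) (x t)
        have h4 : 0 ≤ ε * logHeight (x t) := mul_nonneg hε.le (logHeight_nonneg _)
        have h44 : 0 ≤ (kk : ℝ) * logHeight (x t) :=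
          mul_nonneg (Nat.cast_nonneg _) (logHeight_nonneg _)
        have h45 : (kk : ℝ) * ho (Si (Λ t)) (x t) ≤ kk * ((n + 1) * Ex.card) * T t := by
          rw [mul_assoc]
          exact mul_le_mul_of_nonneg_left (hox _ (Λ t) (T t) (x t) (hR' t) (hFx t))
            (Nat.cast_nonneg _)
        have h46 : 0 ≤ (kk : ℝ) * ((n + 1) * Ex.card) * T t :=
          mul_nonneg (by positivity) (hT t)
        show -ho (Si (Λ t)) (fun j => MvPolynomial.aeval (x t) (F j)) ≤
          CG * (1 + logHeight (x t)) + kk * ((n + 1) * Ex.card) * T t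
        have h5 : -(N0 * ho (Si (Λ t)) (fun j => MvPolynomial.aeval (x t) (F j))) ≤
          CG * (1 + logHeight (x t)) + kk * ((n + 1) * Ex.card) * T t := by
          have h47 : (kk : ℝ) * (logHeight (x t) - ho (Si (Λ t)) (x t)) =
            kk * logHeight (x t) - kk * ho (Si (Λ t)) (x t) := by ring
          linarith
        have h6 : (1 : ℝ) ≤ N0 := by exact_mod_cast hN0
        rcases le_total 0 (-ho (Si (Λ t)) (fun j => MvPolynomial.aeval (x t) (F j))) with h7 | h7
        · have h8 : -ho (Si (Λ t)) (fun j => MvPolynomial.aeval (x t) (F j)) ≤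
              N0 * -ho (Si (Λ t)) (fun j => MvPolynomial.aeval (x t) (F j)) :=
            le_mul_of_one_le_left h7 h6
          have h9 : (N0 : ℝ) * -ho (Si (Λ t)) (fun j => MvPolynomial.aeval (x t) (F j)) =
            -(N0 * ho (Si (Λ t)) (fun j => MvPolynomial.aeval (x t) (F j))) := by ring
          linarith
        · exact h7.trans (add_nonneg (mul_nonneg hCG (by linarith [logHeight_nonneg (x t)])) h46)
      · have h1 : ∃ δ : ℝ, 0 < δ ∧ ¬ ∀ᶠ t in (σ.𝒰 : Filter ℕ),
            logHeight (fun i => x t i) ≤ δ * σ.L t := by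
          by_contra hno
          push Not at hno
          exact hsm fun δ hδ => hno δ hδ
        obtain ⟨δ, hδ, h1⟩ := h1
        rw [← Ultrafilter.eventually_not] at h1
        obtain ⟨t, h2, h3⟩ := (h1.and (hineq (ε * δ) (by positivity))).exists
        push Not at h2
        have h4 := hlt' t
        have h5 : logHeight (fun i => MvPolynomial.aeval (x t) (Gf i)) +
            N0 * ho (Si (Λ t)) (fun j => MvPolynomial.aeval (x t) (F j)) -
            kk * (logHeight (x t) - ho (Si (Λ t)) (x t)) ≤ ε * δ * σ.L t := h3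
        have h6 : ε * (δ * σ.L t) < ε * logHeight (x t) := mul_lt_mul_of_pos_left h2 hε
        linarith
    obtain ⟨J, hJ, hJx⟩ := helim hall
    have hlarge : ∀ᶠ t : ℕ in (σ.𝒰 : Filter ℕ), C' ≤ (t : ℝ) :=
      Nat.hyperfilter_le_atTop (tendsto_natCast_atTop_atTop.eventually_ge_atTop _)
    obtain ⟨t, h1, h2, h3, h4, -⟩ := (hJx.and (hZj.and (hj0l.and hlarge))).exists.imp
      fun t h => (⟨h.1, h.2.1, h.2.2.1, h.2.2.2, trivial⟩ : _ ∧ _ ∧ _ ∧ _ ∧ True)
    have h5 : Rq 𝒮 Ex c (T t) (x t) := by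
      refine ⟨a t, fun j => if j ∈ J then 0 else s t j, ha t, ?_, ?_, ?_⟩
      · obtain ⟨s0, hs0, h3'⟩ := hsA t
        refine ⟨s0, hs0, fun j hj => ?_⟩
        have h6 : (if j ∈ J then 0 else s t j) ≠ 0 := hj
        show (if j ∈ J then 0 else s t j) = s0 j
        split_ifs at h6 ⊢ with h7
        · exact absurd rfl h6
        · exact h3' j h6
      · have h6 : (Finset.univ.filter fun j => (if j ∈ J then 0 else s t j) ≠ 0) ⊆
            (Finset.univ.filter fun j => s t j ≠ 0).erase j0 := by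
          intro j hj
          have h7 := (Finset.mem_filter.1 hj).2
          rw [Finset.mem_erase, Finset.mem_filter]
          by_cases hjJ : j ∈ J
          · rw [if_pos hjJ] at h7
            exact absurd rfl h7
          · rw [if_neg hjJ] at h7
            exact ⟨fun h8 => hjJ (h8 ▸ hJ), Finset.mem_univ _, h7⟩
        have h7 := Finset.card_le_card h6
        have h9 : j0 ∈ Finset.univ.filter fun j => s t j ≠ 0 :=
          Finset.mem_filter.2 ⟨Finset.mem_univ _, h3.1⟩
        rw [Finset.card_erase_of_mem h9] at h7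
        have h8 := hcard t
        show (Finset.univ.filter fun j => (if j ∈ J then 0 else s t j) ≠ 0).card ≤ c
        omega
      · intro i
        have h6 := h1 i
        rw [h6]
        symm
        refine hE' t (a t i) _ _ (fun j hj => ?_) fun j hj => ?_
        · by_cases hjJ : j ∈ J
          · rw [if_pos hjJ]
          · rw [if_neg hjJ]
            exact (h2 j).2 hj
        · by_cases hjJ : j ∈ J
          · rw [if_pos hjJ, if_pos hjJ]
          · rw [if_neg hjJ, if_neg hjJ]
            show s t j = if s t j = 0 then 1 else s t j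
            rw [if_neg fun h => hj ((h2 j).1 h)]
    have hH'x : MvPolynomial.aeval (x t) H' ≠ 0 := by
      intro h0
      apply hHx t
      show MvPolynomial.aeval (x t) ((∏ i ∈ Finset.range (t + 1), (f i).1) * H') = 0
      rw [map_mul, h0, mul_zero]
    have h6 := hC' (Λ t) (hr t) (T t) (hT t) (x t) h5 (hFx t) (hV t) hH'x
    have h7 := hlt t
    have h8 : C' * (1 + T t) ≤ t * (1 + T t) :=
      mul_le_mul_of_nonneg_right h4 (by linarith [hT t])
    linarith

end Pool.Agent.D0H97.VV
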