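import Pool.Agent.D0H97.FX.Bt

/-!
Bases for the germs of coherent sequences of vectors.
-/

set_option autoImplicit false
set_option linter.unusedSectionVars false

namespace Pool.Agent.D0H97.VV

open NumberField IsDedekindDomain Height Filter Topology
open Pool.Agent.W180.OP (Pl av wt fv fv_support_finite wt_nonneg)
open Pool.Agent.K1H83.VN (Sc Sm L_pos two_le_exp const_of_finite abs_log_le' nm le_nm nm_le
  nm_nonneg nm_unit ho c1 ne_of_coord ne_of_one ho_mul_le prod_formula logHeight_split)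
open Pool.Agent.D0H85.SP (pw pw_ne pw_add pw_neg pw_zero pw_zsmul pw_sum exists_basis)
open Pool.Agent.D0H97.FT (Si hSi inr_Si mem_Si v10 dn nm_pair dn_nonneg dn_le_height dn_mul dn_add
  dn_neg ho_c1_le dg one_le_dg zz zz_inj lam inf_rat inf_nat dn_rat den_bound exists_lim)
open Pool.Agent.D0H97.FX

section coh

variable {Λ : ℕ → Type} [∀ t, Field (Λ t)] [∀ t, NumberField (Λ t)] {σ : Sc} {N : ℕ} [Bdd Λ]

/-- coherent sequences of vectors -/
def Co (σ : Sc) (s : Fin N → ℕ → ℕ) : Prop :=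
  ∀ ε : ℝ, 0 < ε → ∀ᶠ t in (σ.𝒰 : Filter ℕ), ∃ d : ℕ, ∀ j, ∃ e r : ℕ, s j t = d ^ e * r ∧
    Real.log r ≤ ε * σ.L t

/-- near integers -/
theorem near_gs (s : Fin N → ℕ → ℕ) (hA : Co σ s) (hs : ∀ j t, s j t ≠ 0)
    (a : Fin N → ℤ) (h : Sm σ fun t => -lam s a t) : pw (gs Λ σ s) a ∈ NI Λ σ := by
  rw [pw_gs s hs a]
  apply gm_mem_NI
  intro ε hε
  obtain ⟨r0, hr0, hr0'⟩ := exists_dg (Λ := Λ)
  set C : ℝ := r0 * (2 * (∑ j, |(a j : ℝ)|) + 1) with hC
  have hS0 : 0 ≤ ∑ j, |(a j : ℝ)| := Finset.sum_nonneg fun j _ => abs_nonneg _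
  have hC0 : 0 < C := by
    rw [hC]
    positivity
  filter_upwards [hA (ε / C) (by positivity), h (ε / C) (by positivity), L_pos (σ := σ)]
    with t h1 h2 h3
  obtain ⟨d, hd⟩ := h1
  choose e r her hr using hd
  have h5 := den_bound (fun j => s j t) e r d (fun j => hs j t) her a (ε / C) (σ.L t)
    (by positivity) hr h2
  refine (dn_rat _).trans ?_
  calc dg (Λ t) * Real.log ((∏ j, (s j t : ℚ) ^ a j).den : ℝ)
      ≤ r0 * ((2 * (∑ j, |(a j : ℝ)|) + 1) * (ε / C * σ.L t)) :=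
        mul_le_mul (hr0' t) h5 (Real.log_natCast_nonneg _) hr0.le
    _ = C * (ε / C * σ.L t) := by rw [hC]; ring
    _ = ε * σ.L t := by field_simp

theorem FF_gs (s : Fin N → ℕ → ℕ) (hA : Co σ s) (hs : ∀ j t, s j t ≠ 0)
    (a : Fin N → ℤ) (h : Sm σ fun t => -lam s a t) (h' : Sm σ (lam s a)) :
    pw (gs Λ σ s) a ∈ FF Λ σ :=
  FF_of_NI (near_gs s hA hs a h) fun w => vw_gs_le s hs a h' w

/-- **Bases.** -/
theorem exists_bet (s : Fin N → ℕ → ℕ) (hA : Co σ s) (hs : ∀ j t, s j t ≠ 0)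
    (hL : ∀ᶠ t in (σ.𝒰 : Filter ℕ), ∀ j, Real.log (s j t) ≤ σ.L t) :
    ∃ (r : ℕ) (e : Fin r → G Λ σ) (β : Fin r → ℝ) (m : Fin N → Fin r → ℤ), Bet e β ∧
      (∀ j, gs Λ σ s j / pw e (m j) ∈ FF Λ σ) ∧ (∀ j, 0 ≤ ∑ i, (m j i : ℝ) * β i) ∧
      ∀ j, m j = 0 → gs Λ σ s j ∈ FF Λ σ := by
  classical
  set U : Fin N → G Λ σ := gs Λ σ s with hU
  have hU0 : ∀ j, U j ≠ 0 := gs_ne s hs
  obtain ⟨r, b, m, hind, hm⟩ := exists_basis U hU0 (FF Λ σ) fun x n hn h => root_mem x n hn h
  -- limits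
  have hlamb : ∀ i, ∀ᶠ t in (σ.𝒰 : Filter ℕ), |lam s (b i) t / σ.L t| ≤ ∑ j, |(b i j : ℝ)| := by
    intro i
    filter_upwards [hL, L_pos (σ := σ)] with t h1 h2
    rw [abs_div, abs_of_pos h2, div_le_iff₀ h2, Finset.sum_mul]
    unfold lam
    refine (Finset.abs_sum_le_sum_abs _ _).trans (Finset.sum_le_sum fun j _ => ?_)
    rw [abs_mul]
    refine mul_le_mul_of_nonneg_left ?_ (abs_nonneg _)
    rw [abs_of_nonneg (Real.log_natCast_nonneg _)]
    exact h1 j
  choose γ hγ using fun i => exists_lim (σ := σ) (fun t => lam s (b i) t / σ.L t) _ (hlamb i)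
  -- combinations
  have hcomb : ∀ a : Fin r → ℤ, Tendsto (fun t => lam s (∑ i, a i • b i) t / σ.L t)
      (σ.𝒰 : Filter ℕ) (𝓝 (∑ i, (a i : ℝ) * γ i)) := by
    intro a
    have h1 : (fun t => lam s (∑ i, a i • b i) t / σ.L t) =
        fun t => ∑ i, (a i : ℝ) * (lam s (b i) t / σ.L t) := by
      funext t
      unfold lam
      have h2 : ∑ j, (((∑ i, a i • b i) j : ℤ) : ℝ) * Real.log (s j t) =
          ∑ i, (a i : ℝ) * ∑ j, (b i j : ℝ) * Real.log (s j t) := by
        simp only [Finset.mul_sum]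
        rw [Finset.sum_comm]
        refine Finset.sum_congr rfl fun j _ => ?_
        rw [Finset.sum_apply]
        push_cast
        rw [Finset.sum_mul]
        refine Finset.sum_congr rfl fun i _ => ?_
        rw [Pi.smul_apply, smul_eq_mul]
        push_cast
        ring
      rw [h2, Finset.sum_div]
      exact Finset.sum_congr rfl fun i _ => by rw [mul_div_assoc]
    rw [h1]
    exact tendsto_finsetSum _ fun i _ => (hγ i).const_mul _
  have hneg : ∀ c : Fin N → ℤ, (fun t => lam s (-c) t) = fun t => -lam s c t := by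
    intro c
    funext t
    unfold lam
    rw [← Finset.sum_neg_distrib]
    refine Finset.sum_congr rfl fun j _ => ?_
    rw [Pi.neg_apply]
    push_cast
    ring
  -- small from the limit
  have hsm1 : ∀ (c : Fin N → ℤ) (x : ℝ), Tendsto (fun t => lam s c t / σ.L t)
      (σ.𝒰 : Filter ℕ) (𝓝 x) → 0 ≤ x → Sm σ fun t => -lam s c t := by
    intro c x hx h0 ε hε
    filter_upwards [hx.eventually (lt_mem_nhds (show -ε < x by linarith)), L_pos (σ := σ)]
      with t h1 h2
    rw [lt_div_iff₀ h2] at h1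
    linarith
  have hsm2 : ∀ (c : Fin N → ℤ) (x : ℝ), Tendsto (fun t => lam s c t / σ.L t)
      (σ.𝒰 : Filter ℕ) (𝓝 x) → x ≤ 0 → Sm σ (lam s c) := by
    intro c x hx h0 ε hε
    filter_upwards [hx.eventually (gt_mem_nhds (show x < ε by linarith)), L_pos (σ := σ)]
      with t h1 h2
    rw [div_lt_iff₀ h2] at h1
    exact h1.le
  have hprod : ∀ a : Fin r → ℤ, ∏ i, pw U (b i) ^ a i = pw U (∑ i, a i • b i) := by
    intro a
    rw [pw_sum U hU0]
    exact Finset.prod_congr rfl fun i _ => (pw_zsmul U hU0 _ _).symm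
  have hinj : ∀ a : Fin r → ℤ, ∑ i, (a i : ℝ) * γ i = 0 → a = 0 := by
    intro a ha
    apply hind
    rw [hprod]
    have h1 := hcomb a
    exact FF_gs s hA hs _ (hsm1 _ _ h1 ha.ge) (hsm2 _ _ h1 ha.le)
  have hγ0 : ∀ i, γ i ≠ 0 := by
    intro i h0
    have h1 := hinj (Pi.single i 1) (by
      rw [Finset.sum_eq_single i]
      · rw [Pi.single_eq_same, h0, mul_zero]
      · intro j _ hj
        rw [Pi.single_eq_of_ne hj]
        simp
      · intro h
        exact absurd (Finset.mem_univ i) h)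
    have h2 := congrFun h1 i
    rw [Pi.single_eq_same] at h2
    exact one_ne_zero h2
  -- signs
  let sg : Fin r → ℤ := fun i => if 0 < γ i then 1 else -1
  have hsg : ∀ i, (sg i : ℝ) * γ i = |γ i| := by
    intro i
    show (((if 0 < γ i then 1 else -1 : ℤ)) : ℝ) * γ i = |γ i|
    split_ifs with h
    · rw [abs_of_pos h]
      push_cast
      ring
    · rw [abs_of_nonpos (not_lt.1 h)]
      push_cast
      ring
  have hsg2 : ∀ i, sg i * sg i = 1 := by
    intro i
    show (if 0 < γ i then (1 : ℤ) else -1) * (if 0 < γ i then (1 : ℤ) else -1) = 1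
    split_ifs <;> norm_num
  let e : Fin r → G Λ σ := fun i => pw U (b i) ^ sg i
  have he0 : ∀ i, e i ≠ 0 := fun i => zpow_ne_zero _ (pw_ne U hU0 _)
  have hpe : ∀ a : Fin r → ℤ, pw e a = pw U (∑ i, (sg i * a i) • b i) := by
    intro a
    rw [← hprod]
    unfold pw
    refine Finset.prod_congr rfl fun i _ => ?_
    show (pw U (b i) ^ sg i) ^ a i = pw U (b i) ^ (sg i * a i)
    rw [zpow_mul]
  have hβ : ∀ a : Fin r → ℤ, ∑ i, (a i : ℝ) * |γ i| = ∑ i, ((sg i * a i : ℤ) : ℝ) * γ i := by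
    intro a
    refine Finset.sum_congr rfl fun i _ => ?_
    rw [← hsg i]
    push_cast
    ring
  have hbet : Bet e fun i => |γ i| := by
    constructor
    · exact he0
    · exact fun i => abs_pos.2 (hγ0 i)
    · intro a ha
      rw [hβ] at ha
      have h1 := hinj (fun i => sg i * a i) ha
      funext i
      have h2 : sg i * a i = 0 := congrFun h1 i
      have h3 : a i = sg i * (sg i * a i) := by rw [← mul_assoc, hsg2, one_mul]
      rw [h3, h2, mul_zero]
      rfl
    · intro w a ha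
      rw [hβ] at ha
      have h1 := hcomb fun i => sg i * a i
      rw [hpe]
      set c : Fin N → ℤ := ∑ i, (sg i * a i) • b i with hc
      set x : ℝ := ∑ i, ((sg i * a i : ℤ) : ℝ) * γ i with hx
      by_contra hle
      push Not at hle
      have h2 : pw U c ∈ OO σ (aw w) := ((OO σ _).valuation_le_one_iff _).1 hle
      rw [mem_OO] at h2
      obtain ⟨t, e1, e2, e3, e4, e5⟩ := ((h2 (x / 2) (by positivity)).and
        ((h1.eventually (lt_mem_nhds (show x / 2 < x by linarith))).and ((L_pos (σ := σ)).and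
          ((lv_gs (σ := σ) s hs c w).and (rep_ne _ (pw_ne U hU0 c)))))).exists
      rw [lt_div_iff₀ e3] at e2
      unfold lv at e4
      rw [← Real.log_le_iff_le_exp ((aw w t).pos e5), e4] at e1
      linarith
    · intro a ha
      rw [hβ] at ha
      rw [hpe]
      exact near_gs s hA hs _ (hsm1 _ _ (hcomb fun i => sg i * a i) ha)
  let m' : Fin N → Fin r → ℤ := fun j i => sg i * m j i
  have hm' : ∀ j, U j / pw e (m' j) ∈ FF Λ σ := by
    intro j
    have h1 := hm j
    rw [hprod] at h1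
    rw [hpe]
    have h2 : (∑ i, (sg i * m' j i) • b i) = ∑ i, m j i • b i := by
      refine Finset.sum_congr rfl fun i _ => ?_
      show (sg i * (sg i * m j i)) • b i = _
      rw [← mul_assoc, hsg2, one_mul]
    rw [h2]
    exact h1
  refine ⟨r, e, fun i => |γ i|, m', hbet, hm', ?_, ?_⟩
  · intro j
    by_contra hlt
    push Not at hlt
    obtain ⟨w⟩ : Nonempty (∀ t, InfinitePlace (Λ t)) := inferInstance
    have h1 := hbet.lt_one w _ hlt
    have h2 : vw σ w (U j / pw e (m' j)) = 1 :=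
      vw_FF w _ (hm' j) (div_ne_zero (hU0 j) (hbet.pw_ne _))
    have h3 : vw σ w (U j) = vw σ w (pw e (m' j)) := by
      rw [map_div₀] at h2
      have h4 : vw σ w (pw e (m' j)) ≠ 0 := (Valuation.ne_zero_iff _).2 (hbet.pw_ne _)
      rw [div_eq_one_iff_eq h4] at h2
      exact h2
    have h4 : vw σ w (U j)⁻¹ ≤ 1 := by
      rw [ValuationSubring.valuation_le_one_iff, mem_OO]
      intro ε hε
      filter_upwards [rep_inv (U j), rep_gm (σ := σ) fun t => (s j t : Λ t), L_pos (σ := σ)]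
        with t h5 h6 h7
      have h8 : rep (U j) t = (s j t : Λ t) := h6
      unfold aw
      rw [h5, h8, map_inv₀, inf_nat]
      have h9 : (1 : ℝ) ≤ s j t := by exact_mod_cast Nat.one_le_iff_ne_zero.2 (hs j t)
      exact (inv_le_one_of_one_le₀ h9).trans (Real.one_le_exp (by positivity))
    rw [map_inv₀, h3] at h4
    have h5 : vw σ w (pw e (m' j)) ≠ 0 := (Valuation.ne_zero_iff _).2 (hbet.pw_ne _)
    have h6 := (one_lt_inv₀ (zero_lt_iff.2 h5)).2 h1
    exact absurd h6 (not_lt.2 h4)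
  · intro j hj
    have h1 := hm' j
    rw [hj, pw_zero e he0, div_one] at h1
    exact h1

end coh


end Pool.Agent.D0H97.VV
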