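import Pool.Agent.D0H97.VV.Bx

/-!
Examples of coherent families of vectors, and sums.
-/

set_option autoImplicit false

namespace Pool.Agent.D0H97.VV

open NumberField Height
open Pool.Agent.D0H97.FT (Coherent)

/-- powers of one number -/
theorem coh_pow (N : ℕ) :
    CohF {s : Fin N → ℕ | ∃ (m : ℕ) (e : Fin N → ℕ), ∀ j, s j = m ^ e j} := by
  intro ε hε
  refine ⟨0, fun ℓ hℓ => ?_⟩
  rintro s ⟨m, e, hs⟩
  refine ⟨m, fun j _ => ⟨e j, 1, by rw [hs j, mul_one], ?_⟩⟩
  rw [Nat.cast_one, Real.log_one]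
  positivity

/-- products of elements of a coherent set -/
theorem coh_prod {A : Set ℕ} (hA : Coherent A) (N D : ℕ) :
    CohF {s : Fin N → ℕ | ∀ j, ∃ m : Fin D → ℕ, (∀ i, m i ∈ A) ∧ s j = ∏ i, m i} := by
  classical
  intro ε hε
  obtain ⟨ℓ₀, h⟩ := hA (ε / (D + 1)) (by positivity)
  refine ⟨max ℓ₀ 0, fun ℓ hℓ s hs => ?_⟩
  obtain ⟨d, hd⟩ := h ℓ ((le_max_left _ _).trans hℓ)
  have hℓ0 : 0 ≤ ℓ := (le_max_right _ _).trans hℓ
  refine ⟨d, fun j hj => ?_⟩
  obtain ⟨m, hm, hsj⟩ := hs j
  by_cases h0 : s j = 0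
  · refine ⟨0, 0, by rw [h0, mul_zero], ?_⟩
    rw [Nat.cast_zero, Real.log_zero]
    positivity
  have hm0 : ∀ i, m i ≠ 0 := by
    intro i hi
    apply h0
    rw [hsj]
    exact Finset.prod_eq_zero (Finset.mem_univ i) hi
  have hle : ∀ i, Real.log (m i) ≤ ℓ := by
    intro i
    refine le_trans (Real.log_le_log (by exact_mod_cast Nat.pos_of_ne_zero (hm0 i)) ?_) hj
    have h1 : m i ∣ s j := by
      rw [hsj]
      exact Finset.dvd_prod_of_mem _ (Finset.mem_univ i)
    exact_mod_cast Nat.le_of_dvd (Nat.pos_of_ne_zero h0) h1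
  choose e r her hr using fun i => hd (m i) (hm i) (hle i)
  refine ⟨∑ i, e i, ∏ i, r i, ?_, ?_⟩
  · rw [hsj, Finset.prod_congr rfl fun i _ => her i, Finset.prod_mul_distrib,
      Finset.prod_pow_eq_pow_sum]
  · have hr0 : ∀ i, r i ≠ 0 := by
      intro i hi
      apply hm0 i
      rw [her i, hi, mul_zero]
    push_cast
    rw [Real.log_prod fun i _ => Nat.cast_ne_zero.2 (hr0 i)]
    refine (Finset.sum_le_sum fun i _ => hr i).trans ?_
    rw [Finset.sum_const, Finset.card_univ, Fintype.card_fin, nsmul_eq_mul]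
    have h1 : (D : ℝ) * (ε / (D + 1) * ℓ) = D / (D + 1) * (ε * ℓ) := by ring
    rw [h1]
    have h2 : (D : ℝ) / (D + 1) ≤ 1 := by
      rw [div_le_one (by positivity)]
      linarith
    have h3 : 0 ≤ ε * ℓ := by positivity
    exact mul_le_of_le_one_left h3 h2

/-- sums -/
theorem sum_Rq {k : Type} [Field k] [NumberField k] {n N : ℕ} {𝒮 : Set (Fin N → ℕ)} {T : ℝ}
    {x : Fin (n + 1) → k} (s : Fin N → ℕ) (hs : s ∈ 𝒮) (a : Fin (n + 1) → Fin N → k)
    (ha : ∀ i j, logHeight₁ (a i j) ≤ T) (hT : 0 ≤ T) (hx : ∀ i, x i = ∑ j, a i j * s j) :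
    Rq 𝒮 (Finset.univ.image fun j : Fin N => Finsupp.single j 1) N T x := by
  classical
  refine ⟨fun i q => ∑ j, if q = Finsupp.single j 1 then a i j else 0, s, ?_,
    ⟨s, hs, fun _ _ => rfl⟩, (Finset.card_le_univ _).trans (le_of_eq (Fintype.card_fin N)), ?_⟩
  · intro i q
    by_cases hq : ∃ j, q = Finsupp.single j 1
    · obtain ⟨j, rfl⟩ := hq
      show logHeight₁ (∑ j', if Finsupp.single j 1 = Finsupp.single j' 1 then a i j' else 0) ≤ T
      rw [Finset.sum_eq_single j]
      · rw [if_pos rfl]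
        exact ha i j
      · intro j' _ hj'
        rw [if_neg]
        intro h
        exact hj' ((Finsupp.single_left_injective one_ne_zero h).symm)
      · intro h
        exact absurd (Finset.mem_univ j) h
    · push Not at hq
      show logHeight₁ (∑ j', if q = Finsupp.single j' 1 then a i j' else 0) ≤ T
      rw [Finset.sum_eq_zero fun j _ => if_neg (hq j), logHeight₁_zero]
      exact hT
  · intro i
    rw [hx i, Finset.sum_image fun j _ j' _ h => Finsupp.single_left_injective one_ne_zero h]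
    refine Finset.sum_congr rfl fun j _ => ?_
    congr 1
    · show a i j = ∑ j', if Finsupp.single j 1 = Finsupp.single j' 1 then a i j' else 0
      rw [Finset.sum_eq_single j]
      · rw [if_pos rfl]
      · intro j' _ hj'
        rw [if_neg]
        intro h
        exact hj' ((Finsupp.single_left_injective one_ne_zero h).symm)
      · intro h
        exact absurd (Finset.mem_univ j) h
    · rw [Finset.prod_eq_single j]
      · rw [Finsupp.single_eq_same, pow_one]
      · intro j' _ hj'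
        rw [Finsupp.single_eq_of_ne hj', pow_zero]
      · intro h
        exact absurd (Finset.mem_univ j) h

end Pool.Agent.D0H97.VV
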