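import Pool.Agent.K1H83.VN.Ht

/-!
The counting function for vectors with one coordinate `1`.
-/

set_option autoImplicit false

namespace Pool.Agent.D0H97.VV

open NumberField IsDedekindDomain Height
open Pool.Agent.W180.OP (fv fv_support_finite)
open Pool.Agent.K1H83.VN (nm le_nm nm_pos nm_nonneg nm_support log_support nm_le)

variable {L : Type} [Field L] [NumberField L] {n w : ℕ}

theorem gcd_nonpos (x : Fin n → L) (i : Fin n) (hi : x i = 1) :
    ∑ᶠ v : HeightOneSpectrum (𝓞 L), -Real.log (⨆ j, FinitePlace.mk v (x j)) ≤ 0 := by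
  rw [finsum_neg_distrib, neg_nonpos]
  refine finsum_nonneg fun v => Real.log_nonneg ?_
  have h1 := le_nm (fv v) x i
  rw [hi, map_one] at h1
  exact h1

theorem gcd_le_count (x : Fin n → L) (i : Fin n) (hi : x i = 1) (d : Fin w → ℕ) (z : Fin w → L)
    (hz : ∃ j, z j ≠ 0) :
    ∑ᶠ v : HeightOneSpectrum (𝓞 L), -Real.log (⨆ j, FinitePlace.mk v (z j)) ≤
      ∑ᶠ v : HeightOneSpectrum (𝓞 L), -Real.log (⨆ j, FinitePlace.mk v (z j) /
        (⨆ l, FinitePlace.mk v (x l)) ^ d j) := by
  obtain ⟨j0, hj0⟩ := hz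
  have hz0 : z ≠ 0 := fun h => hj0 (congrFun h j0)
  have hx0 : x ≠ 0 := by
    intro h
    have h1 := congrFun h i
    rw [hi] at h1
    exact one_ne_zero h1
  have hx1 : ∀ v : HeightOneSpectrum (𝓞 L), 1 ≤ ⨆ l, FinitePlace.mk v (x l) := by
    intro v
    have h1 := le_nm (fv v) x i
    rw [hi, map_one] at h1
    exact h1
  have hfin1 : (Function.support fun v : HeightOneSpectrum (𝓞 L) =>
      -Real.log (⨆ j, FinitePlace.mk v (z j))).Finite := by
    refine (log_support z hz0).subset fun v hv => ?_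
    intro h
    apply hv
    show -Real.log (⨆ j, FinitePlace.mk v (z j)) = 0
    have h1 : Real.log (⨆ j, FinitePlace.mk v (z j)) = 0 := h
    rw [h1, neg_zero]
  have hfin2 : (Function.support fun v : HeightOneSpectrum (𝓞 L) =>
      -Real.log (⨆ j, FinitePlace.mk v (z j) / (⨆ l, FinitePlace.mk v (x l)) ^ d j)).Finite := by
    refine (hfin1.union (nm_support x hx0)).subset fun v hv => ?_
    by_contra hno
    rw [Set.mem_union, not_or] at hno
    obtain ⟨h1, h2⟩ := hno
    apply hv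
    have h3 : (⨆ l, FinitePlace.mk v (x l)) = 1 := by
      by_contra h4
      exact h2 h4
    show -Real.log (⨆ j, FinitePlace.mk v (z j) / (⨆ l, FinitePlace.mk v (x l)) ^ d j) = 0
    rw [h3]
    simp only [one_pow, div_one]
    by_contra h4
    exact h1 h4
  refine finsum_le_finsum' hfin1 hfin2 ?_
  intro v
  have hpos : 0 < ⨆ l, FinitePlace.mk v (x l) := lt_of_lt_of_le one_pos (hx1 v)
  show -Real.log (⨆ j, FinitePlace.mk v (z j)) ≤
    -Real.log (⨆ j, FinitePlace.mk v (z j) / (⨆ l, FinitePlace.mk v (x l)) ^ d j)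
  have hbdd : BddAbove (Set.range fun j => FinitePlace.mk v (z j) /
      (⨆ l, FinitePlace.mk v (x l)) ^ d j) := (Set.finite_range _).bddAbove
  have h5 : 0 < FinitePlace.mk v (z j0) / (⨆ l, FinitePlace.mk v (x l)) ^ d j0 := by
    have h6 : 0 < FinitePlace.mk v (z j0) := (fv v).pos hj0
    positivity
  have h7 : 0 < ⨆ j, FinitePlace.mk v (z j) / (⨆ l, FinitePlace.mk v (x l)) ^ d j :=
    h5.trans_le (le_ciSup hbdd j0)
  rw [neg_le_neg_iff]
  refine Real.log_le_log h7 ?_
  have hne : Nonempty (Fin w) := ⟨j0⟩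
  refine ciSup_mono (Set.finite_range _).bddAbove fun j => ?_
  refine div_le_self ?_ (one_le_pow₀ (hx1 v))
  exact (fv v).nonneg _

end Pool.Agent.D0H97.VV
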