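import Pool.Agent.D0H85.SQ.Desc

/-!
Pull-backs of forms of maximal degree: the poles at the boundary.
-/

set_option autoImplicit false
set_option linter.unusedSectionVars false

open FF Pool.Agent.W602.GT Pool.Agent.W603.LV Pool.Agent.TH143.GT

namespace Pool.Agent.D0H97.VV

section det

variable {L : Type} [Field L] {w : ℕ}

theorem det_expand (a : Fin w → Fin w → L) (b c : Fin w → L) :
    (Matrix.of fun i j => a i j + c i * b j).det =
      (Matrix.of a).det + ∑ k, c k * (Matrix.of (Function.update a k b)).det := by
  classical
  have key : ∀ S : Finset (Fin w),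
      (Matrix.of fun i j => if i ∈ S then a i j + c i * b j else a i j).det =
      (Matrix.of a).det + ∑ k ∈ S, c k * (Matrix.of (Function.update a k b)).det := by
    intro S
    induction S using Finset.induction_on with
    | empty => simp
    | insert k S hk ih =>
      rw [Finset.sum_insert hk]
      set B : Matrix (Fin w) (Fin w) L :=
        Matrix.of fun i j => if i ∈ S then a i j + c i * b j else a i j with hB
      have h1 : (Matrix.of fun i j => if i ∈ insert k S then a i j + c i * b j else a i j) =
          Matrix.updateRow B k (a k + c k • b) := by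
        ext i j
        rw [Matrix.updateRow_apply]
        by_cases hi : i = k
        · subst hi
          simp
        · simp [hi, hB]
      rw [h1, Matrix.det_updateRow_add, Matrix.det_updateRow_smul]
      have h2 : Matrix.updateRow B k (a k) = B := by
        ext i j
        rw [Matrix.updateRow_apply]
        by_cases hi : i = k
        · subst hi
          simp [hk, hB]
        · simp [hi]
      have h3 : (Matrix.updateRow B k b).det = (Matrix.of (Function.update a k b)).det := by
        refine Matrix.det_eq_of_forall_row_eq_smul_add_const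
          (fun i => if i ∈ S then c i else 0) k (by simp [hk]) fun i j => ?_
        rw [Matrix.updateRow_apply]
        by_cases hi : i = k
        · subst hi
          simp [hk]
        · by_cases hS : i ∈ S
          · simp [hi, hS, hB]
          · simp [hi, hS, hB]
      rw [h2, h3, ih]
      ring
  have h := key Finset.univ
  simpa using h

end det

variable {k K L : Type} [Field k] [Field K] [Field L] [Algebra k K] [Algebra k L] [Algebra K L]
  [IsScalarTower k K L]

/-- the pull-back of a form of maximal degree is a determinant -/
theorem pull_det {w : ℕ} (θ : AlternatingMap K (Derivation k K K) K (Fin w)) (y : Fin w → K)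
    (E : Fin w → Derivation k K K) (D : Fin w → Derivation k L L) :
    pull (θ : MultilinearMap K (fun _ : Fin w => Derivation k K K) K) y E D =
      algebraMap K L (θ E) * (Matrix.of fun i j => D i (algebraMap K L (y j))).det := by
  classical
  rw [← Matrix.det_transpose, Matrix.det_apply', Finset.mul_sum]
  unfold pull
  have h0 : ∀ J : Fin w → Fin w, ¬ Function.Bijective J →
      (θ : MultilinearMap K (fun _ : Fin w => Derivation k K K) K) (fun i => E (J i)) = 0 := by
    intro J hJ
    rw [← Finite.injective_iff_bijective, Function.Injective] at hJ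
    push Not at hJ
    obtain ⟨i, j, hij, hne⟩ := hJ
    exact θ.map_eq_zero_of_eq _ (by rw [hij]) hne
  rw [← Finset.sum_subset (Finset.filter_subset (fun J : Fin w → Fin w => Function.Bijective J)
    Finset.univ) (fun J _ hJ => by
      rw [h0 J (by simpa using hJ), map_zero, mul_zero])]
  refine Finset.sum_bij (fun J h => Equiv.ofBijective J (Finset.mem_filter.1 h).2)
    (fun _ _ => Finset.mem_univ _) (fun _ _ _ _ h => by injection h)
    (fun b _ => ⟨b, Finset.mem_filter.2 ⟨Finset.mem_univ _, b.bijective⟩,
      DFunLike.coe_injective rfl⟩) fun J hJ => ?_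
  have h1 := θ.map_perm E (Equiv.ofBijective J (Finset.mem_filter.1 hJ).2)
  have h2 : (θ : MultilinearMap K (fun _ : Fin w => Derivation k K K) K) (fun i => E (J i)) =
      Equiv.Perm.sign (Equiv.ofBijective J (Finset.mem_filter.1 hJ).2) • θ E := h1
  rw [h2, Units.smul_def, map_zsmul, zsmul_eq_mul]
  simp only [Matrix.transpose_apply, Matrix.of_apply, Equiv.ofBijective_apply]
  ring

/-- **Pull-back of forms with logarithmic poles**, local version. -/
theorem local_reg2 [CharZero k] [Algebra.EssFiniteType k K] {p w n : ℕ}
    (hw : Algebra.trdeg k K = w) (hn : Algebra.trdeg k L = n)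
    (θ : MultilinearMap K (fun _ : Fin p => Derivation k K K) K) {N : ℕ} (hN : 0 < N) (f : K)
    {y : Fin w → K} {E : Fin w → Derivation k K K} (h : Dual y E)
    (P : Place k L) (hP : Divisorial n P) (D : Fin p → Derivation k L L)
    (v : Place k K) (e : ℕ) (hov : Over P v e) :
    ((∀ D : Fin p → Derivation k K K, (∀ i, DerLog v (D i)) → v.Reg (f * θ D ^ N)) →
      (∀ i, DerLog P (D i)) → P.Reg (algebraMap K L f * pull θ y E D ^ N)) ∧
    ((∀ D : Fin p → Derivation k K K, (∀ i, DerReg v (D i)) → v.Reg (f * θ D ^ N)) →
      (∀ i, DerReg P (D i)) → P.Reg (algebraMap K L f * pull θ y E D ^ N)) := by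
  classical
  have hv : Divisorial w v := Pool.Agent.W419.PG.main k K L w n v P e hw hn hov hP
  obtain ⟨y', E', i0, hb', hE', hi0, hy'r, hpres⟩ := Pool.Agent.W240.PG.Frame.main
    Pool.Agent.W762.PG.main k K w hw (fun y hy => fin_adjoin y hy) v hv
  have h' : Dual y' E' := ⟨hb', hE'⟩
  rw [pull_indep θ h h' D]
  have hr' : ∀ j, P.Reg (algebraMap K L (y' j)) := fun j => hov.reg.2 (hy'r j)
  refine ⟨fun hlog hD => ?_, fun hreg hD => ?_⟩
  · -- logarithmic vector fields
    have hy0 : y' i0 ≠ 0 := by
      intro h0
      rw [h0, v.ord_zero] at hi0
      omega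
    let s : Fin w → K := fun j => if j = i0 then y' i0 else 1
    have hs : ∀ j, s j ≠ 0 := by
      intro j
      simp only [s]
      split_ifs
      · exact hy0
      · exact one_ne_zero
    have hsL : ∀ j, algebraMap K L (s j) ≠ 0 := fun j => by simpa using hs j
    let E'' : Fin w → Derivation k K K := fun j => s j • E' j
    have hE'' : ∀ j, DerLog v (E'' j) := by
      intro j
      have hp1 : DerReg v (E'' j) := by
        intro g hg
        change v.Reg (s j * E' j g)
        refine v.reg_mul ?_ (hpres j g hg)
        simp only [s]
        split_ifs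
        · exact Or.inr (by rw [hi0]; norm_num)
        · exact v.reg_one
      refine pl_log hp1 hi0 ?_
      change v.Reg (s j * E' j (y' i0) / y' i0)
      rw [hE']
      by_cases hj : j = i0
      · rw [if_pos hj, mul_one]
        simp only [s, if_pos hj]
        rw [div_self hy0]
        exact v.reg_one
      · rw [if_neg hj, mul_zero, zero_div]
        exact v.reg_zero
    have hexp : pull θ y' E' D = ∑ J : Fin p → Fin w,
        (∏ i, D i (algebraMap K L (y' (J i))) / algebraMap K L (s (J i))) *
          algebraMap K L (θ fun i => E'' (J i)) := by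
      unfold pull
      refine Finset.sum_congr rfl fun J _ => ?_
      have h1 : (θ fun i => E'' (J i)) = (∏ i, s (J i)) * θ fun i => E' (J i) := by
        have := MultilinearMap.map_smul_univ θ (fun i => s (J i)) (fun i => E' (J i))
        rw [smul_eq_mul] at this
        exact this
      rw [h1, map_mul, map_prod, ← mul_assoc, ← Finset.prod_mul_distrib]
      congr 1
      refine Finset.prod_congr rfl fun i _ => ?_
      rw [div_mul_cancel₀ _ (hsL _)]
    rw [hexp]
    refine reg_combo P _ _ _ _ hN (fun J _ => ?_) fun J _ => ?_
    · change _ ∈ P.O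
      refine prod_mem fun i _ => ?_
      change P.Reg _
      simp only [s]
      by_cases hj : J i = i0
      · rw [if_pos hj, hj]
        exact hD i _
      · rw [if_neg hj, map_one, div_one]
        by_cases hz : algebraMap K L (y' (J i)) = 0
        · rw [hz, map_zero]
          exact P.reg_zero
        have h2 := P.reg_mul (hD i (algebraMap K L (y' (J i)))) (hr' (J i))
        rwa [div_mul_cancel₀ _ hz] at h2
    · rw [← map_pow, ← map_mul]
      exact hov.reg.2 (hlog _ fun i => hE'' _)
  · refine reg_combo P _ _ _ _ hN (fun J _ => ?_) fun J _ => ?_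
    · change _ ∈ P.O
      exact prod_mem fun i _ => hD i _ (hr' _)
    · rw [← map_pow, ← map_mul]
      exact hov.reg.2 (hreg _ fun i => hpres _)

/-- the case of a place which is trivial on the small field -/
theorem local_triv {p w : ℕ} (θ : MultilinearMap K (fun _ : Fin p => Derivation k K K) K)
    {N : ℕ} (f : K) {y : Fin w → K} {E : Fin w → Derivation k K K}
    (P : Place k L) (htriv : ∀ g : K, P.ord (algebraMap K L g) = 0)
    (D : Fin p → Derivation k L L) (hD : ∀ i, DerReg P (D i)) :
    P.Reg (algebraMap K L f * pull θ y E D ^ N) := by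
  have hr : ∀ g : K, P.Reg (algebraMap K L g) := fun g => Or.inr (htriv g).ge
  change _ ∈ P.O
  refine mul_mem (hr f) (pow_mem ?_ N)
  exact sum_mem fun J _ => mul_mem (prod_mem fun i _ => hD i _ (hr _)) (hr _)

/-- **The order of the pull-back at the boundary.** -/
theorem local_pole [CharZero k] [Algebra.EssFiniteType k K] {w n : ℕ}
    (hw : Algebra.trdeg k K = w) (hn : Algebra.trdeg k L = n)
    (θ : AlternatingMap K (Derivation k K K) K (Fin w)) {N : ℕ} (hN : 0 < N) (f : K)
    {y : Fin w → K} {E : Fin w → Derivation k K K} (h : Dual y E)
    (P : Place k L) (hP : Divisorial n P) (v : Place k K) (e : ℕ) (hov : Over P v e)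
    (hlog : ∀ D : Fin w → Derivation k K K, (∀ i, DerLog v (D i)) → v.Reg (f * θ D ^ N))
    (D : Fin w → Derivation k L L) (hD : ∀ i, DerReg P (D i)) (δ : Derivation k L L) (hδ : DerReg P δ) {π : L}
    (hπ : P.ord π = 1) (hδπ0 : δ π ≠ 0) (hδπ : P.ord (δ π) = 0) :
    P.Reg (algebraMap K L f * (π * pull (θ : MultilinearMap K
      (fun _ : Fin w => Derivation k K K) K) y E D) ^ N) := by
  classical
  set θ' := (θ : MultilinearMap K (fun _ : Fin w => Derivation k K K) K) with hθ'
  have hπ0 : π ≠ 0 := by
    rintro rfl
    rw [P.ord_zero] at hπ
    exact zero_ne_one hπ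
  have hπreg : P.Reg π := Or.inr (by rw [hπ]; norm_num)
  let c : Fin w → L := fun i => D i π / δ π
  have hc : ∀ i, P.Reg (c i) := by
    intro i
    show P.Reg (D i π / δ π)
    rw [div_eq_mul_inv]
    exact P.reg_mul (hD i π hπreg) (Or.inr (by rw [P.ord_inv, hδπ, neg_zero]))
  let D' : Fin w → Derivation k L L := fun i => D i - c i • δ
  have hD'r : ∀ i, DerReg P (D' i) := by
    intro i g hg
    show P.Reg (D i g - c i * δ g)
    rw [sub_eq_add_neg]
    exact P.reg_add (hD i g hg) (P.reg_neg (P.reg_mul (hc i) (hδ g hg)))
  have hD' : ∀ i, DerLog P (D' i) := by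
    intro i
    refine pl_log (hD'r i) hπ ?_
    show P.Reg ((D i π - D i π / δ π * δ π) / π)
    rw [div_mul_cancel₀ _ hδπ0, sub_self, zero_div]
    exact P.reg_zero
  have hδ' : DerLog P (π • δ) := by
    refine pl_log ?_ hπ ?_
    · intro g hg
      exact P.reg_mul hπreg (hδ g hg)
    · show P.Reg (π * δ π / π)
      rw [mul_div_cancel_left₀ _ hπ0]
      exact Or.inr hδπ.ge
  let g : Option (Fin w) → L := fun o => match o with
    | none => pull θ' y E D'
    | some k => pull θ' y E (Function.update D' k (π • δ))
  let a : Option (Fin w) → L := fun o => match o with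
    | none => π
    | some k => c k
  have hexp : π * pull θ' y E D = ∑ o, a o * g o := by
    rw [Fintype.sum_option]
    show π * pull θ' y E D = π * pull θ' y E D' + ∑ k, c k * pull θ' y E (Function.update D' k (π • δ))
    rw [pull_det, pull_det]
    have h5 : ∀ k, pull θ' y E (Function.update D' k (π • δ)) = algebraMap K L (θ E) *
        (Matrix.of fun i j => (Function.update D' k (π • δ)) i (algebraMap K L (y j))).det :=
      fun k => pull_det θ y E _
    simp only [h5]
    have h1 : (Matrix.of fun i j => D i (algebraMap K L (y j))) =
        Matrix.of fun i j => D' i (algebraMap K L (y j)) + c i * δ (algebraMap K L (y j)) := by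
      ext i j
      show D i (algebraMap K L (y j)) = (D i (algebraMap K L (y j)) - c i * δ (algebraMap K L (y j))) +
        c i * δ (algebraMap K L (y j))
      ring
    rw [h1, det_expand (fun i j => D' i (algebraMap K L (y j))) (fun j => δ (algebraMap K L (y j))) c]
    have h2 : ∀ k, (Matrix.of fun i j => (Function.update D' k (π • δ)) i (algebraMap K L (y j))).det =
        π * (Matrix.of (Function.update (fun i j => D' i (algebraMap K L (y j))) k
          fun j => δ (algebraMap K L (y j)))).det := by
      intro k
      have h3 : (Matrix.of fun i j => (Function.update D' k (π • δ)) i (algebraMap K L (y j))) =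
          Matrix.updateRow (Matrix.of fun i j => D' i (algebraMap K L (y j))) k
            (π • fun j => δ (algebraMap K L (y j))) := by
        ext i j
        rw [Matrix.updateRow_apply]
        by_cases hi : i = k
        · subst hi
          simp
        · simp [hi]
      have h4 : (Matrix.of (Function.update (fun i j => D' i (algebraMap K L (y j))) k
          fun j => δ (algebraMap K L (y j)))) =
          Matrix.updateRow (Matrix.of fun i j => D' i (algebraMap K L (y j))) k
            (fun j => δ (algebraMap K L (y j))) := by
        ext i j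
        rw [Matrix.updateRow_apply]
        by_cases hi : i = k
        · subst hi
          simp
        · simp [hi]
      rw [h3, h4, Matrix.det_updateRow_smul]
    simp only [h2]
    rw [mul_add, mul_add, Finset.mul_sum, Finset.mul_sum]
    congr 1
    refine Finset.sum_congr rfl fun k _ => ?_
    ring
  rw [hexp]
  refine reg_combo P _ _ _ _ hN (fun o _ => ?_) fun o _ => ?_
  · rcases o with _ | k
    · exact hπreg
    · exact hc k
  · rcases o with _ | k
    · exact (local_reg2 hw hn θ' hN f h P hP D' v e hov).1 hlog hD'
    · refine (local_reg2 hw hn θ' hN f h P hP _ v e hov).1 hlog fun i => ?_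
      by_cases hi : i = k
      · subst hi
        rw [Function.update_self]
        exact hδ'
      · rw [Function.update_of_ne hi]
        exact hD' i

end Pool.Agent.D0H97.VV
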