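import Pool.Agent.D0H97.VV.Ga

/-!
Places of a rational function field and the pull-back of a form of maximal degree.
-/

set_option autoImplicit false
set_option linter.unusedSectionVars false

open FF IntermediateField Pool.Agent.W602.GT Pool.Agent.W603.LV Pool.Agent.TH143.GT

namespace Pool.Agent.D0H97.VV

section unif

variable {k L : Type} [Field k] [Field L] [Algebra k L]

theorem der_aeval (C : IntermediateField k L) (δ : Derivation k L L) (hC : ∀ c ∈ C, δ c = 0)
    (τ : L) (p : Polynomial C) : δ (Polynomial.aeval τ p) =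
      Polynomial.aeval τ (Polynomial.derivative p) * δ τ := by
  induction p using Polynomial.induction_on' with
  | add p q hp hq => rw [map_add, map_add, hp, hq, map_add, map_add, add_mul]
  | monomial n c =>
    rw [Polynomial.aeval_monomial, δ.leibniz, δ.leibniz_pow, Polynomial.derivative_monomial,
      Polynomial.aeval_monomial]
    have h1 : δ (algebraMap C L c) = 0 := hC _ c.2
    rw [h1, smul_zero, add_zero, map_mul, map_natCast]
    simp only [smul_eq_mul, nsmul_eq_mul]
    ring

/-- uniformizers with a unit derivative -/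
theorem exists_unif [CharZero k] (C : IntermediateField k L) (δ : Derivation k L L)
    (hC : ∀ c ∈ C, δ c = 0) {τ : L} (hτt : Transcendental C τ) {ε : k} (hε : ε ≠ 0)
    (hτ : δ τ = algebraMap k L ε * τ) (P : Place k L)
    (hP1 : ∀ c : L, c ∈ C → c ≠ 0 → P.ord c = 0)
    (hP2 : ∀ f ∈ Algebra.adjoin C {τ}, P.Reg f)
    (hP3 : ∀ f, P.Reg f → ∃ a ∈ Algebra.adjoin C {τ}, ∃ b ∈ Algebra.adjoin C {τ},
      b ≠ 0 ∧ P.ord b = 0 ∧ f * b = a) (hτP : P.ord τ = 0) :
    ∃ π, P.ord π = 1 ∧ δ π ≠ 0 ∧ P.ord (δ π) = 0 := by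
  classical
  have hcL : CharZero L := charZero_of_injective_algebraMap (algebraMap k L).injective
  have hcC : CharZero C := charZero_of_injective_algebraMap (algebraMap k C).injective
  have hτ0 : τ ≠ 0 := by
    rintro rfl
    exact hτt isAlgebraic_zero
  have hinj := transcendental_iff_injective.1 hτt
  have hne : ∀ p : Polynomial C, p ≠ 0 → Polynomial.aeval τ p ≠ 0 := fun p hp h0 =>
    hp (hinj (by rw [h0, map_zero]))
  have hadj : ∀ r : Polynomial C, Polynomial.aeval τ r ∈ Algebra.adjoin C {τ} := by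
    intro r
    rw [Algebra.adjoin_singleton_eq_range_aeval]
    exact ⟨r, rfl⟩
  have hreg : ∀ p : Polynomial C, P.Reg (Polynomial.aeval τ p) := fun p => hP2 _ (hadj p)
  -- an element of order one
  obtain ⟨p0, hp0⟩ : ∃ p0 : Polynomial C, P.ord (Polynomial.aeval τ p0) = 1 := by
    obtain ⟨u, hu0, hu1⟩ := P.surj
    obtain ⟨a, ha, b, hb, hb0, hbo, hab⟩ := hP3 u (Or.inr (by rw [hu1]; norm_num))
    rw [Algebra.adjoin_singleton_eq_range_aeval] at ha
    obtain ⟨p, hp⟩ := ha
    refine ⟨p, ?_⟩
    have hp' : Polynomial.aeval τ p = a := hp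
    rw [hp', ← hab, P.ord_mul hu0 hb0, hu1, hbo, add_zero]
  have hp00 : p0 ≠ 0 := by
    rintro rfl
    rw [map_zero, P.ord_zero] at hp0
    exact zero_ne_one hp0
  have hex : ∃ n, ∃ p : Polynomial C, p.natDegree = n ∧ p ≠ 0 ∧
      0 < P.ord (Polynomial.aeval τ p) := ⟨_, p0, rfl, hp00, by rw [hp0]; norm_num⟩
  obtain ⟨p, hpn, hpne, hpo⟩ := Nat.find_spec hex
  set n := Nat.find hex with hn
  have hmin : ∀ r : Polynomial C, r ≠ 0 → r.natDegree < n → P.ord (Polynomial.aeval τ r) = 0 := by
    intro r hr hrn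
    have h1 := (P.reg_iff (hne r hr)).1 (hreg r)
    by_contra h2
    have h3 : 0 < P.ord (Polynomial.aeval τ r) := lt_of_le_of_ne h1 (Ne.symm h2)
    exact Nat.find_min hex hrn ⟨r, rfl, hr, h3⟩
  have hn0 : n ≠ 0 := by
    intro h0
    rw [h0] at hpn
    rw [Polynomial.eq_C_of_natDegree_eq_zero hpn, Polynomial.aeval_C] at hpo
    have h1 : (algebraMap C L (p.coeff 0)) ≠ 0 := by
      intro h2
      rw [h2, P.ord_zero] at hpo
      exact lt_irrefl _ hpo
    have h2 : P.ord (algebraMap C L (p.coeff 0)) = 0 := hP1 _ (p.coeff 0).2 h1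
    omega
  have hp' : Polynomial.derivative p ≠ 0 := by
    intro h0
    have h1 := Polynomial.derivative_eq_zero.1 h0
    omega
  have hp'n : (Polynomial.derivative p).natDegree < n := by
    have := Polynomial.natDegree_derivative_lt (p := p) (by omega)
    omega
  have hε' : algebraMap k L ε ≠ 0 := by rwa [Ne, map_eq_zero]
  have hδ := der_aeval C δ hC τ p
  rw [hτ] at hδ
  refine ⟨Polynomial.aeval τ p, ?_, ?_, ?_⟩
  · have h1 := EuclideanDomain.div_add_mod p0 p
    set g := p0 / p with hg
    set r := p0 % p with hr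
    have h2 : Polynomial.aeval τ p0 = Polynomial.aeval τ p * Polynomial.aeval τ g +
        Polynomial.aeval τ r := by
      rw [← map_mul, ← map_add, h1]
    have hr0 : r = 0 := by
      by_contra hr0
      have h3 : r.natDegree < n := by
        have h4 : r.degree < p.degree := EuclideanDomain.mod_lt p0 hpne
        have := Polynomial.natDegree_lt_natDegree hr0 h4
        omega
      have h4 := hmin r hr0 h3
      by_cases hg0 : g = 0
      · rw [hg0, map_zero, mul_zero, zero_add] at h2
        rw [h2] at hp0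
        omega
      · have h5 : Polynomial.aeval τ r = Polynomial.aeval τ p0 -
            Polynomial.aeval τ p * Polynomial.aeval τ g := by rw [h2]; ring
        have h6 : Polynomial.aeval τ p * Polynomial.aeval τ g ≠ 0 :=
          mul_ne_zero (hne p hpne) (hne g hg0)
        have h7 := P.ord_sub (hne p0 hp00) h6 (by rw [← h5]; exact hne r hr0)
        rw [← h5, P.ord_mul (hne p hpne) (hne g hg0), hp0, h4] at h7
        have h8 := (P.reg_iff (hne g hg0)).1 (hreg g)
        have h9 : (1 : ℤ) ≤ P.ord (Polynomial.aeval τ p) + P.ord (Polynomial.aeval τ g) := by omega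
        rw [min_eq_left h9] at h7
        omega
    rw [hr0, map_zero, add_zero] at h2
    have hg0 : g ≠ 0 := by
      rintro h0
      rw [h0, map_zero, mul_zero] at h2
      exact hne p0 hp00 h2
    have h3 := congrArg P.ord h2
    rw [hp0, P.ord_mul (hne p hpne) (hne g hg0)] at h3
    have h8 := (P.reg_iff (hne g hg0)).1 (hreg g)
    omega
  · rw [hδ]
    exact mul_ne_zero (hne _ hp') (mul_ne_zero hε' hτ0)
  · rw [hδ, P.ord_mul (hne _ hp') (mul_ne_zero hε' hτ0), hmin _ hp' hp'n,
      P.ord_mul hε' hτ0, hτP, P.ord_const hε]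
    norm_num

end unif

variable {k K L : Type} [Field k] [Field K] [Field L] [Algebra k K] [Algebra k L] [Algebra K L]
  [IsScalarTower k K L]

/-- **The pull-back of a logarithmic form of maximal degree.** Let `s` be an element which has
positive order at the places over the boundary. Then the value of the form on vector fields
commuting with `δ`, multiplied by `s ^ N`, is regular. -/
theorem val_pole [CharZero k] [Algebra.EssFiniteType k K] {w n : ℕ}
    (hw : Algebra.trdeg k K = w) (hn : Algebra.trdeg k L = n)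
    (θ : AlternatingMap K (Derivation k K K) K (Fin w)) {N : ℕ} (hN : 0 < N) (f : K)
    {Bd : Place k K → Prop} {nc : ℕ} (yc : Fin (nc + 1) → K) (hyc : yc ≠ 0) (kk : ℕ)
    (hloc : ∀ v : Place k K, Divisorial w v → ∃ i, yc i ≠ 0 ∧
      (∀ D : Fin w → Derivation k K K, (∀ i, DerLog v (D i)) →
        v.Reg (f / yc i ^ kk * θ D ^ N)) ∧
      (¬ Bd v → ∀ D : Fin w → Derivation k K K, (∀ i, DerReg v (D i)) →
        v.Reg (f / yc i ^ kk * θ D ^ N)))
    {y : Fin w → K} {E : Fin w → Derivation k K K} (h : Dual y E)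
    (δ : Derivation k L L) {σ : L} (hσ0 : σ ≠ 0) (hσ : δ σ = σ) (htop : (consts δ)⟮σ⟯ = ⊤)
    {τ : L} (hτ : τ = σ ∨ τ = σ⁻¹) {s : L} (hs : s ∈ Algebra.adjoin (consts δ) {τ})
    {lam : L} (hlam : ∀ i, lam * algebraMap K L (yc i) ∈ Algebra.adjoin (consts δ) {τ})
    (hBd : ∀ P : Place k L, (∀ c : L, δ c = 0 → c ≠ 0 → P.ord c = 0) → P.ord σ = 0 →
      ∀ (v : Place k K) e, Over P v e → Bd v → s = 0 ∨ 1 ≤ P.ord s)
    (D : Fin w → Derivation k L L) (hD : ∀ i z, D i (δ z) = δ (D i z)) :
    algebraMap K L f * lam ^ kk * (s * pull (θ : MultilinearMap K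
      (fun _ : Fin w => Derivation k K K) K) y E D) ^ N ∈ Algebra.adjoin (consts δ) {τ} := by
  classical
  set θ' := (θ : MultilinearMap K (fun _ : Fin w => Derivation k K K) K) with hθ'
  set C := consts δ with hC
  have hσt : Transcendental C σ := sigma_tr δ hσ0 hσ
  obtain ⟨B, hB⟩ := exists_isTranscendenceBasis k C
  have hσb : IsTranscendenceBasis C (fun _ : Unit => σ) := by
    have h1 : AlgebraicIndependent C (fun _ : Unit => σ) :=
      (algebraicIndependent_unique_type_iff).2 hσt
    rw [h1.isTranscendenceBasis_iff_isAlgebraic]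
    apply alg_adjoin
    have h2 : Set.range (fun _ : Unit => σ) = {σ} := by simp
    rw [h2, htop]
    infer_instance
  have hBσ := hB.sumElim_comp hσb
  have hcard := hBσ.cardinalMk_eq_trdeg
  rw [hn] at hcard
  have hfin : Finite (Unit ⊕ B) := by
    rw [← Cardinal.lt_aleph0_iff_finite, hcard]
    exact Cardinal.natCast_lt_aleph0
  have hfinB : Finite B := Finite.of_injective (Sum.inr : B → Unit ⊕ B) Sum.inr_injective
  obtain ⟨m, ⟨φ⟩⟩ := Finite.exists_equiv_fin B
  obtain rfl : n = m + 1 := by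
    have h1 : Cardinal.mk (Unit ⊕ B) = ((m + 1 : ℕ) : Cardinal) := by
      rw [Cardinal.mk_sum, Cardinal.mk_congr φ]
      simp [add_comm]
    rw [h1] at hcard
    exact_mod_cast hcard.symm
  let sb : Fin m → C := fun l => (φ.symm l : C)
  have hsb : IsTranscendenceBasis k sb := hB.comp_equiv φ.symm
  have hDC : ∀ i c, c ∈ C → D i c ∈ C := by
    intro i c hc
    have h1 : δ c = 0 := hc
    change δ (D i c) = 0
    rw [← hD, h1, map_zero]
  have hDσ : ∀ i, D i σ / σ ∈ C := by
    intro i
    change δ (D i σ / σ) = 0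
    have h1 := hD i σ
    rw [hσ] at h1
    rw [div_eq_mul_inv, δ.leibniz, δ.leibniz_inv, ← h1, hσ]
    simp only [smul_eq_mul]
    field_simp
    ring
  have hτt : Transcendental C τ := by
    rcases hτ with rfl | rfl
    · exact hσt
    · intro h
      apply hσt
      have := h.inv
      rwa [inv_inv] at this
  have hττ : C⟮τ⟯ = ⊤ := by
    rcases hτ with rfl | rfl
    · exact htop
    · rw [eq_top_iff, ← htop, IntermediateField.adjoin_simple_le_iff]
      have h1 := inv_mem (IntermediateField.mem_adjoin_simple_self C σ⁻¹)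
      rwa [inv_inv] at h1
  have hDτ : ∀ D' : Derivation k L L, D' σ / σ ∈ C → D' τ / τ ∈ C := by
    intro D' hD'
    rcases hτ with rfl | rfl
    · exact hD'
    · rw [D'.leibniz_inv, smul_eq_mul]
      have h1 : -σ⁻¹ ^ 2 * D' σ / σ⁻¹ = -(D' σ / σ) := by field_simp
      rw [h1]
      exact neg_mem hD'
  have hτ0 : τ ≠ 0 := by
    rcases hτ with rfl | rfl
    · exact hσ0
    · exact inv_ne_zero hσ0
  obtain ⟨S, hS1, hS2⟩ := places C hτt hττ
  apply hS2
  intro P hP
  obtain ⟨hP1, hP2, hP3, hP4⟩ := hS1 P hP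
  have hDregG : ∀ D' : Derivation k L L, (∀ c ∈ C, D' c ∈ C) → D' σ / σ ∈ C → DerReg P D' := by
    intro D' hD1 hD2
    refine pl_reg (A := (Algebra.adjoin C {τ} : Set L)) hP2 hP3 ?_
    intro g hg
    have hg' : g ∈ Algebra.adjoin C {τ} := hg
    change D' g ∈ Algebra.adjoin C {τ}
    clear hg
    induction hg' using Algebra.adjoin_induction with
    | mem z hz =>
      rw [Set.mem_singleton_iff] at hz
      subst hz
      have hz := Algebra.self_mem_adjoin_singleton (R := C) z
      have h1 : D' z = (D' z / z) * z := by field_simp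
      rw [h1]
      exact Subalgebra.mul_mem _
        ((Algebra.adjoin C {z}).algebraMap_mem (⟨_, hDτ D' hD2⟩ : C)) hz
    | algebraMap r => exact (Algebra.adjoin C {τ}).algebraMap_mem (⟨_, hD1 _ r.2⟩ : C)
    | add f g hf' hg' hf hg => rw [map_add]; exact Subalgebra.add_mem _ hf hg
    | mul f g hf' hg' hf hg =>
      rw [D'.leibniz]
      exact Subalgebra.add_mem _ (Subalgebra.mul_mem _ hf' hg) (Subalgebra.mul_mem _ hg' hf)
  have hDreg : ∀ i, DerReg P (D i) := fun i => hDregG (D i) (fun c hc => hDC i c hc) (hDσ i)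
  have hδreg : DerReg P δ := by
    refine hDregG δ (fun c hc => ?_) ?_
    · have h1 : δ c = 0 := hc
      rw [h1]
      exact zero_mem _
    · rw [hσ, div_self hσ0]
      exact one_mem _
  have hdiv : Divisorial (m + 1) P := by
    refine ⟨fun l => (sb l : L), fun F hF => ?_⟩
    have h1 : MvPolynomial.aeval (fun l : Fin m => (sb l : L)) F =
        ((MvPolynomial.aeval sb F : C) : L) := by
      have := MvPolynomial.comp_aeval_apply (IntermediateField.val C) (p := F) (f := sb)
      exact this.symm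
    have h2 : MvPolynomial.aeval sb F ≠ 0 := by
      intro h0
      exact hF ((injective_iff_map_eq_zero _).1 hsb.1 F h0)
    have h3 : ((MvPolynomial.aeval sb F : C) : L) ≠ 0 := by
      intro h0
      exact h2 (Subtype.ext h0)
    constructor
    · change MvPolynomial.aeval (fun l : Fin m => (sb l : L)) F ≠ 0
      rw [h1]; exact h3
    · change P.ord (MvPolynomial.aeval (fun l : Fin m => (sb l : L)) F) = 0
      rw [h1]
      exact hP1 _ (MvPolynomial.aeval sb F).2 h3
  have hsreg : P.Reg s := hP2 s hs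
  have hsN : P.Reg (s ^ N) := by
    change _ ∈ P.O
    exact pow_mem hsreg N
  obtain ⟨ic, hic⟩ := Function.ne_iff.1 hyc
  have hic' : yc ic ≠ 0 := hic
  by_cases htriv : ∀ g : K, P.ord (algebraMap K L g) = 0
  · have h1 : P.Reg lam := by
      have h2 : lam = (lam * algebraMap K L (yc ic)) * algebraMap K L ((yc ic)⁻¹) := by
        rw [mul_assoc, ← map_mul, mul_inv_cancel₀ hic', map_one, mul_one]
      rw [h2]
      exact P.reg_mul (hP2 _ (hlam ic)) (Or.inr (htriv _).ge)
    have h2 : algebraMap K L f * lam ^ kk * (s * pull θ' y E D) ^ N =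
        s ^ N * (lam ^ kk * (algebraMap K L f * pull θ' y E D ^ N)) := by ring
    rw [h2]
    refine P.reg_mul hsN (P.reg_mul ?_ (local_triv θ' f P htriv D hDreg))
    change _ ∈ P.O
    exact pow_mem h1 kk
  push Not at htriv
  obtain ⟨e, v, hov⟩ := exists_over (K := K) P htriv
  have hvd : Divisorial w v := Pool.Agent.W419.PG.main k K L w (m + 1) v P e hw hn hov hdiv
  obtain ⟨i, hi, hlog, hreg⟩ := hloc v hvd
  have hyL : algebraMap K L (yc i) ≠ 0 := by rwa [Ne, map_eq_zero]
  have hsplit0 : algebraMap K L f * lam ^ kk * (s * pull θ' y E D) ^ N =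
      (lam * algebraMap K L (yc i)) ^ kk *
        (algebraMap K L (f / yc i ^ kk) * (s * pull θ' y E D) ^ N) := by
    have h0 : algebraMap K L (yc i) ^ kk ≠ 0 := pow_ne_zero _ hyL
    rw [map_div₀, map_pow, mul_pow lam]
    generalize (s * pull θ' y E D) ^ N = Z
    field_simp
  rw [hsplit0]
  refine P.reg_mul ?_ ?_
  · change _ ∈ P.O
    exact pow_mem (hP2 _ (hlam i)) kk
  have hsplit : algebraMap K L (f / yc i ^ kk) * (s * pull θ' y E D) ^ N =
      s ^ N * (algebraMap K L (f / yc i ^ kk) * pull θ' y E D ^ N) := by ring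
  rcases hP4 with h4 | h4
  · have hσP : P.ord σ = 0 := by
      rcases hτ with rfl | rfl
      · exact h4
      · rw [P.ord_inv] at h4; omega
    by_cases hbad : Bd v
    · by_cases hs0 : s = 0
      · rw [hs0, zero_mul, zero_pow hN.ne', mul_zero]
        exact P.reg_zero
      have h5 := (hBd P hP1 hσP v e hov hbad).resolve_left hs0
      obtain ⟨ε, hε, hτε⟩ : ∃ ε : k, ε ≠ 0 ∧ δ τ = algebraMap k L ε * τ := by
        rcases hτ with rfl | rfl
        · exact ⟨1, one_ne_zero, by rw [hσ, map_one, one_mul]⟩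
        · refine ⟨-1, neg_ne_zero.2 one_ne_zero, ?_⟩
          rw [δ.leibniz_inv, hσ, map_neg, map_one, smul_eq_mul]
          field_simp
      obtain ⟨π, hπ, hδπ0, hδπ⟩ := exists_unif C δ (fun c hc => hc) hτt hε hτε P hP1 hP2 hP3 h4
      have hπ0 : π ≠ 0 := by
        rintro rfl
        rw [P.ord_zero] at hπ
        exact zero_ne_one hπ
      have h6 := local_pole hw hn θ hN (f / yc i ^ kk) h P hdiv v e hov hlog D hDreg δ hδreg hπ
        hδπ0 hδπ
      have h7 : algebraMap K L (f / yc i ^ kk) * (s * pull θ' y E D) ^ N =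
          (s / π) ^ N * (algebraMap K L (f / yc i ^ kk) * (π * pull θ' y E D) ^ N) := by
        rw [div_pow, mul_pow, mul_pow]
        field_simp
      rw [h7]
      refine P.reg_mul ?_ h6
      change _ ∈ P.O
      refine pow_mem ?_ N
      change P.Reg (s / π)
      rw [P.reg_iff (div_ne_zero hs0 hπ0), P.ord_div hs0 hπ0, hπ]
      omega
    · rw [hsplit]
      exact P.reg_mul hsN ((local_reg2 hw hn θ' hN _ h P hdiv D v e hov).2 (hreg hbad) hDreg)
  · rw [hsplit]
    refine P.reg_mul hsN ((local_reg2 hw hn θ' hN _ h P hdiv D v e hov).1 hlog fun i => ?_)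
    refine pl_log (hDreg i) h4 ?_
    exact hP2 _ ((Algebra.adjoin C {τ}).algebraMap_mem (⟨_, hDτ (D i) (hDσ i)⟩ : C))

end Pool.Agent.D0H97.VV
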