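import Pool.Agent.D0H97.VV.Gb

/-!
Logarithmic forms of maximal degree on a family of rational curves.
-/

set_option autoImplicit false
set_option linter.unusedSectionVars false

open FF Pool.Agent.W602.GT Pool.Agent.W603.LV MvPolynomial Pool.Agent.TH143.GT
open Pool.Agent.D0H85.SQ (NoCentre poly_const)
open IntermediateField hiding val

namespace Pool.Agent.D0H97.VV

section consts

variable {k M : Type} [Field k] [Field M] [Algebra k M]

/-- the constants of `X d/dX` -/
theorem const_M [CharZero k] [CharZero M] {δ : Derivation k (RatFunc M) (RatFunc M)}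
    (hδ : ∀ P : Polynomial M, δ (algebraMap (Polynomial M) (RatFunc M) P) =
      RatFunc.X * algebraMap (Polynomial M) (RatFunc M) (Polynomial.derivative P))
    {z : RatFunc M} (hz : δ z = 0) : ∃ c : M, z = algebraMap M (RatFunc M) c := by
  have h1 : z = rf z.num / rf z.denom := (RatFunc.num_div_denom z).symm
  have hb : z.denom ≠ 0 := z.denom_ne_zero
  rw [h1] at hz
  have h2 := deriv_of_delta hδ hb hz
  have hinf : Infinite M := inferInstance
  obtain ⟨t, ht⟩ : ∃ t, z.denom.eval t ≠ 0 := by
    by_contra hno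
    push Not at hno
    exact hb (Polynomial.funext fun t => by rw [hno t, Polynomial.eval_zero])
  refine ⟨z.num.eval t / z.denom.eval t, ?_⟩
  have h3 : z.num = Polynomial.C (z.num.eval t / z.denom.eval t) * z.denom := by
    apply Polynomial.funext
    intro s
    have h4 := poly_const h2 s t
    rw [Polynomial.eval_mul, Polynomial.eval_C]
    field_simp
    exact h4
  have hb' : rf z.denom ≠ 0 := by rwa [Ne, rf_zero]
  have h5 : rf z.num = rf (Polynomial.C (z.num.eval t / z.denom.eval t)) * rf z.denom := by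
    rw [← rf_mul, ← h3]
  conv_lhs => rw [h1]
  rw [h5, mul_div_cancel_right₀ _ hb']
  unfold rf
  rw [RatFunc.algebraMap_C]
  rfl

variable {δ : Derivation k (RatFunc M) (RatFunc M)}
  (hc : ∀ z ∈ consts δ, ∃ c : M, z = algebraMap M (RatFunc M) c)

include hc

theorem adjoin_X {z : RatFunc M} (hz : z ∈ Algebra.adjoin (consts δ) {(RatFunc.X : RatFunc M)}) :
    ∃ p : Polynomial M, z = rf p := by
  induction hz using Algebra.adjoin_induction with
  | mem z hz =>
    rw [Set.mem_singleton_iff] at hz
    exact ⟨Polynomial.X, by rw [hz]; unfold rf; rw [RatFunc.algebraMap_X]⟩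
  | algebraMap r =>
    obtain ⟨c, hc⟩ := hc r r.2
    refine ⟨Polynomial.C c, ?_⟩
    unfold rf
    rw [RatFunc.algebraMap_C]
    exact hc
  | add f g _ _ hf hg =>
    obtain ⟨p, hp⟩ := hf
    obtain ⟨q, hq⟩ := hg
    exact ⟨p + q, by rw [hp, hq]; exact (map_add _ _ _).symm⟩
  | mul f g _ _ hf hg =>
    obtain ⟨p, hp⟩ := hf
    obtain ⟨q, hq⟩ := hg
    exact ⟨p * q, by rw [hp, hq]; exact (map_mul _ _ _).symm⟩

theorem adjoin_inv {z : RatFunc M}
    (hz : z ∈ Algebra.adjoin (consts δ) {(RatFunc.X : RatFunc M)⁻¹}) :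
    z = 0 ∨ z.intDegree ≤ 0 := by
  induction hz using Algebra.adjoin_induction with
  | mem z hz =>
    rw [Set.mem_singleton_iff] at hz
    right
    rw [hz, RatFunc.intDegree_inv, RatFunc.intDegree_X]
    norm_num
  | algebraMap r =>
    obtain ⟨c, hc⟩ := hc r r.2
    right
    have h1 : algebraMap (consts δ) (RatFunc M) r = RatFunc.C c := hc
    rw [h1, RatFunc.intDegree_C]
  | add f g _ _ hf hg =>
    by_cases h0 : f + g = 0
    · exact Or.inl h0
    right
    rcases eq_or_ne f 0 with rfl | hf0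
    · rw [zero_add] at h0 ⊢
      exact hg.resolve_left h0
    rcases eq_or_ne g 0 with rfl | hg0
    · rw [add_zero] at h0 ⊢
      exact hf.resolve_left h0
    exact (RatFunc.intDegree_add_le hg0 h0).trans
      (max_le (hf.resolve_left hf0) (hg.resolve_left hg0))
  | mul f g _ _ hf hg =>
    rcases hf with rfl | hf
    · left
      rw [zero_mul]
    rcases hg with rfl | hg
    · left
      rw [mul_zero]
    rcases eq_or_ne f 0 with rfl | hf0
    · left
      rw [zero_mul]
    rcases eq_or_ne g 0 with rfl | hg0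
    · left
      rw [mul_zero]
    right
    rw [RatFunc.intDegree_mul hf0 hg0]
    omega

end consts

variable {k K M : Type} [Field k] [Field K] [Field M] [Algebra k K] [Algebra k M] {n r : ℕ}

/-- `ω` is a section of `N (K_X + D)` twisted by `O(kk)`. -/
def LogSecT (k K : Type) [Field k] [Field K] [Algebra k K] {n : ℕ} (w N kk : ℕ)
    (Bd : Place k K → Prop) (y : Fin (n + 1) → K) (ω : (Fin w → Derivation k K K) → K) : Prop :=
  IsPluri N ω ∧ ∀ P : Place k K, Divisorial w P → ∃ i, y i ≠ 0 ∧
    LogAt P (fun D => ω D / y i ^ kk) ∧ (¬ Bd P → RegAt P fun D => ω D / y i ^ kk)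

/-- **Families of curves: the degree of the forms.** -/
theorem geo_fin [CharZero k] {w m : ℕ} (hdim : Algebra.trdeg k K = w)
    (hm : Algebra.trdeg k M = m) {y : Fin (n + 1) → K} (hy : y ≠ 0) (hgen : coords k y = ⊤)
    (F : Fin r → MvPolynomial (Fin (n + 1)) k) (d : Fin r → ℕ) (hF : ∀ j, (F j).IsHomogeneous (d j))
    (W : Fin (n + 1) → Polynomial M)
    (rel : ∀ G : MvPolynomial (Fin (n + 1)) k, IsForm G →
      (W602.GT.val y G = 0 ↔ (aeval W G : Polynomial M) = 0))
    (a : Fin r → Polynomial M) (q : Polynomial M) (hq : q ≠ 0) (κ : ℕ)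
    (hsum : ∑ j, a j * aeval W (F j) = (q * Polynomial.X) ^ κ)
    {N : ℕ} (hN : 0 < N) (kk dW : ℕ) (hdW : ∀ i, (W i).natDegree ≤ dW) {u g0 : ℕ}
    (ω : Fin u → (Fin w → Derivation k K K) → K)
    (hω : ∀ i, LogSecT k K w N kk (NoCentre F d y) y (ω i))
    (G : Fin u → MvPolynomial (Fin (n + 1)) k) (hG : ∀ i, (G i).IsHomogeneous g0)
    (hrat : ∀ i j D, W602.GT.val y (G i) * ω j D = W602.GT.val y (G j) * ω i D)
    (hne : ∃ i D, ω i D ≠ 0) (hGne : ∃ i, W602.GT.val y (G i) ≠ 0) :
    ∃ b : Fin u → Polynomial M, (∃ i, b i ≠ 0) ∧ (∀ i, (b i).natDegree ≤ N * q.natDegree + kk * dW) ∧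
      ∀ i j, aeval W (G i) * b j = aeval W (G j) * b i := by
  classical
  have hchar : CharZero M := charZero_of_injective_algebraMap (algebraMap k M).injective
  have hFam : Fam y (1 : MvPolynomial (Fin (n + 1)) k) W 0 := ⟨rel, 1, one_ne_zero, by simp⟩
  obtain ⟨φ, hφ⟩ := hFam.emb hy hgen
  obtain ⟨δ, hδ, htop⟩ := exists_delta k M
  have hess : Algebra.EssFiniteType k K := ess_of_coords hgen
  let _ : Algebra K (RatFunc M) := φ.toRingHom.toAlgebra
  have t1 : IsScalarTower k K (RatFunc M) := IsScalarTower.of_algebraMap_eq fun c => by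
    change _ = φ (algebraMap k K c)
    rw [φ.commutes]
  have hL : Algebra.trdeg k (RatFunc M) = (m + 1 : ℕ) := trdeg_ratFunc k M hm
  have hX0 : (RatFunc.X : RatFunc M) ≠ 0 := RatFunc.X_ne_zero
  have hX : δ (RatFunc.X : RatFunc M) = RatFunc.X := by
    have := hδ Polynomial.X
    rwa [RatFunc.algebraMap_X, Polynomial.derivative_X, map_one, mul_one] at this
  have hcM : ∀ c : M, δ (algebraMap M (RatFunc M) c) = 0 := by
    intro c
    have := hδ (Polynomial.C c)
    rw [Polynomial.derivative_C, map_zero, mul_zero, RatFunc.algebraMap_C] at this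
    exact this
  have hcons : ∀ z ∈ consts δ, ∃ c : M, z = algebraMap M (RatFunc M) c :=
    fun z hz => const_M hδ hz
  obtain ⟨y0, hy0⟩ : ∃ y0 : Fin w → K, IsTranscendenceBasis k y0 := by
    obtain ⟨B, hB⟩ := exists_isTranscendenceBasis k K
    have hcard := hB.cardinalMk_eq_trdeg
    rw [hdim] at hcard
    have hfin : Finite B := by
      rw [← Cardinal.lt_aleph0_iff_finite, hcard]
      exact Cardinal.natCast_lt_aleph0
    obtain ⟨m', ⟨e⟩⟩ := Finite.exists_equiv_fin B
    obtain rfl : m' = w := by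
      rw [Cardinal.mk_congr e, Cardinal.mk_fin] at hcard
      exact_mod_cast hcard
    exact ⟨fun i => (e.symm i : K), hB.comp_equiv e.symm⟩
  choose E hE using fun i => exists_der y0 hy0 (fun j => if i = j then (1 : K) else 0)
  have hD : Dual y0 E := ⟨hy0, hE⟩
  have hrq : rf q ≠ 0 := by rwa [Ne, rf_zero]
  have hbd : ∀ P : Place k (RatFunc M), (∀ c : RatFunc M, δ c = 0 → c ≠ 0 → P.ord c = 0) →
      P.ord (RatFunc.X : RatFunc M) = 0 →
      ∀ (v : Place k K) e, Over P v e → NoCentre F d y v → 1 ≤ P.ord (rf q) := by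
    rintro P hP hPX v e hv ⟨i, hi, hall⟩
    have hPM : ∀ c : M, c ≠ 0 → P.ord (algebraMap M (RatFunc M) c) = 0 := fun c hc =>
      hP _ (hcM c) (by rwa [Ne, map_eq_zero])
    have hWi : rf (W i) ≠ 0 := by
      rw [Ne, rf_zero]
      exact (hFam.ne i).1 hi
    have hregp : ∀ p : Polynomial M, P.Reg (rf p) := by
      intro p
      induction p using Polynomial.induction_on' with
      | add p q hp hq =>
        unfold rf at hp hq ⊢
        rw [map_add]
        exact P.reg_add hp hq
      | monomial n a =>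
        unfold rf
        rw [← Polynomial.C_mul_X_pow_eq_monomial, map_mul, map_pow, RatFunc.algebraMap_X,
          RatFunc.algebraMap_C]
        refine P.reg_mul ?_ ?_
        · by_cases ha : a = 0
          · left
            rw [ha, map_zero]
          · right
            exact (hPM a ha).ge
        · right
          rw [P.ord_pow, hPX, mul_zero]
    by_contra hq1
    have hcon : ∀ j, rf (aeval W (F j) : Polynomial M) ≠ 0 →
        P.ord (rf (aeval W (F j) : Polynomial M)) ≠ 0 := by
      intro j hj0 hj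
      have hFj : W602.GT.val y (F j) ≠ 0 := by
        intro h0
        apply hj0
        rw [rf_zero, ← rel (F j) ⟨d j, hF j⟩]
        exact h0
      have hlt := (hall j).resolve_left hFj
      have hvi : W602.GT.val y (X i ^ d j : MvPolynomial (Fin (n + 1)) k) = y i ^ d j := by
        unfold W602.GT.val
        rw [map_pow, aeval_X]
      have hXi : (X i ^ d j : MvPolynomial (Fin (n + 1)) k).IsHomogeneous (d j) := by
        have := (isHomogeneous_X k i).pow (d j)
        rwa [one_mul] at this
      have h1 := hφ (d j) (F j) (X i ^ d j) (hF j) hXi (by rw [hvi]; exact pow_ne_zero _ hi)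
      rw [map_pow, aeval_X, rf_pow, hvi] at h1
      have h2 := hv.2 (W602.GT.val y (F j) / y i ^ d j)
      change P.ord (φ _) = _ at h2
      rw [h1, P.ord_div hj0 (pow_ne_zero _ hWi), hj, P.ord_pow,
        v.ord_div hFj (pow_ne_zero _ hi), v.ord_pow] at h2
      have h3 : 0 ≤ P.ord (rf (W i)) := (P.reg_iff hWi).1 (hregp _)
      have h4 : 0 < (e : ℤ) * (v.ord (W602.GT.val y (F j)) - d j * v.ord (y i)) :=
        mul_pos (by exact_mod_cast hv.1) (by
          have h6 : (d j : ℤ) * v.ord (y i) < v.ord (W602.GT.val y (F j)) := hlt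
          linarith)
      rw [← h2] at h4
      have h5 : 0 ≤ (d j : ℤ) * P.ord (rf (W i)) := by positivity
      linarith
    -- all the terms have positive order
    have hpos : ∀ T : Finset (Fin r), rf (∑ j ∈ T, a j * aeval W (F j)) = 0 ∨
        0 < P.ord (rf (∑ j ∈ T, a j * aeval W (F j))) := by
      intro T
      induction T using Finset.induction_on with
      | empty => left; rw [Finset.sum_empty, rf_zero]
      | insert j T hjT ih =>
        rw [Finset.sum_insert hjT]
        have h1 : rf (a j * aeval W (F j)) = 0 ∨ 0 < P.ord (rf (a j * aeval W (F j))) := by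
          by_cases h0 : rf (aeval W (F j) : Polynomial M) = 0
          · left
            rw [rf_mul, h0, mul_zero]
          · by_cases h2 : rf (a j) = 0
            · left
              rw [rf_mul, h2, zero_mul]
            · right
              rw [rf_mul, P.ord_mul h2 h0]
              have h3 := (P.reg_iff h2).1 (hregp (a j))
              have h4 := (P.reg_iff h0).1 (hregp (aeval W (F j)))
              have h5 := hcon j h0
              omega
        have hadd : ∀ p q : Polynomial M, rf (p + q) = rf p + rf q := fun p q => map_add _ _ _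
        rw [hadd]
        rcases h1 with h1 | h1
        · rw [h1, zero_add]
          exact ih
        · rcases ih with h2 | h2
          · rw [h2, add_zero]
            exact Or.inr h1
          · by_cases h3 : rf (a j * aeval W (F j)) + rf (∑ j ∈ T, a j * aeval W (F j)) = 0
            · exact Or.inl h3
            · right
              have h4 : rf (a j * aeval W (F j)) ≠ 0 := by
                intro h0
                rw [h0, P.ord_zero] at h1
                exact lt_irrefl _ h1
              have h5 : rf (∑ j ∈ T, a j * aeval W (F j)) ≠ 0 := by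
                intro h0
                rw [h0, P.ord_zero] at h2
                exact lt_irrefl _ h2
              exact lt_of_lt_of_le (lt_min h1 h2) (P.ord_add h4 h5 h3)
    have h1 := hpos Finset.univ
    have h0 : 0 ≤ P.ord (rf q) := (P.reg_iff hrq).1 (hregp q)
    have h2 : rf (∑ j, a j * aeval W (F j)) = (rf q * RatFunc.X) ^ κ := by
      rw [hsum, rf_pow, rf_mul]
      unfold rf
      rw [RatFunc.algebraMap_X]
    rw [h2] at h1
    rcases h1 with h1 | h1
    · exact pow_ne_zero _ (mul_ne_zero hrq hX0) h1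
    · rw [P.ord_pow, P.ord_mul hrq hX0, hPX, add_zero] at h1
      have h3 : P.ord (rf q) = 0 := by omega
      rw [h3, mul_zero] at h1
      exact lt_irrefl _ h1
  obtain ⟨θ, E', hθ, hθE⟩ := exists_det_form (k := k) (K := K) hdim
  have hθ' : (θ : MultilinearMap K (fun _ : Fin w => Derivation k K K) K) ≠ 0 := by
    intro h0
    apply hθ
    ext D
    exact congrFun (congrArg DFunLike.coe h0) D
  obtain ⟨m', s', Δ, -, -, -, hcomm, -, hspan⟩ := exists_cframe hL δ hX0 hX htop
  obtain ⟨Q, hQ⟩ := pull_ne _ hθ' hD Δ hspan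
  set g := pull (θ : MultilinearMap K (fun _ : Fin w => Derivation k K K) K) y0 E
    (fun i => Δ (Q i)) with hg
  have hloc : ∀ j, ∀ v : Place k K, Divisorial w v → ∃ i, y i ≠ 0 ∧
      (∀ D : Fin w → Derivation k K K, (∀ i, DerLog v (D i)) →
        v.Reg (ω j E' / y i ^ kk * θ D ^ N)) ∧
      (¬ NoCentre F d y v → ∀ D : Fin w → Derivation k K K, (∀ i, DerReg v (D i)) →
        v.Reg (ω j E' / y i ^ kk * θ D ^ N)) := by
    intro j v hv
    obtain ⟨i, hi, h1, h2⟩ := (hω j).2 v hv
    have h3 : ∀ D : Fin w → Derivation k K K, ω j E' / y i ^ kk * θ D ^ N =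
        ω j D / y i ^ kk := by
      intro D
      rw [div_mul_eq_mul_div, hθE N (ω j) (hω j).1]
    refine ⟨i, hi, fun D hD' => ?_, fun hB D hD' => ?_⟩
    · rw [h3]
      exact h1 D hD'
    · rw [h3]
      exact h2 hB D hD'
  set dq := q.natDegree with hdq
  -- polynomials
  have hrfX : ∀ p : Polynomial M, rf p ∈ Algebra.adjoin (consts δ) {(RatFunc.X : RatFunc M)} := by
    intro p
    induction p using Polynomial.induction_on' with
    | add p q hp hq =>
      unfold rf at hp hq ⊢
      rw [map_add]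
      exact Subalgebra.add_mem _ hp hq
    | monomial n a =>
      unfold rf
      rw [← Polynomial.C_mul_X_pow_eq_monomial, map_mul, map_pow, RatFunc.algebraMap_X,
        RatFunc.algebraMap_C]
      refine Subalgebra.mul_mem _ ?_ (Subalgebra.pow_mem _
        (Algebra.self_mem_adjoin_singleton _ _) _)
      exact (Algebra.adjoin (consts δ) {(RatFunc.X : RatFunc M)}).algebraMap_mem
        (⟨_, hcM a⟩ : consts δ)
  have hinv : ∀ (p : Polynomial M) (D : ℕ), p.natDegree ≤ D → rf p * RatFunc.X⁻¹ ^ D ∈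
      Algebra.adjoin (consts δ) {(RatFunc.X : RatFunc M)⁻¹} := by
    intro p D hpD
    have h1 : rf p * RatFunc.X⁻¹ ^ D = ∑ i ∈ Finset.range (D + 1),
        algebraMap M (RatFunc M) (p.coeff i) * (RatFunc.X : RatFunc M)⁻¹ ^ (D - i) := by
      have h2 : rf p = ∑ i ∈ Finset.range (D + 1),
          algebraMap M (RatFunc M) (p.coeff i) * (RatFunc.X : RatFunc M) ^ i := by
        conv_lhs => rw [p.as_sum_range_C_mul_X_pow' (n := D + 1) (by omega)]
        unfold rf
        rw [map_sum]
        refine Finset.sum_congr rfl fun i _ => ?_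
        rw [map_mul, map_pow, RatFunc.algebraMap_X, RatFunc.algebraMap_C]
        rfl
      rw [h2, Finset.sum_mul]
      refine Finset.sum_congr rfl fun i hi => ?_
      have hi' : i ≤ D := Nat.lt_succ_iff.1 (Finset.mem_range.1 hi)
      have h3 : (RatFunc.X : RatFunc M)⁻¹ ^ D = RatFunc.X⁻¹ ^ i * RatFunc.X⁻¹ ^ (D - i) := by
        rw [← pow_add, Nat.add_sub_cancel' hi']
      rw [h3, mul_assoc, ← mul_assoc (RatFunc.X ^ i), ← mul_pow, mul_inv_cancel₀ hX0, one_pow,
        one_mul]
    rw [h1]
    refine Subalgebra.sum_mem _ fun i _ => Subalgebra.mul_mem _ ?_ (Subalgebra.pow_mem _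
      (Algebra.self_mem_adjoin_singleton _ _) _)
    exact (Algebra.adjoin (consts δ) {(RatFunc.X : RatFunc M)⁻¹}).algebraMap_mem
      (⟨_, hcM _⟩ : consts δ)
  -- the twist
  obtain ⟨ic, hic⟩ := Function.ne_iff.1 hy
  have hic' : y ic ≠ 0 := hic
  have hφic : φ (y ic) ≠ 0 := by rwa [Ne, map_eq_zero]
  obtain ⟨lam, hlam, hlam0⟩ : ∃ lam : RatFunc M, (∀ i, lam * φ (y i) = rf (W i)) ∧ lam ≠ 0 := by
    have hWic : rf (W ic) ≠ 0 := by
      rw [Ne, rf_zero]
      exact (hFam.ne ic).1 hic'
    refine ⟨rf (W ic) / φ (y ic), fun i => ?_, div_ne_zero hWic hφic⟩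
    have h1 := hφ 1 (X i : MvPolynomial (Fin (n + 1)) k) (X ic : MvPolynomial (Fin (n + 1)) k)
      (isHomogeneous_X k i) (isHomogeneous_X k ic) (by
      unfold W602.GT.val
      rwa [aeval_X])
    unfold W602.GT.val at h1
    rw [aeval_X, aeval_X, aeval_X, aeval_X, map_div₀, div_eq_div_iff hφic hWic] at h1
    field_simp
    rw [mul_comm, h1, mul_comm]
  have hz1 : ∀ j, φ (ω j E') * lam ^ kk * (rf q * g) ^ N ∈
      Algebra.adjoin (consts δ) {(RatFunc.X : RatFunc M)} := fun j =>
    val_pole hdim hL θ hN (ω j E') y hy kk (hloc j) hD δ hX0 hX htop (Or.inl rfl) (hrfX q)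
      (lam := lam) (fun i => by
        change lam * φ (y i) ∈ _
        rw [hlam]
        exact hrfX _)
      (fun P h1 h2 v e hv hB => Or.inr (hbd P h1 h2 v e hv hB)) (fun i => Δ (Q i))
      fun i z => hcomm _ z
  have hz2 : ∀ j, φ (ω j E') * (lam * RatFunc.X⁻¹ ^ dW) ^ kk *
      ((rf q * RatFunc.X⁻¹ ^ dq) * g) ^ N ∈
      Algebra.adjoin (consts δ) {(RatFunc.X : RatFunc M)⁻¹} := fun j =>
    val_pole hdim hL θ hN (ω j E') y hy kk (hloc j) hD δ hX0 hX htop (Or.inr rfl)
      (hinv q dq le_rfl) (lam := lam * RatFunc.X⁻¹ ^ dW) (fun i => by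
        change lam * RatFunc.X⁻¹ ^ dW * φ (y i) ∈ _
        rw [mul_right_comm, hlam]
        exact hinv _ _ (hdW i))
      (fun P h1 h2 v e hv hB => Or.inr (by
        rw [P.ord_mul hrq (pow_ne_zero _ (inv_ne_zero hX0)), P.ord_pow, P.ord_inv, h2, neg_zero,
          mul_zero, add_zero]
        exact hbd P h1 h2 v e hv hB)) (fun i => Δ (Q i))
      fun i z => hcomm _ z
  choose b hb using fun j => adjoin_X hcons (hz1 j)
  have hrfX' : rf (Polynomial.X : Polynomial M) = RatFunc.X := by
    unfold rf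
    rw [RatFunc.algebraMap_X]
  -- the relation of the values at `E'`
  obtain ⟨i0, hi0⟩ := hGne
  have hWi0 : rf (aeval W (G i0) : Polynomial M) ≠ 0 := by
    rw [Ne, rf_zero, ← rel (G i0) ⟨g0, hG i0⟩]
    exact hi0
  have hval : ∀ i, φ (ω i E') = rf (aeval W (G i)) / rf (aeval W (G i0)) * φ (ω i0 E') := by
    intro i
    rw [← hφ g0 (G i) (G i0) (hG i) (hG i0) hi0, ← map_mul]
    congr 1
    rw [div_mul_eq_mul_div, eq_div_iff hi0, mul_comm (ω i E')]
    exact hrat i0 i E'
  have hf0 : ω i0 E' ≠ 0 := by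
    obtain ⟨i, D, hiD⟩ := hne
    intro h0
    have h1 := hval i
    rw [h0, map_zero, mul_zero, map_eq_zero] at h1
    apply hiD
    rw [← hθE N (ω i) (hω i).1 D, h1, zero_mul]
  refine ⟨b, ⟨i0, ?_⟩, ?_, ?_⟩
  · intro h0
    have h1 := hb i0
    rw [h0, rf_zero.2 rfl] at h1
    rcases mul_eq_zero.1 h1 with h2 | h2
    · exact mul_ne_zero (fun h3 => hf0 ((map_eq_zero _).1 h3)) (pow_ne_zero _ hlam0) h2
    · exact mul_ne_zero hrq hQ (pow_eq_zero_iff hN.ne' |>.1 h2)
  · intro i
    by_cases hbi : b i = 0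
    · rw [hbi, Polynomial.natDegree_zero]
      exact Nat.zero_le _
    have h1 := adjoin_inv hcons (hz2 i)
    have h2 : φ (ω i E') * (lam * RatFunc.X⁻¹ ^ dW) ^ kk *
        ((rf q * RatFunc.X⁻¹ ^ dq) * g) ^ N =
        rf (b i) * RatFunc.X⁻¹ ^ (N * dq + kk * dW) := by
      rw [← hb i, pow_add, mul_comm N dq, pow_mul, mul_comm kk dW, pow_mul]
      ring
    have hbi' : rf (b i) ≠ 0 := by rwa [Ne, rf_zero]
    rw [h2] at h1
    have h3 := h1.resolve_left (mul_ne_zero hbi' (pow_ne_zero _ (inv_ne_zero hX0)))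
    have h4 : ((RatFunc.X : RatFunc M)⁻¹ ^ (N * dq + kk * dW)).intDegree = -((N * dq + kk * dW : ℕ) : ℤ) := by
      rw [inv_pow, RatFunc.intDegree_inv]
      congr 1
      have h5 : (RatFunc.X : RatFunc M) ^ (N * dq + kk * dW) =
          algebraMap (Polynomial M) (RatFunc M) (Polynomial.X ^ (N * dq + kk * dW)) := by
        rw [map_pow, RatFunc.algebraMap_X]
      rw [h5, RatFunc.intDegree_polynomial, Polynomial.natDegree_X_pow]
    rw [RatFunc.intDegree_mul hbi' (pow_ne_zero _ (inv_ne_zero hX0)), h4] at h3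
    have h5 : (rf (b i)).intDegree = ((b i).natDegree : ℤ) := RatFunc.intDegree_polynomial
    rw [h5] at h3
    omega
  · intro i j
    apply rf_inj
    rw [rf_mul, rf_mul, ← hb i, ← hb j, hval i, hval j]
    field_simp

end Pool.Agent.D0H97.VV
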