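import Pool.Agent.D0H97.VV.Gc
import Pool.Agent.D0H85.SP.Curve

/-!
Logarithmic forms of maximal degree on a family of rational curves over an arbitrary field.
-/

set_option autoImplicit false
set_option linter.unusedSectionVars false

open FF Pool.Agent.W602.GT Pool.Agent.W603.LV MvPolynomial Pool.Agent.TH143.GT
open Pool.Agent.D0H85.SQ (NoCentre poly_const map_aev exists_comb)
open IntermediateField hiding val

namespace Pool.Agent.D0H97.VV

section comb

variable {M : Type} [Field M] {r : ℕ}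

/-- Hilbert's theorem in one variable -/
theorem comb_pow (p : Fin r → Polynomial M) (hp : ∃ j, p j ≠ 0) (Q : Polynomial M)
    (h : ∀ t : AlgebraicClosure M, (∀ j, Polynomial.aeval t (p j) = 0) →
      Polynomial.aeval t Q = 0) :
    ∃ (a : Fin r → Polynomial M) (κ : ℕ), ∑ j, a j * p j = Q ^ κ := by
  classical
  obtain ⟨j0, hj0⟩ := hp
  let I : Ideal (Polynomial M) := Ideal.span (Set.range p)
  have h1 : Q ∈ I.radical := by
    rw [Ideal.radical_eq_sInf, Submodule.mem_sInf]
    rintro J ⟨hIJ, hJ⟩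
    have hpJ : ∀ j, p j ∈ J := fun j => hIJ (Ideal.subset_span ⟨j, rfl⟩)
    set π := Submodule.IsPrincipal.generator J with hπ
    have hJπ : J = Ideal.span {π} := (Ideal.span_singleton_generator J).symm
    have hdvd : ∀ j, π ∣ p j := by
      intro j
      have h1 := hpJ j
      rw [hJπ, Ideal.mem_span_singleton] at h1
      exact h1
    have hπ0 : π ≠ 0 := by
      intro h0
      have h1 := hdvd j0
      rw [h0, zero_dvd_iff] at h1
      exact hj0 h1
    have hprime : Prime π := by
      rw [← Ideal.span_singleton_prime hπ0, ← hJπ]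
      exact hJ
    have hdeg : π.degree ≠ 0 := by
      intro h0
      exact hprime.not_isUnit (Polynomial.isUnit_iff_degree_eq_zero.2 h0)
    have hdeg' : (π.map (algebraMap M (AlgebraicClosure M))).degree ≠ 0 := by
      rw [Polynomial.degree_map]
      exact hdeg
    obtain ⟨t, ht⟩ := IsAlgClosed.exists_root _ hdeg'
    have ht' : Polynomial.aeval t π = 0 := by
      rw [Polynomial.IsRoot.def, Polynomial.eval_map, ← Polynomial.aeval_def] at ht
      exact ht
    have hQt : Polynomial.aeval t Q = 0 := by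
      apply h t
      intro j
      obtain ⟨b, hb⟩ := hdvd j
      rw [hb, map_mul, ht', zero_mul]
    rw [hJπ, Ideal.mem_span_singleton]
    by_contra hno
    obtain ⟨u, v, huv⟩ := (Irreducible.coprime_iff_not_dvd hprime.irreducible).2 hno
    have h2 := congrArg (Polynomial.aeval t) huv
    rw [map_add, map_mul, map_mul, ht', hQt, mul_zero, mul_zero, add_zero, map_one] at h2
    exact zero_ne_one h2
  obtain ⟨κ, hκ⟩ := h1
  obtain ⟨a, ha⟩ := (Ideal.mem_span_range_iff_exists_fun).1 hκ
  exact ⟨a, κ, ha⟩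

end comb

variable {k K M : Type} [Field k] [Field K] [Field M] [Algebra k K] [Algebra k M] {n r : ℕ}

/-- **Families of curves over arbitrary fields.** -/
theorem geo [CharZero k] {w : ℕ} (hdim : Algebra.trdeg k K = w)
    {y : Fin (n + 1) → K} (hy : y ≠ 0) (hgen : coords k y = ⊤)
    (F : Fin r → MvPolynomial (Fin (n + 1)) k) (d : Fin r → ℕ) (hF : ∀ j, (F j).IsHomogeneous (d j))
    (W : Fin (n + 1) → Polynomial M)
    (rel : ∀ G : MvPolynomial (Fin (n + 1)) k, IsForm G →
      (W602.GT.val y G = 0 ↔ (aeval W G : Polynomial M) = 0))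
    (a : Fin r → Polynomial M) (q : Polynomial M) (hq : q ≠ 0) (κ : ℕ)
    (hsum : ∑ j, a j * aeval W (F j) = (q * Polynomial.X) ^ κ)
    {N : ℕ} (hN : 0 < N) (kk dW : ℕ) (hdW : ∀ i, (W i).natDegree ≤ dW) {u g0 : ℕ}
    (ω : Fin u → (Fin w → Derivation k K K) → K)
    (hω : ∀ i, LogSecT k K w N kk (NoCentre F d y) y (ω i))
    (G : Fin u → MvPolynomial (Fin (n + 1)) k) (hG : ∀ i, (G i).IsHomogeneous g0)
    (hrat : ∀ i j D, W602.GT.val y (G i) * ω j D = W602.GT.val y (G j) * ω i D)
    (hne : ∃ i D, ω i D ≠ 0) (hGne : ∃ i, W602.GT.val y (G i) ≠ 0) :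
    ∃ b : Fin u → Polynomial M, (∃ i, b i ≠ 0) ∧ (∀ i, (b i).natDegree ≤ N * q.natDegree + kk * dW) ∧
      ∀ i j, aeval W (G i) * b j = aeval W (G j) * b i := by
  classical
  let T : Finset M := (Finset.univ.biUnion fun j => (W j).support.image fun n => (W j).coeff n) ∪
    (Finset.univ.biUnion fun j => (a j).support.image fun n => (a j).coeff n) ∪
    (q.support.image fun n => q.coeff n)
  let M0 : IntermediateField k M := IntermediateField.adjoin k (T : Set M)
  have hess : Algebra.EssFiniteType k M0 := IntermediateField.essFiniteType_iff.2 ⟨T, rfl⟩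
  have hlt := trdeg_lt_aleph0 k M0
  obtain ⟨m, hm⟩ := Cardinal.lt_aleph0.1 hlt
  have hTM : ∀ z ∈ T, z ∈ M0 := fun z hz => IntermediateField.subset_adjoin k _ hz
  have hlift : ∀ p : Polynomial M, (∀ i, p.coeff i ≠ 0 → p.coeff i ∈ M0) →
      ∃ q : Polynomial M0, q.map (M0.val : M0 →+* M) = p := by
    intro p hp
    have h1 : p ∈ Polynomial.lifts (M0.val : M0 →+* M) := by
      rw [Polynomial.lifts_iff_coeff_lifts]
      intro i
      by_cases hi : p.coeff i = 0
      · rw [hi]
        exact ⟨0, map_zero _⟩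
      · exact ⟨⟨_, hp i hi⟩, rfl⟩
    exact (Polynomial.mem_lifts _).1 h1
  have hW : ∀ j, ∃ q : Polynomial M0, q.map (M0.val : M0 →+* M) = W j := by
    intro j
    refine hlift _ fun i hi => hTM _ ?_
    simp only [T, Finset.mem_union, Finset.mem_biUnion, Finset.mem_univ, true_and,
      Finset.mem_image]
    exact Or.inl (Or.inl ⟨j, i, Polynomial.mem_support_iff.2 hi, rfl⟩)
  have ha : ∀ j, ∃ q : Polynomial M0, q.map (M0.val : M0 →+* M) = a j := by
    intro j
    refine hlift _ fun i hi => hTM _ ?_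
    simp only [T, Finset.mem_union, Finset.mem_biUnion, Finset.mem_univ, true_and,
      Finset.mem_image]
    exact Or.inl (Or.inr ⟨j, i, Polynomial.mem_support_iff.2 hi, rfl⟩)
  obtain ⟨q', hq'⟩ : ∃ q' : Polynomial M0, q'.map (M0.val : M0 →+* M) = q := by
    refine hlift _ fun i hi => hTM _ ?_
    simp only [T, Finset.mem_union, Finset.mem_biUnion, Finset.mem_univ, true_and,
      Finset.mem_image]
    exact Or.inr ⟨i, Polynomial.mem_support_iff.2 hi, rfl⟩
  choose W' hW' using hW
  choose a' ha' using ha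
  have hMinj : Function.Injective (M0.val : M0 →+* M) := M0.val.toRingHom.injective
  have hmap : ∀ G : MvPolynomial (Fin (n + 1)) k,
      (aeval W' G).map (M0.val : M0 →+* M) = aeval W G := by
    intro G
    rw [map_aev]
    congr 1
    congr 1
    funext j
    exact hW' j
  obtain ⟨b, ⟨i0, hi0⟩, hb1, hb2⟩ := geo_fin (M := M0) hdim hm hy hgen F d hF W' (by
    intro G hG
    rw [rel G hG, ← hmap, Polynomial.map_eq_zero_iff hMinj]) a' q' (by
    rintro rfl
    rw [Polynomial.map_zero] at hq'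
    exact hq hq'.symm) κ (by
    apply Polynomial.map_injective _ hMinj
    rw [Polynomial.map_sum, Polynomial.map_pow, Polynomial.map_mul, Polynomial.map_X, hq', ← hsum]
    refine Finset.sum_congr rfl fun j _ => ?_
    rw [Polynomial.map_mul, hmap, ha']) hN kk dW (fun i => by
    rw [← Polynomial.natDegree_map_eq_of_injective hMinj, hW']
    exact hdW i) ω hω G hG hrat hne hGne
  refine ⟨fun i => (b i).map (M0.val : M0 →+* M), ⟨i0, ?_⟩, ?_, ?_⟩
  · rwa [Ne, Polynomial.map_eq_zero_iff hMinj]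
  · intro i
    rw [← hq', Polynomial.natDegree_map_eq_of_injective hMinj,
      Polynomial.natDegree_map_eq_of_injective hMinj]
    exact hb1 i
  · intro i j
    rw [← hmap, ← hmap, ← Polynomial.map_mul, ← Polynomial.map_mul, hb2]

/-- **The degree.** -/
theorem geo_deg [CharZero k] {w : ℕ} (hdim : Algebra.trdeg k K = w)
    {y : Fin (n + 1) → K} (hy : y ≠ 0) (hgen : coords k y = ⊤)
    (F : Fin r → MvPolynomial (Fin (n + 1)) k) (d : Fin r → ℕ) (hF : ∀ j, (F j).IsHomogeneous (d j))
    (W : Fin (n + 1) → Polynomial M)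
    (rel : ∀ G : MvPolynomial (Fin (n + 1)) k, IsForm G →
      (W602.GT.val y G = 0 ↔ (aeval W G : Polynomial M) = 0))
    (aW : ℕ) (haW : ∀ i, Polynomial.X ^ aW ∣ W i)
    (hFW : ∃ j, (aeval W (F j) : Polynomial M) ≠ 0) (Q : Polynomial M) (hQ : Q ≠ 0)
    (hroot : ∀ t : AlgebraicClosure M, t ≠ 0 →
      (∀ j, Polynomial.aeval t (aeval W (F j) : Polynomial M) = 0) → Polynomial.aeval t Q = 0)
    {N : ℕ} (hN : 0 < N) (kk dW : ℕ) (hdW : ∀ i, (W i).natDegree ≤ dW) {u g0 : ℕ}
    (ω : Fin u → (Fin w → Derivation k K K) → K)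
    (hω : ∀ i, LogSecT k K w N kk (NoCentre F d y) y (ω i))
    (G : Fin u → MvPolynomial (Fin (n + 1)) k) (hG : ∀ i, (G i).IsHomogeneous g0)
    (hrat : ∀ i j D, W602.GT.val y (G i) * ω j D = W602.GT.val y (G j) * ω i D)
    (hne : ∃ i D, ω i D ≠ 0) (hGne : ∃ i, W602.GT.val y (G i) ≠ 0)
    (c : Polynomial M) (hc : c ≠ 0) (ρ : Fin u → Polynomial M)
    (hρ : ∀ i, aeval W (G i) = c * ρ i)
    (hcop : ∀ t : AlgebraicClosure M, t ≠ 0 → ∃ i, Polynomial.aeval t (ρ i) ≠ 0)
    (i j : Fin u) (hj : ρ j ≠ 0) :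
    (ρ i).natDegree + N * Q.natTrailingDegree + kk * aW ≤
      (ρ j).natTrailingDegree + N * Q.natDegree + kk * dW := by
  classical
  choose W' hW' using haW
  have hX : ∀ m : ℕ, (Polynomial.X : Polynomial M) ^ m ≠ 0 := fun m =>
    pow_ne_zero _ Polynomial.X_ne_zero
  have hval : ∀ (g : MvPolynomial (Fin (n + 1)) k) (e : ℕ), g.IsHomogeneous e →
      (aeval W g : Polynomial M) = (Polynomial.X ^ aW) ^ e * aeval W' g := by
    intro g e hg
    have h1 : W = fun i => Polynomial.X ^ aW * W' i := funext hW'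
    rw [h1, aeval_def, Pool.Agent.D0H85.SP.eval₂_smul _ _ e hg, ← aeval_def]
  have rel' : ∀ G : MvPolynomial (Fin (n + 1)) k, IsForm G →
      (W602.GT.val y G = 0 ↔ (aeval W' G : Polynomial M) = 0) := by
    rintro G ⟨e, he⟩
    rw [rel G ⟨e, he⟩, hval G e he, mul_eq_zero, or_iff_right (pow_ne_zero _ (hX _))]
  have hdW' : ∀ i, (W' i).natDegree ≤ dW - aW := by
    intro i
    by_cases h0 : W' i = 0
    · rw [h0, Polynomial.natDegree_zero]
      exact Nat.zero_le _
    · have h1 := hdW i
      rw [hW' i, Polynomial.natDegree_mul (hX _) h0, Polynomial.natDegree_X_pow] at h1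
      omega
  have hle : aW ≤ dW := by
    obtain ⟨i0, hi0⟩ := Function.ne_iff.1 hy
    have h1 : W' i0 ≠ 0 := by
      have h2 := rel' (X i0) ⟨1, isHomogeneous_X _ _⟩
      unfold W602.GT.val at h2
      rw [aeval_X, aeval_X] at h2
      exact fun h3 => hi0 (h2.2 h3)
    have h2 := hdW i0
    rw [hW' i0, Polynomial.natDegree_mul (hX _) h1, Polynomial.natDegree_X_pow] at h2
    omega
  -- remove the power of `X`
  obtain ⟨q, hq, hqX⟩ : ∃ q : Polynomial M, Q = Polynomial.X ^ Q.natTrailingDegree * q ∧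
      q.natDegree + Q.natTrailingDegree = Q.natDegree := by
    obtain ⟨q, hq⟩ : Polynomial.X ^ Q.natTrailingDegree ∣ Q := by
      rw [Polynomial.X_pow_dvd_iff]
      intro m hm
      exact Polynomial.coeff_eq_zero_of_lt_natTrailingDegree hm
    refine ⟨q, hq, ?_⟩
    have hq0 : q ≠ 0 := by
      rintro rfl
      rw [mul_zero] at hq
      exact hQ hq
    have h1 := congrArg Polynomial.natDegree hq
    rw [Polynomial.natDegree_mul (pow_ne_zero _ Polynomial.X_ne_zero) hq0,
      Polynomial.natDegree_X_pow] at h1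
    omega
  have hq0 : q ≠ 0 := by
    rintro rfl
    rw [mul_zero] at hq
    exact hQ hq
  obtain ⟨a, κ, hsum⟩ := comb_pow (fun j => (aeval W' (F j) : Polynomial M)) (by
    obtain ⟨j, hj⟩ := hFW
    refine ⟨j, fun h0 => hj ?_⟩
    have h1 : (aeval W' (F j) : Polynomial M) = 0 := h0
    rw [hval (F j) (d j) (hF j), h1, mul_zero]) (q * Polynomial.X) (by
    intro t ht
    rw [map_mul, Polynomial.aeval_X]
    by_cases ht0 : t = 0
    · rw [ht0, mul_zero]
    · have h1 := hroot t ht0 fun j => by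
        have h2 : Polynomial.aeval t (aeval W' (F j) : Polynomial M) = 0 := ht j
        rw [hval (F j) (d j) (hF j), map_mul, h2, mul_zero]
      rw [hq, map_mul, map_pow, Polynomial.aeval_X] at h1
      rw [(mul_eq_zero.1 h1).resolve_left (pow_ne_zero _ ht0), zero_mul])
  obtain ⟨b, ⟨i0, hi0⟩, hb1, hb2⟩ := geo hdim hy hgen F d hF W' rel' a q hq0 κ hsum hN kk
    (dW - aW) hdW' ω hω G hG hrat hne hGne
  obtain ⟨v, c0, ℓ, hc0, hv⟩ := exists_comb ρ hcop
  have hrb : ∀ i j, ρ i * b j = ρ j * b i := by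
    intro i j
    have h1 := congrArg (fun z => (Polynomial.X ^ aW) ^ g0 * z) (hb2 i j)
    simp only [← mul_assoc] at h1
    rw [← hval (G i) g0 (hG i), ← hval (G j) g0 (hG j), hρ, hρ, mul_assoc, mul_assoc] at h1
    exact mul_left_cancel₀ hc h1
  set B := ∑ i, v i * b i with hB
  have hrB : ∀ j, ρ j * B = Polynomial.C c0 * Polynomial.X ^ ℓ * b j := by
    intro j
    rw [← hv, hB, Finset.mul_sum, Finset.sum_mul]
    refine Finset.sum_congr rfl fun i _ => ?_
    have h1 := hrb i j
    calc ρ j * (v i * b i) = v i * (ρ j * b i) := by ring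
      _ = v i * (ρ i * b j) := by rw [h1]
      _ = v i * ρ i * b j := by ring
  have hCX : Polynomial.C c0 * Polynomial.X ^ ℓ ≠ (0 : Polynomial M) :=
    mul_ne_zero (Polynomial.C_ne_zero.2 hc0) (pow_ne_zero _ Polynomial.X_ne_zero)
  have hB0 : B ≠ 0 := by
    intro h0
    have h1 := hrB i0
    rw [h0, mul_zero] at h1
    exact mul_ne_zero hCX hi0 h1.symm
  have hbj : b j ≠ 0 := by
    intro h0
    have h1 := hrB j
    rw [h0, mul_zero] at h1
    exact mul_ne_zero hj hB0 h1
  have h2 : ℓ ≤ (ρ j).natTrailingDegree + B.natTrailingDegree := by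
    have h3 := congrArg Polynomial.natTrailingDegree (hrB j)
    rw [Polynomial.natTrailingDegree_mul hj hB0, Polynomial.natTrailingDegree_mul hCX hbj,
      Polynomial.natTrailingDegree_mul (Polynomial.C_ne_zero.2 hc0)
        (pow_ne_zero _ Polynomial.X_ne_zero), Polynomial.natTrailingDegree_C,
      Polynomial.natTrailingDegree_X_pow] at h3
    omega
  have h4 : B.natTrailingDegree ≤ B.natDegree := Polynomial.natTrailingDegree_le_natDegree B
  have h5 : N * q.natDegree + N * Q.natTrailingDegree = N * Q.natDegree := by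
    rw [← mul_add, hqX]
  have h55 : kk * (dW - aW) + kk * aW = kk * dW := by
    rw [← mul_add, Nat.sub_add_cancel hle]
  by_cases hi : ρ i = 0
  · rw [hi, Polynomial.natDegree_zero]
    omega
  have hbi : b i ≠ 0 := by
    intro h0
    have h1 := hrB i
    rw [h0, mul_zero] at h1
    exact mul_ne_zero hi hB0 h1
  have h6 := congrArg Polynomial.natDegree (hrB i)
  rw [Polynomial.natDegree_mul hi hB0, Polynomial.natDegree_mul hCX hbi,
    Polynomial.natDegree_C_mul_X_pow ℓ c0 hc0] at h6
  have h7 := hb1 i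
  omega

end Pool.Agent.D0H97.VV
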